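import Pool.Agent.H94.PS.Tcs2

set_option autoImplicit false

/-!
# [H94 PS BDT2] The classes killed by lemma T2

`Q = Nat.card F ≥ 2`.
* `bd_T`: `K` of `tl` for `r = 4 ^ k`, w.l.o.g. `K ≥ 1` (replace by `K + 1`; the right side of `tl` is monotone in `K`).  `cs_T`; for `μ ∈ Icc (thr d) e`, `y ∈ YY F k d μ` apply `tl` with `n = C (c 0) * ∏ y` (`≠ 0`, degree `(∏ y).natDegree`, `om n = om (∏ y)`), `smL`, `abs_fT_le`, `abs_gT_le`, `abs_hT_le`, `kap_spec`; `1 ≤ thr d ≤ μ` since `d ≥ 2`.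
  `X = K (d + 1) ^ K K ^ om n ≥ 1`: `TS ^ 4 ≤ X Q ^ (4 (d + μ)) / Q ^ μ` gives `|TS| ≤ X Q ^ (d + μ) Q ^ (- μ / 4) ≤ X Q ^ (d + μ) Q ^ (- thr d / 16)` (fourth roots: `X ^ (1/4) ≤ X`; compare the fourth powers).  Sum over `y`: `sumY` with `C = K`: `≤ K (d + 1) ^ K K' (d + 1) ^ K' Q ^ (d - μ) Q ^ (d + μ) Q ^ (- thr d / 16)`, and `Q ^ (d - μ) Q ^ (d + μ) = Q ^ (2 d)`;
  at most `d + 1` values of `μ`.  `2 e < d` from `10 e ≤ d`, `d ≥ 2`.
* `bd_T2`: the same from `tl2`, `cs_T2`: `TS2 ^ 16 ≤ X Q ^ (16 (d + μ)) / Q ^ min μ ν`, `min μ ν ≥ thr d`, 16th roots; at most `(d + 1) ^ 2` pairs `μ`, `ν`.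
-/

namespace Pool.Agent.H94.PS

open Polynomial
open Pool.Agent.H94.PC
open Pool.Agent.H94.PN (dotp)
open Pool.Agent.H74.SL (V q w L NotKilled)

section
variable {F : Type} [Field F] [Finite F] {k d : ℕ}

private theorem bdt2_om {c : F} (hc : c ≠ 0) {D : F[X]} (hD : D ≠ 0) : om (C c * D) = om D := by
  have h1 : C c * D ≠ 0 := mul_ne_zero (C_ne_zero.2 hc) hD
  have h2 : IsUnit (C c) := isUnit_C.2 hc.isUnit
  have h3 : pf (C c * D) = pf D := by
    ext P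
    rw [mem_pf h1, mem_pf hD, h2.dvd_mul_left]
  unfold om
  rw [h3]

private theorem bdt2_thr {d : ℕ} (hd : 2 ≤ d) : 1 ≤ thr d := by
  unfold thr
  have h1 : (1 : ℝ) < d := by exact_mod_cast hd
  exact Nat.one_le_iff_ne_zero.2 (Nat.ceil_pos.2 (pow_pos (Real.log_pos h1) 2)).ne'

open Classical in
private theorem bdt2_mem {d μ : ℕ} {y : V k → Mn F d} (hy : y ∈ YY F k d μ) :
    (∏ v, (y v).1).natDegree + μ = d := by
  unfold YY at hy
  exact (Finset.mem_filter.1 hy).2.2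

/-- sixteenth roots -/
private theorem bdt2_root {T X q : ℝ} {t m a : ℕ} (hX : 1 ≤ X) (hq : 1 ≤ q) (htm : t ≤ m)
    (h : T ^ 16 * q ^ m ≤ X * q ^ (16 * a)) : |T| ≤ X * q ^ a * q ^ (-(t : ℝ) / 16) := by
  have hq0 : 0 < q := lt_of_lt_of_le one_pos hq
  have hX0 : 0 < X := lt_of_lt_of_le one_pos hX
  set z : ℝ := q ^ (-(t : ℝ) / 16) with hz
  have hz0 : 0 < z := Real.rpow_pos_of_pos hq0 _
  have hz1 : z ^ 16 * q ^ t = 1 := by
    have h1 : z ^ 16 = q ^ (-(t : ℝ)) := by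
      rw [hz, ← Real.rpow_natCast, ← Real.rpow_mul hq0.le]
      congr 1
      push_cast
      ring
    rw [h1, Real.rpow_neg hq0.le, Real.rpow_natCast]
    exact inv_mul_cancel₀ (pow_pos hq0 t).ne'
  have h1 : |T| ^ 16 ≤ (X * q ^ a * z) ^ 16 := by
    have h2 : |T| ^ 16 = T ^ 16 := by
      rw [show (16 : ℕ) = 2 * 8 from rfl, pow_mul, sq_abs, ← pow_mul]
    have h3 : T ^ 16 * q ^ t ≤ X * q ^ (16 * a) := by
      refine le_trans ?_ h
      refine mul_le_mul_of_nonneg_left (pow_le_pow_right₀ hq htm) ?_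
      rw [← h2]
      positivity
    have h4 : X ≤ X ^ 16 := by
      calc X = X ^ 1 := (pow_one X).symm
        _ ≤ X ^ 16 := pow_le_pow_right₀ hX (by norm_num)
    have h5 : T ^ 16 * q ^ t ≤ (X * q ^ a * z) ^ 16 * q ^ t := by
      calc T ^ 16 * q ^ t ≤ X * q ^ (16 * a) := h3
        _ ≤ X ^ 16 * q ^ (16 * a) := mul_le_mul_of_nonneg_right h4 (by positivity)
        _ = X ^ 16 * q ^ (16 * a) * (z ^ 16 * q ^ t) := by rw [hz1, mul_one]
        _ = _ := by rw [mul_comm 16 a, pow_mul]; ring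
    rw [h2]
    exact le_of_mul_le_mul_right h5 (pow_pos hq0 t)
  exact le_of_pow_le_pow_left₀ (by norm_num) (by positivity) h1

theorem bd_T2 (h2 : (2 : F) ≠ 0) (k : ℕ) (th : ZMod 2) : ∃ K : ℕ,
    ∀ (c : Fin 3 → F), (∀ i, c i ≠ 0) → ∀ (π : Fin 3 → Pfl k) (u v1 : V k), u ∈ (π 0).U →
      v1 ∈ (π 1).U → L th u (π 1).v (π 2).v = 0 → L th u v1 (π 2).v = 1 →
      ∀ d e : ℕ, 10 * e ≤ d → 2 ≤ d →
      |CS th d e c π| ≤ K * ((d : ℝ) + 1) ^ K * (Nat.card F : ℝ) ^ (2 * d) *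
        (Nat.card F : ℝ) ^ (-(thr d : ℝ) / 16) := by
  obtain ⟨K1, hK1⟩ := tl2 h2 (4 ^ k)
  obtain ⟨K2, hK2⟩ := sumY F k (K1 + 1)
  refine ⟨(K1 + 1) * K2 + (K1 + 1) + K2 + 2, ?_⟩
  intro c hc π u v1 hu hv hL0 hL d e hed hd
  obtain ⟨s, hs, hcs⟩ := cs_T2 h2 th c hc π hu hv hL0 hL
  rw [hcs d e (by omega)]
  set q : ℝ := (Nat.card F : ℝ) with hq
  have hq1 : 1 ≤ q := by
    have h1 : 0 < Nat.card F := Nat.card_pos
    rw [hq]
    exact_mod_cast h1
  have hq0 : 0 < q := lt_of_lt_of_le one_pos hq1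
  have hs1 : |s| = 1 := by rcases hs with rfl | rfl <;> simp
  rw [abs_mul, hs1, one_mul]
  set D : ℝ := (d : ℝ) + 1 with hD
  have hD1 : 1 ≤ D := by
    have : (0 : ℝ) ≤ d := Nat.cast_nonneg d
    linarith
  have hD0 : 0 < D := lt_of_lt_of_le one_pos hD1
  set z : ℝ := q ^ (-(thr d : ℝ) / 16) with hz
  have hz0 : 0 < z := Real.rpow_pos_of_pos hq0 _
  set κ : ℝ := (K1 : ℝ) + 1 with hκ
  have hκ1 : 1 ≤ κ := by
    have : (0 : ℝ) ≤ K1 := Nat.cast_nonneg K1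
    linarith
  have hκ0 : 0 < κ := lt_of_lt_of_le one_pos hκ1
  have hthr := bdt2_thr hd
  have key : ∀ μ ∈ Finset.Icc (thr d) e, ∀ ν ∈ Finset.Icc (thr d) e,
      |∑ y ∈ YY F k d μ,
        TS2 d μ ν (C (c 0) * ∏ v, (y v).1) (c 1) (c 2)
          (smb (F := F) (k := k) (d := d) (e := e - ν))
          (smb (F := F) (k := k) (d := d) (e := e))
          (fun W s Q => fT2 th e π v1 (C (c 0) * ∏ v, (y v).1) y W s.1 Q)
          (fun t R => gT th e π t.1 R) (fun m s t => hT2 th e ν π u y m s.1 t.1)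
          (fun W _ t => eT2 (π 2).v v1 W t.1)
          (fun t => kap (π 2).v (π 1).v t.1)| ≤
        κ * D ^ (K1 + 1) * (K2 * D ^ K2) * q ^ (2 * d) * z := by
    intro μ hμ ν hν
    rw [Finset.mem_Icc] at hμ hν
    have hμd : μ ≤ d := by omega
    have hy : ∀ y ∈ YY F k d μ,
        |TS2 d μ ν (C (c 0) * ∏ v, (y v).1) (c 1) (c 2)
          (smb (F := F) (k := k) (d := d) (e := e - ν))
          (smb (F := F) (k := k) (d := d) (e := e))
          (fun W s Q => fT2 th e π v1 (C (c 0) * ∏ v, (y v).1) y W s.1 Q)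
          (fun t R => gT th e π t.1 R) (fun m s t => hT2 th e ν π u y m s.1 t.1)
          (fun W _ t => eT2 (π 2).v v1 W t.1)
          (fun t => kap (π 2).v (π 1).v t.1)| ≤
        κ * D ^ (K1 + 1) * q ^ (d + μ) * z * ((K1 + 1 : ℕ) : ℝ) ^ om (∏ v, (y v).1) := by
      intro y hy
      have hy1 : (∏ v, (y v).1).natDegree + μ = d := by
        exact bdt2_mem hy
      have hmo : (∏ v, (y v).1).Monic := monic_prod_of_monic _ _ fun v _ => (y v).2.1
      have hn0 : C (c 0) * ∏ v, (y v).1 ≠ 0 := mul_ne_zero (C_ne_zero.2 (hc 0)) hmo.ne_zero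
      have hnd : (C (c 0) * ∏ v, (y v).1).natDegree + μ = d := by
        rw [natDegree_C_mul (hc 0)]
        exact hy1
      have h1 := hK1 d e μ ν hed (hthr.trans hμ.1) hμ.2 (hthr.trans hν.1) hν.2
        (C (c 0) * ∏ v, (y v).1) (c 1) (c 2) (hc 1) (hc 2) hn0 hnd
        (SmT F k d (e - ν)) (SmT F k d e) smb smb (smL (e - ν)) (smL e)
        (fun W s Q => fT2 th e π v1 (C (c 0) * ∏ v, (y v).1) y W s.1 Q)
        (fun t R => gT th e π t.1 R) (fun m s t => hT2 th e ν π u y m s.1 t.1)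
        (fun W _ t => eT2 (π 2).v v1 W t.1)
        (fun t => kap (π 2).v (π 1).v t.1)
        (fun W s Q => abs_fT2_le th e π v1 _ y W s.1 Q)
        (fun t R => abs_gT_le th e π t.1 R)
        (fun m s t => abs_hT2_le th e ν π u y m s.1 t.1)
        (fun W s t => (abs_sg _).le)
        (fun t => kap_spec (π 2).v (π 1).v t.1)
      rw [bdt2_om (hc 0) hmo.ne_zero] at h1
      set o : ℕ := om (∏ v, (y v).1) with ho
      have h3 : (K1 : ℝ) * D ^ K1 * (K1 : ℝ) ^ o ≤ κ * D ^ (K1 + 1) * κ ^ o := by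
        have h4 : (K1 : ℝ) ≤ κ := by rw [hκ]; linarith
        have h5 : D ^ K1 ≤ D ^ (K1 + 1) := pow_le_pow_right₀ hD1 (Nat.le_succ K1)
        have h6 : (K1 : ℝ) ^ o ≤ κ ^ o := pow_le_pow_left₀ (Nat.cast_nonneg K1) h4 o
        exact mul_le_mul (mul_le_mul h4 h5 (by positivity) hκ0.le) h6 (by positivity)
          (by positivity)
      have h4 := bdt2_root (t := thr d) (m := min μ ν) (a := d + μ)
        (X := κ * D ^ (K1 + 1) * κ ^ o) (q := q)
        (by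
          have h5 : (1 : ℝ) ≤ κ * D ^ (K1 + 1) := one_le_mul_of_one_le_of_one_le hκ1 (one_le_pow₀ hD1)
          exact one_le_mul_of_one_le_of_one_le h5 (one_le_pow₀ hκ1))
        hq1 (le_min hμ.1 hν.1)
        (h1.trans (mul_le_mul_of_nonneg_right h3 (by positivity)))
      refine h4.trans (le_of_eq ?_)
      rw [← hz, hκ]
      push_cast
      ring
    refine (Finset.abs_sum_le_sum_abs _ _).trans ((Finset.sum_le_sum hy).trans ?_)
    rw [← Finset.mul_sum]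
    have h5 := hK2 d μ hμd
    refine (mul_le_mul_of_nonneg_left h5 (by positivity)).trans (le_of_eq ?_)
    rw [← hD]
    have h6 : q ^ (2 * d) = q ^ (d + μ) * q ^ (d - μ) := by
      rw [← pow_add]
      congr 1
      omega
    rw [h6]
    ring
  set B : ℝ := κ * D ^ (K1 + 1) * (K2 * D ^ K2) * q ^ (2 * d) * z with hB
  have hB0 : 0 ≤ B := by positivity
  have hcard : ((Finset.Icc (thr d) e).card : ℝ) ≤ D := by
    rw [Nat.card_Icc, hD]
    have : e + 1 - thr d ≤ d + 1 := by omega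
    exact_mod_cast this
  refine (Finset.abs_sum_le_sum_abs _ _).trans ?_
  have h7 : ∀ μ ∈ Finset.Icc (thr d) e,
      |∑ ν ∈ Finset.Icc (thr d) e, ∑ y ∈ YY F k d μ,
        TS2 d μ ν (C (c 0) * ∏ v, (y v).1) (c 1) (c 2)
          (smb (F := F) (k := k) (d := d) (e := e - ν))
          (smb (F := F) (k := k) (d := d) (e := e))
          (fun W s Q => fT2 th e π v1 (C (c 0) * ∏ v, (y v).1) y W s.1 Q)
          (fun t R => gT th e π t.1 R) (fun m s t => hT2 th e ν π u y m s.1 t.1)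
          (fun W _ t => eT2 (π 2).v v1 W t.1)
          (fun t => kap (π 2).v (π 1).v t.1)| ≤ D * B := by
    intro μ hμ
    refine (Finset.abs_sum_le_sum_abs _ _).trans ((Finset.sum_le_sum (key μ hμ)).trans ?_)
    rw [Finset.sum_const, nsmul_eq_mul]
    exact mul_le_mul_of_nonneg_right hcard hB0
  refine (Finset.sum_le_sum h7).trans ?_
  rw [Finset.sum_const, nsmul_eq_mul]
  refine (mul_le_mul_of_nonneg_right hcard (by positivity)).trans ?_
  have h8 : D * (D * B) = ((K1 + 1) * K2 : ℝ) * D ^ (K1 + 1 + K2 + 2) * q ^ (2 * d) * z := by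
    rw [hB, hκ]
    ring
  rw [h8]
  have h9 : ((K1 + 1) * K2 : ℝ) ≤ (((K1 + 1) * K2 + (K1 + 1) + K2 + 2 : ℕ) : ℝ) := by
    push_cast
    have : (0 : ℝ) ≤ K1 := Nat.cast_nonneg K1
    have : (0 : ℝ) ≤ K2 := Nat.cast_nonneg K2
    linarith
  have h10 : D ^ (K1 + 1 + K2 + 2) ≤ D ^ ((K1 + 1) * K2 + (K1 + 1) + K2 + 2) :=
    pow_le_pow_right₀ hD1 (by
      have : 0 ≤ (K1 + 1) * K2 := Nat.zero_le _
      omega)
  refine mul_le_mul_of_nonneg_right (mul_le_mul_of_nonneg_right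
    (mul_le_mul h9 h10 (by positivity) (by positivity)) (by positivity)) hz0.le

end

end Pool.Agent.H94.PS
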