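import Pool.Agent.H94.PS.Defs

set_option autoImplicit false

/-!
# [H94 PS PHA] The elimination of the large prime of the third class

`ph' th k0 x`: the exponent in which `x 2 k0` does not occur (its coefficients are `w (k0 + k0) v + q k0 + q k0 = 0` and `w v 0 = 0`).

`cop3`: all parts are pairwise coprime if `TY c x 0 * TY c x 1 * TY c x 2` is squarefree.  `c i ≠ 0` (`TY c x i ≠ 0`).

`gauge`: write `a(i, v) = (x i v).1`, `δ(i, v)` for the parity of its degree, `ε = bt (-1)`, `β(c) = bt c`; `lam (C c) a = β(c) δ(a)` (`lam_C`), `lam` is additive in the first argument on coprime products (`lam_mul_left`, induction for `∏`), `lam_recip`.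
Since `Y 0 + Y 1 + Y 2 = 0`: (A) `lam (Y 1) a(0, v) = lam (-Y 2) a(0, v)`, (B) `lam (Y 2) a(1, v) = lam (-Y 0) a(1, v)` (`js_congr` for `a(i, v) ∣ Y i`, `js_eq_sg`, `sg_inj`).  With `Y i = C (c i) * ∏ v, a(i, v)`:
(A) `∑ v', lam a(1, v') a(0, v) + β(c 1) δ(0, v) = (ε + β(c 2)) δ(0, v) + ∑ v', lam a(2, v') a(0, v)`,
so `lam a(2, k0) a(0, v) = ∑ v', lam a(1, v') a(0, v) + ∑ v' ≠ k0, lam a(2, v') a(0, v) + (β(c 1) + β(c 2) + ε) δ(0, v)`;
(B) `lam a(2, k0) a(1, v) = ∑ v', lam a(0, v') a(1, v) + ∑ v' ≠ k0, lam a(2, v') a(1, v) + (β(c 0) + β(c 2) + ε) δ(1, v)`.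
In `ph th c x` use `lam (Y 1) a(0, v) = ∑ v', lam a(1, v') a(0, v) + β(c 1) δ(0, v)`; `lam (Y 2) a(1, v) = lam (-Y 0) a(1, v) = ∑ v', lam a(0, v') a(1, v) + (ε + β(c 0)) δ(1, v)`; `lam (Y 0) a(2, v) = ∑ v', lam a(0, v') a(2, v) + β(c 0) δ(2, v)`, and
reciprocity so that only `lam a(1, v') a(0, v)`, `lam a(2, v') a(0, v)`, `lam a(2, v') a(1, v)` occur (up to `ε δ δ`).  The coefficient of `lam a(2, k0) a(0, v)` is `(dotp v.1 k0.2 + th) + (dotp k0.1 v.2 + th) + (q k0 + th) = w v k0 + q k0 + th`,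
that of `lam a(2, k0) a(1, v)` is `(dotp v.1 k0.2 + th) + (dotp k0.1 v.2 + th) = w v k0`.  Insert (A), (B).  Then the coefficient of
* `lam a(1, v') a(0, v)` is `(dotp v'.1 v.2 + th) + (dotp v.1 v'.2 + th) + (q v + th) + (q v' + th) + (w v k0 + q k0 + th) + w v' k0 = q (v + v' + k0) + th = L th v v' k0`;
* `lam a(2, v') a(0, v)`, `v' ≠ k0`, is `w v v' + 2 th + (q v' + th) + (w v k0 + q k0 + th) = w (v' + k0) v + q v' + q k0`;
* `lam a(2, v') a(1, v)`, `v' ≠ k0`, is `w v v' + 2 th + w v k0 = w v (v' + k0)`.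
All remaining terms are polynomials in `th`, `ε`, `β(c i)`, `δ(i, v)` and the labels; they are the value of `G` at `δ`.  So `G δ` is defined as the explicit sum of these terms:
`G δ = ∑ v, (q v + th) (β(c 1) δ(0,v) + (ε + β(c 0)) δ(1,v) + β(c 0) δ(2,v))` `+ ε ∑ v, ∑ v', [(dotp v.1 v'.2 + th) (δ(0,v) δ(1,v') + δ(0,v) δ(2,v') + δ(1,v) δ(2,v')) + (q v' + th) (δ(0,v) δ(1,v') + δ(0,v) δ(2,v'))]`
`+ ∑ v, (w v k0 + q k0 + th) (β(c 1) + β(c 2) + ε) δ(0,v) + ∑ v, w v k0 (β(c 0) + β(c 2) + ε) δ(1,v) + ε ∑ v, ∑ v', w v' k0 δ(0,v) δ(1,v')`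
(check it while proving; any `G` which depends on `δ`, `c`, `th`, `k0` only is fine).
-/

namespace Pool.Agent.H94.PS

open Polynomial
open Pool.Agent.H94.PC
open Pool.Agent.H94.PN (dotp)
open Pool.Agent.H74.SL (V q w L NotKilled)

section
variable {F : Type} [Field F] [Finite F] {k d : ℕ}

/-- the exponent without the large prime of the third class (at the label `k0`) -/
noncomputable def ph' (th : ZMod 2) (k0 : V k) (x : Fin 3 → V k → Mn F d) : ZMod 2 :=
  (∑ v, ∑ v', L th v v' k0 * lam (x 1 v').1 (x 0 v).1) +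
    (∑ v, ∑ v', (w (v' + k0) v + q v' + q k0) * lam (x 2 v').1 (x 0 v).1) +
    ∑ v, ∑ v', w v (v' + k0) * lam (x 2 v').1 (x 1 v).1

/-- all parts are pairwise coprime -/
def Cop3 (x : Fin 3 → V k → Mn F d) : Prop :=
  ∀ i v j v', (i, v) ≠ (j, v') → IsCoprime (x i v).1 (x j v').1

/-- the correction term -/
private noncomputable def phaG {k : ℕ} (th ε β0 β1 β2 : ZMod 2) (k0 : V k)
    (δ0 δ1 δ2 : V k → ZMod 2) : ZMod 2 :=
  (∑ v, (q v + th) * (β1 * δ0 v)) + (∑ v, (q v + th) * ((ε + β0) * δ1 v)) +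
    (∑ v, (q v + th) * (β0 * δ2 v)) +
    (∑ v : V k, ∑ v' : V k, ((dotp v'.1 v.2 + th) + (q v + th)) * (ε * (δ0 v' * δ1 v))) +
    (∑ v : V k, ∑ v' : V k, ((dotp v'.1 v.2 + th) + (q v + th)) * (ε * (δ0 v' * δ2 v))) +
    (∑ v : V k, ∑ v' : V k, (dotp v'.1 v.2 + th) * (ε * (δ1 v' * δ2 v))) +
    (∑ v, (w v k0 + q k0 + th) * ((β1 + β2 + ε) * δ0 v)) +
    ∑ v, w v k0 * ((β0 + β2 + ε) * δ1 v + ∑ v', ε * (δ0 v' * δ1 v))

private theorem pha_alg {k : ℕ} (th ε β0 β1 β2 : ZMod 2) (k0 : V k)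
    (M10 M20 M21 : V k → V k → ZMod 2) (δ0 δ1 δ2 : V k → ZMod 2)
    (hA : ∀ v, β1 * δ0 v + ∑ v', M10 v' v = ε * δ0 v + (β2 * δ0 v + ∑ v', M20 v' v))
    (hB : ∀ v, β2 * δ1 v + ∑ v', M21 v' v =
      ε * δ1 v + (β0 * δ1 v + ∑ v', (ε * (δ0 v' * δ1 v) + M10 v v'))) :
    (∑ v, ((∑ v', (dotp v'.1 v.2 + th) * M10 v' v) + (∑ v', (dotp v'.1 v.2 + th) * M20 v' v) +
      (q v + th) * (β1 * δ0 v + ∑ v', M10 v' v))) +
    (∑ v, ((∑ v', (dotp v'.1 v.2 + th) * (ε * (δ0 v' * δ1 v) + M10 v v')) +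
      (∑ v', (dotp v'.1 v.2 + th) * M21 v' v) +
      (q v + th) * (ε * δ1 v + (β0 * δ1 v + ∑ v', (ε * (δ0 v' * δ1 v) + M10 v v'))))) +
    (∑ v, ((∑ v', (dotp v'.1 v.2 + th) * (ε * (δ0 v' * δ2 v) + M20 v v')) +
      (∑ v', (dotp v'.1 v.2 + th) * (ε * (δ1 v' * δ2 v) + M21 v v')) +
      (q v + th) * (β0 * δ2 v + ∑ v', (ε * (δ0 v' * δ2 v) + M20 v v')))) =
    ((∑ v, ∑ v', L th v v' k0 * M10 v' v) +
      (∑ v, ∑ v', (w (v' + k0) v + q v' + q k0) * M20 v' v) +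
      ∑ v, ∑ v', w v (v' + k0) * M21 v' v) + phaG th ε β0 β1 β2 k0 δ0 δ1 δ2 := by
  have two : (2 : ZMod 2) = 0 := rfl
  have p0 : (∑ v, ((∑ v', (dotp v'.1 v.2 + th) * M10 v' v) +
      (∑ v', (dotp v'.1 v.2 + th) * M20 v' v) + (q v + th) * (β1 * δ0 v + ∑ v', M10 v' v))) =
      (∑ v, ∑ v', ((dotp v'.1 v.2 + th) + (q v + th)) * M10 v' v) +
      (∑ v, ∑ v', (dotp v'.1 v.2 + th) * M20 v' v) + ∑ v, (q v + th) * (β1 * δ0 v) := by
    simp only [add_mul, mul_add, Finset.sum_add_distrib, Finset.mul_sum]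
    ring
  have p1 : (∑ v, ((∑ v', (dotp v'.1 v.2 + th) * (ε * (δ0 v' * δ1 v) + M10 v v')) +
      (∑ v', (dotp v'.1 v.2 + th) * M21 v' v) +
      (q v + th) * (ε * δ1 v + (β0 * δ1 v + ∑ v', (ε * (δ0 v' * δ1 v) + M10 v v'))))) =
      (∑ v, ∑ v', ((dotp v'.1 v.2 + th) + (q v + th)) * (ε * (δ0 v' * δ1 v))) +
      (∑ v, ∑ v', ((dotp v'.1 v.2 + th) + (q v + th)) * M10 v v') +
      (∑ v, ∑ v', (dotp v'.1 v.2 + th) * M21 v' v) +
      ∑ v, (q v + th) * ((ε + β0) * δ1 v) := by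
    simp only [add_mul, mul_add, Finset.sum_add_distrib, Finset.mul_sum]
    ring
  have p2 : (∑ v, ((∑ v', (dotp v'.1 v.2 + th) * (ε * (δ0 v' * δ2 v) + M20 v v')) +
      (∑ v', (dotp v'.1 v.2 + th) * (ε * (δ1 v' * δ2 v) + M21 v v')) +
      (q v + th) * (β0 * δ2 v + ∑ v', (ε * (δ0 v' * δ2 v) + M20 v v')))) =
      (∑ v, ∑ v', ((dotp v'.1 v.2 + th) + (q v + th)) * (ε * (δ0 v' * δ2 v))) +
      (∑ v, ∑ v', ((dotp v'.1 v.2 + th) + (q v + th)) * M20 v v') +
      (∑ v, ∑ v', (dotp v'.1 v.2 + th) * (ε * (δ1 v' * δ2 v))) +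
      (∑ v, ∑ v', (dotp v'.1 v.2 + th) * M21 v v') +
      ∑ v, (q v + th) * (β0 * δ2 v) := by
    simp only [add_mul, mul_add, Finset.sum_add_distrib, Finset.mul_sum]
    ring
  have e1 : (∑ v, ∑ v', ((dotp v'.1 v.2 + th) + (q v + th)) * M10 v' v) +
      (∑ v, ∑ v', ((dotp v'.1 v.2 + th) + (q v + th)) * M10 v v') =
      (∑ v, ∑ v', L th v v' k0 * M10 v' v) +
      (∑ v, (w v k0 + q k0 + th) * ∑ v', M10 v' v) + ∑ v, w v k0 * ∑ v', M10 v v' := by
    have h1 : (∑ v, ∑ v', ((dotp v'.1 v.2 + th) + (q v + th)) * M10 v v') =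
        ∑ v, ∑ v', ((dotp v.1 v'.2 + th) + (q v' + th)) * M10 v' v := Finset.sum_comm
    have h2 : ∑ v, w v k0 * ∑ v', M10 v v' = ∑ v, ∑ v', w v' k0 * M10 v' v := by
      simp only [Finset.mul_sum]
      exact Finset.sum_comm
    have h3 : ∑ v, (w v k0 + q k0 + th) * ∑ v', M10 v' v =
        ∑ v, ∑ v', (w v k0 + q k0 + th) * M10 v' v := by
      simp only [Finset.mul_sum]
    rw [h1, h2, h3, ← Finset.sum_add_distrib, ← Finset.sum_add_distrib, ← Finset.sum_add_distrib]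
    refine Finset.sum_congr rfl fun v _ => ?_
    rw [← Finset.sum_add_distrib, ← Finset.sum_add_distrib, ← Finset.sum_add_distrib]
    refine Finset.sum_congr rfl fun v' _ => ?_
    have h4 : w v v' = dotp v.1 v'.2 + dotp v'.1 v.2 := rfl
    unfold L
    rw [Pool.Agent.H74.SL.q_add, Pool.Agent.H74.SL.q_add, Pool.Agent.H74.SL.w_add_left, h4]
    linear_combination (th - q k0 - w v k0 - w v' k0) * M10 v' v * two
  have e2 : (∑ v, ∑ v', (dotp v'.1 v.2 + th) * M20 v' v) +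
      (∑ v, ∑ v', ((dotp v'.1 v.2 + th) + (q v + th)) * M20 v v') =
      (∑ v, ∑ v', (w (v' + k0) v + q v' + q k0) * M20 v' v) +
      ∑ v, (w v k0 + q k0 + th) * ∑ v', M20 v' v := by
    have h1 : (∑ v, ∑ v', ((dotp v'.1 v.2 + th) + (q v + th)) * M20 v v') =
        ∑ v, ∑ v', ((dotp v.1 v'.2 + th) + (q v' + th)) * M20 v' v := Finset.sum_comm
    have h3 : ∑ v, (w v k0 + q k0 + th) * ∑ v', M20 v' v =
        ∑ v, ∑ v', (w v k0 + q k0 + th) * M20 v' v := by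
      simp only [Finset.mul_sum]
    rw [h1, h3, ← Finset.sum_add_distrib, ← Finset.sum_add_distrib]
    refine Finset.sum_congr rfl fun v _ => ?_
    rw [← Finset.sum_add_distrib, ← Finset.sum_add_distrib]
    refine Finset.sum_congr rfl fun v' _ => ?_
    have h4 : w v' v = dotp v'.1 v.2 + dotp v.1 v'.2 := rfl
    rw [Pool.Agent.H74.SL.w_add_left, h4, Pool.Agent.H74.SL.w_comm k0 v]
    linear_combination (th - q k0 - w v k0) * M20 v' v * two
  have e3 : (∑ v, ∑ v', (dotp v'.1 v.2 + th) * M21 v' v) +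
      (∑ v, ∑ v', (dotp v'.1 v.2 + th) * M21 v v') =
      (∑ v, ∑ v', w v (v' + k0) * M21 v' v) + ∑ v, w v k0 * ∑ v', M21 v' v := by
    have h1 : (∑ v, ∑ v', (dotp v'.1 v.2 + th) * M21 v v') =
        ∑ v, ∑ v', (dotp v.1 v'.2 + th) * M21 v' v := Finset.sum_comm
    have h3 : ∑ v, w v k0 * ∑ v', M21 v' v = ∑ v, ∑ v', w v k0 * M21 v' v := by
      simp only [Finset.mul_sum]
    rw [h1, h3, ← Finset.sum_add_distrib, ← Finset.sum_add_distrib]
    refine Finset.sum_congr rfl fun v _ => ?_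
    rw [← Finset.sum_add_distrib, ← Finset.sum_add_distrib]
    refine Finset.sum_congr rfl fun v' _ => ?_
    have h4 : w v v' = dotp v.1 v'.2 + dotp v'.1 v.2 := rfl
    rw [Pool.Agent.H74.SL.w_add_right, h4]
    linear_combination (th - w v k0) * M21 v' v * two
  have e4 : ∑ v, (w v k0 + q k0 + th) * ∑ v', M20 v' v =
      (∑ v, (w v k0 + q k0 + th) * ∑ v', M10 v' v) +
      ∑ v, (w v k0 + q k0 + th) * ((β1 + β2 + ε) * δ0 v) := by
    rw [← Finset.sum_add_distrib]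
    refine Finset.sum_congr rfl fun v _ => ?_
    linear_combination (-(w v k0 + q k0 + th)) * hA v -
      (w v k0 + q k0 + th) * (β2 + ε) * δ0 v * two
  have e5 : ∑ v, w v k0 * ∑ v', M21 v' v =
      (∑ v, w v k0 * ∑ v', M10 v v') +
      ∑ v, w v k0 * ((β0 + β2 + ε) * δ1 v + ∑ v', ε * (δ0 v' * δ1 v)) := by
    rw [← Finset.sum_add_distrib]
    refine Finset.sum_congr rfl fun v _ => ?_
    have h := hB v
    rw [Finset.sum_add_distrib] at h
    linear_combination (w v k0) * h - w v k0 * β2 * δ1 v * two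
  rw [p0, p1, p2]
  unfold phaG
  linear_combination e1 + e2 + e3 + e4 + e5 +
    (∑ v, (w v k0 + q k0 + th) * ∑ v', M10 v' v) * two + (∑ v, w v k0 * ∑ v', M10 v v') * two

private theorem pha_prod {ι : Type*} (s : Finset ι) (f : ι → F[X])
    {B : F[X]} (hB : B.Monic) (hc : ∀ i ∈ s, IsCoprime (f i) B) :
    lam (∏ i ∈ s, f i) B = ∑ i ∈ s, lam (f i) B := by
  classical
  induction s using Finset.induction_on with
  | empty =>
    have h := lam_C hB (one_ne_zero (α := F))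
    have h1 : bt (1 : F) = 0 := by
      unfold bt
      exact if_pos ⟨1, by rw [one_mul]⟩
    rw [C_1, h1, zero_mul] at h
    rw [Finset.prod_empty, Finset.sum_empty]
    exact h
  | insert a s ha ih =>
    rw [Finset.prod_insert ha, Finset.sum_insert ha,
      lam_mul_left hB (hc a (Finset.mem_insert_self a s))
        (IsCoprime.prod_left fun i hi => hc i (Finset.mem_insert_of_mem hi)),
      ih fun i hi => hc i (Finset.mem_insert_of_mem hi)]

private theorem pha_neg {A B : F[X]} (hB : B.Monic) (h : IsCoprime A B) :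
    lam (-A) B = bt (-1 : F) * (B.natDegree : ZMod 2) + lam A B := by
  have h1 : -A = C (-1) * A := by
    rw [C_neg, C_1, neg_one_mul]
  rw [h1, lam_mul_left hB (jsB_coprime_C (neg_ne_zero.2 one_ne_zero) B) h,
    lam_C hB (neg_ne_zero.2 one_ne_zero)]

private theorem pha_congr {A A' B : F[X]} (hB : B.Monic)
    (h : IsCoprime A B) (h' : IsCoprime A' B) (hd : B ∣ A - A') : lam A B = lam A' B := by
  apply sg_inj
  rw [← js_eq_sg hB h, ← js_eq_sg hB h', js_congr hB hd]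

theorem cop3 {c : Fin 3 → F} {x : Fin 3 → V k → Mn F d}
    (h : Squarefree (TY c x 0 * TY c x 1 * TY c x 2)) : Cop3 x := by
  classical
  obtain ⟨a, ha⟩ : ∃ a : Fin 3 × V k → F[X], ∀ i v, a (i, v) = (x i v).1 :=
    ⟨fun p => (x p.1 p.2).1, fun i v => rfl⟩
  have h1 : TY c x 0 * TY c x 1 * TY c x 2 = (C (c 0) * C (c 1) * C (c 2)) * ∏ p, a p := by
    rw [Fintype.prod_prod_type, Fin.prod_univ_three]
    unfold TY
    simp only [ha]
    ring
  have h2 : Squarefree (∏ p, a p) := h.squarefree_of_dvd (by rw [h1]; exact Dvd.intro_left _ rfl)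
  intro i v j v' hne
  have h3 : a (i, v) * a (j, v') ∣ ∏ p, a p := by
    rw [← Finset.mul_prod_erase Finset.univ a (Finset.mem_univ (i, v))]
    exact mul_dvd_mul_left _ (Finset.dvd_prod_of_mem _
      (Finset.mem_erase.2 ⟨Ne.symm hne, Finset.mem_univ _⟩))
  have h4 := (squarefree_mul_iff.1 (h2.squarefree_of_dvd h3)).1.isCoprime
  rw [ha, ha] at h4
  exact h4

/-- the gauge formula: up to a function of the parities of the degrees -/
theorem gauge (h2 : (2 : F) ≠ 0) (th : ZMod 2) (k0 : V k) (c : Fin 3 → F) :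
    ∃ G : (Fin 3 → V k → ZMod 2) → ZMod 2, ∀ (d : ℕ) (x : Fin 3 → V k → Mn F d),
      TY c x 0 + TY c x 1 + TY c x 2 = 0 → Squarefree (TY c x 0 * TY c x 1 * TY c x 2) →
      ph th c x = ph' th k0 x + G fun i v => ((x i v).1.natDegree : ZMod 2) := by
  refine ⟨fun δ => phaG th (bt (-1 : F)) (bt (c 0)) (bt (c 1)) (bt (c 2)) k0 (δ 0) (δ 1) (δ 2),
    fun d x hsum hsq => ?_⟩
  have hcop := cop3 hsq
  have hT0 : ∀ i, TY c x i ≠ 0 := by
    have h1 := hsq.ne_zero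
    intro i
    fin_cases i
    · exact left_ne_zero_of_mul (left_ne_zero_of_mul h1)
    · exact right_ne_zero_of_mul (left_ne_zero_of_mul h1)
    · exact right_ne_zero_of_mul h1
  have hc0 : ∀ i, c i ≠ 0 := by
    intro i h0
    apply hT0 i
    unfold TY
    rw [h0, C_0, zero_mul]
  have hcp : ∀ {i j : Fin 3}, i ≠ j → ∀ v v', IsCoprime (x i v).1 (x j v').1 :=
    fun {i j} hij v v' => hcop i v j v' fun h => hij (congrArg Prod.fst h)
  have hYc : ∀ {i j : Fin 3}, i ≠ j → ∀ v, IsCoprime (TY c x j) (x i v).1 := by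
    intro i j hij v
    unfold TY
    exact (jsB_coprime_C (hc0 j) _).mul_left
      (IsCoprime.prod_left fun v' _ => hcp (Ne.symm hij) v' v)
  have hY : ∀ {i j : Fin 3}, i ≠ j → ∀ v, lam (TY c x j) (x i v).1 =
      bt (c j) * ((x i v).1.natDegree : ZMod 2) + ∑ v', lam (x j v').1 (x i v).1 := by
    intro i j hij v
    unfold TY
    rw [lam_mul_left (x i v).2.1 (jsB_coprime_C (hc0 j) _)
      (IsCoprime.prod_left fun v' _ => hcp (Ne.symm hij) v' v), lam_C (x i v).2.1 (hc0 j),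
      pha_prod _ _ (x i v).2.1 (fun v' _ => hcp (Ne.symm hij) v' v)]
  have hdv : ∀ i v, (x i v).1 ∣ TY c x i := by
    intro i v
    unfold TY
    exact Dvd.dvd.mul_left (Finset.dvd_prod_of_mem (fun v => (x i v).1) (Finset.mem_univ v)) _
  have n01 : (0 : Fin 3) ≠ 1 := by decide
  have n02 : (0 : Fin 3) ≠ 2 := by decide
  have n12 : (1 : Fin 3) ≠ 2 := by decide
  have hR : ∀ {i j : Fin 3}, i ≠ j → ∀ v v', lam (x i v).1 (x j v').1 =
      bt (-1 : F) * (((x i v).1.natDegree : ZMod 2) * ((x j v').1.natDegree : ZMod 2)) +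
        lam (x j v').1 (x i v).1 := fun hij v v' =>
    lam_recip (x _ v).2.1 (x _ v').2.1 (hcp hij v v')
  -- (A), (B)
  have hA : ∀ v, lam (TY c x 1) (x 0 v).1 =
      bt (-1 : F) * ((x 0 v).1.natDegree : ZMod 2) + lam (TY c x 2) (x 0 v).1 := by
    intro v
    rw [← pha_neg (x 0 v).2.1 (hYc n02 v)]
    refine pha_congr (x 0 v).2.1 (hYc n01 v) (hYc n02 v).neg_left ?_
    have h1 : TY c x 1 - -TY c x 2 = -TY c x 0 := by linear_combination hsum
    rw [h1, dvd_neg]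
    exact hdv 0 v
  have hB : ∀ v, lam (TY c x 2) (x 1 v).1 =
      bt (-1 : F) * ((x 1 v).1.natDegree : ZMod 2) + lam (TY c x 0) (x 1 v).1 := by
    intro v
    rw [← pha_neg (x 1 v).2.1 (hYc n01.symm v)]
    refine pha_congr (x 1 v).2.1 (hYc n12 v) (hYc n01.symm v).neg_left ?_
    have h1 : TY c x 2 - -TY c x 0 = -TY c x 1 := by linear_combination hsum
    rw [h1, dvd_neg]
    exact hdv 1 v
  have key := pha_alg th (bt (-1 : F)) (bt (c 0)) (bt (c 1)) (bt (c 2)) k0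
    (fun v' v => lam (x 1 v').1 (x 0 v).1) (fun v' v => lam (x 2 v').1 (x 0 v).1)
    (fun v' v => lam (x 2 v').1 (x 1 v).1) (fun v => ((x 0 v).1.natDegree : ZMod 2))
    (fun v => ((x 1 v).1.natDegree : ZMod 2)) (fun v => ((x 2 v).1.natDegree : ZMod 2))
    (fun v => by
      have h1 := hA v
      rw [hY n01 v, hY n02 v] at h1
      exact h1)
    (fun v => by
      have h1 := hB v
      rw [hY n12 v, hY n01.symm v] at h1
      simp only [hR n01] at h1
      exact h1)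
  unfold ph'
  rw [← key]
  unfold ph
  rw [Fin.sum_univ_three]
  congr 1
  · congr 1
    · refine Finset.sum_congr rfl fun v _ => ?_
      rw [Fin.sum_univ_three, show (0 : Fin 3) + 1 = 1 from rfl, hY n01 v]
      simp only [if_true, if_neg n01, if_neg n02, Finset.sum_const_zero, zero_add]
    · refine Finset.sum_congr rfl fun v _ => ?_
      rw [Fin.sum_univ_three, show (1 : Fin 3) + 1 = 2 from rfl, hB v, hY n01.symm v]
      simp only [if_true, if_neg n01.symm, if_neg n12, Finset.sum_const_zero, add_zero, hR n01]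
  · refine Finset.sum_congr rfl fun v _ => ?_
    rw [Fin.sum_univ_three, show (2 : Fin 3) + 1 = 0 from rfl, hY n02.symm v]
    simp only [if_true, if_neg n02.symm, if_neg n12.symm, Finset.sum_const_zero, add_zero, hR n02,
      hR n12]

end

end Pool.Agent.H94.PS
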