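import Pool.Agent.H94.PS.Ins
import Pool.Agent.H94.PS.Pha

set_option autoImplicit false

/-!
# [H94 PS CC] The conditions of the class sum, class by class

`CC e π x`: the conditions on one labelled polynomial `x` of product `D = ∏ v, x v`.

* `cc_iff`: for `c i ≠ 0`, `pf (C c * D) = pf D` (`mem_pf`, `C c` is a unit), so `om`, `omt` are those of `D`; `natDegree (C c * D) = natDegree D`; `Squarefree (C c * D) ↔ Squarefree D`.
  `→`: from `Tr`; the product is squarefree, so its factors are squarefree and pairwise coprime (`Squarefree` of a product in the Euclidean domain `F[X]`: `squarefree_mul_iff`, `IsCoprime` from `IsRelPrime`).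
  `←`: the product is squarefree: `Y 1`, `Y 2` are coprime, `Y 0 = - Y 1 - Y 2`, so `Y 0` is coprime to both (`IsCoprime.add_mul_left_left` ..., a common divisor of `Y 0` and `Y 1` divides `Y 2`).  The primes of degree `≥ d - e` in `Fm` are given by `IsPfl.lrg` (a divisor of `x π.v` divides the product).
* `wgt_eq`: `om (TY c x i) = om (∏ v, x i v)`, `sg (th * (a + b + c))` is a product (`sg_add`), `Fin.sum_univ_three`, `Fin.prod_univ_three`.
* `cs_zero`: if some `c i = 0` then `TY c x i = 0`, the product is `0`, which is not squarefree, all terms are zero.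
* `lrg_unique`: two different primes of degree at least `d - e` which divide a monic polynomial of degree `d`: the product divides, so `2 (d - e) ≤ d`, a contradiction to `2 e < d`.
-/

namespace Pool.Agent.H94.PS

open Polynomial
open Pool.Agent.H94.PC
open Pool.Agent.H94.PN (dotp)
open Pool.Agent.H74.SL (V q w L NotKilled)

section
variable {F : Type} [Field F] [Finite F] {k d : ℕ}

/-- the conditions for one of the three classes -/
structure CC (e : ℕ) (π : Pfl k) (x : V k → Mn F d) : Prop where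
  deg : (∏ v, (x v).1).natDegree = d
  sqf : Squarefree (∏ v, (x v).1)
  typ : |(om (∏ v, (x v).1) : ℝ) - Real.log d| ≤ Real.log d ^ (3 / 4 : ℝ) ∧
    (omt (thr d) (∏ v, (x v).1) : ℝ) ≤ Real.log d ^ (3 / 4 : ℝ)
  pfl : IsPfl d e (thr d) π fun v => (x v).1

/-- the weight of one class -/
noncomputable def w1 (th : ZMod 2) (x : V k → Mn F d) : ℝ :=
  ((1 / 2 : ℝ) ^ k) ^ om (∏ v, (x v).1) * sg (th * (om (∏ v, (x v).1) : ZMod 2))

private theorem ccD_monic (x : V k → Mn F d) : (∏ v, (x v).1).Monic :=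
  monic_prod_of_monic _ _ fun v _ => (x v).2.1

omit [Finite F] in
private theorem ccC_unit {c : F} (hc : c ≠ 0) : IsUnit (C c : F[X]) :=
  isUnit_C.2 (isUnit_iff_ne_zero.2 hc)

private theorem cc_pf {c : F} (hc : c ≠ 0) {D : F[X]} (hD : D ≠ 0) : pf (C c * D) = pf D := by
  have h1 : C c * D ≠ 0 := mul_ne_zero (by rwa [Ne, C_eq_zero]) hD
  ext P
  rw [mem_pf h1, mem_pf hD, (ccC_unit hc).dvd_mul_left]

private theorem cc_om {c : Fin 3 → F} (hc : ∀ i, c i ≠ 0) (x : Fin 3 → V k → Mn F d) (i : Fin 3) :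
    pf (TY c x i) = pf (∏ v, (x i v).1) :=
  cc_pf (hc i) (ccD_monic (x i)).ne_zero

private theorem cc_deg {c : Fin 3 → F} (hc : ∀ i, c i ≠ 0) (x : Fin 3 → V k → Mn F d) (i : Fin 3) :
    (TY c x i).natDegree = (∏ v, (x i v).1).natDegree :=
  natDegree_C_mul (hc i)

private theorem cc_sqf {c : Fin 3 → F} (hc : ∀ i, c i ≠ 0) (x : Fin 3 → V k → Mn F d) (i : Fin 3) :
    Squarefree (TY c x i) ↔ Squarefree (∏ v, (x i v).1) := by
  have h : Associated (TY c x i) (∏ v, (x i v).1) := by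
    refine (associated_unit_mul_left _ _ (ccC_unit (hc i)))
  exact h.squarefree_iff

private theorem cc_cop {c : Fin 3 → F} (hc : ∀ i, c i ≠ 0) (x : Fin 3 → V k → Mn F d)
    (i j : Fin 3) :
    IsCoprime (TY c x i) (TY c x j) ↔ IsCoprime (∏ v, (x i v).1) (∏ v, (x j v).1) := by
  unfold TY
  rw [isCoprime_mul_unit_left_left (ccC_unit (hc i)), isCoprime_mul_unit_left_right (ccC_unit (hc j))]

omit [Finite F] in
private theorem cc_sqf_mul {A B : F[X]} : Squarefree (A * B) ↔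
    IsCoprime A B ∧ Squarefree A ∧ Squarefree B := by
  rw [squarefree_mul_iff, isRelPrime_iff_isCoprime]

theorem abs_w1_le (th : ZMod 2) (x : V k → Mn F d) : |w1 th x| ≤ 1 := by
  unfold w1
  rw [abs_mul, abs_sg, mul_one, abs_of_nonneg (by positivity)]
  exact pow_le_one₀ (by positivity) (pow_le_one₀ (by norm_num) (by norm_num))

theorem sqf_TY {c : Fin 3 → F} (hc : ∀ i, c i ≠ 0) {x : Fin 3 → V k → Mn F d}
    (h0 : TY c x 0 + TY c x 1 + TY c x 2 = 0)
    (h1 : IsCoprime (∏ v, (x 1 v).1) (∏ v, (x 2 v).1))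
    (h2 : ∀ i, Squarefree (∏ v, (x i v).1)) : Squarefree (TY c x 0 * TY c x 1 * TY c x 2) := by
  have h3 : IsCoprime (TY c x 1) (TY c x 2) := (cc_cop hc x 1 2).2 h1
  have e0 : TY c x 0 = -(TY c x 1 + TY c x 2) := by linear_combination h0
  have h4 : IsCoprime (TY c x 0) (TY c x 1) := by
    rw [e0]
    refine IsCoprime.neg_left ?_
    obtain ⟨a, b, hab⟩ := h3
    exact ⟨b, a - b, by linear_combination hab⟩
  have h5 : IsCoprime (TY c x 0) (TY c x 2) := by
    rw [e0]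
    refine IsCoprime.neg_left ?_
    obtain ⟨a, b, hab⟩ := h3
    exact ⟨a, b - a, by linear_combination hab⟩
  rw [cc_sqf_mul, cc_sqf_mul]
  exact ⟨h5.mul_left h3, ⟨h4, (cc_sqf hc x 0).2 (h2 0), (cc_sqf hc x 1).2 (h2 1)⟩,
    (cc_sqf hc x 2).2 (h2 2)⟩

theorem cc_iff {e : ℕ} {c : Fin 3 → F} (hc : ∀ i, c i ≠ 0) {π : Fin 3 → Pfl k}
    {x : Fin 3 → V k → Mn F d} :
    (TY c x ∈ Fam F d e ∧ Typ d (TY c x) ∧ ∀ i, IsPfl d e (thr d) (π i) fun v => (x i v).1) ↔
      TY c x 0 + TY c x 1 + TY c x 2 = 0 ∧ IsCoprime (∏ v, (x 1 v).1) (∏ v, (x 2 v).1) ∧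
        ∀ i, CC e (π i) (x i) := by
  have hom : ∀ i, om (TY c x i) = om (∏ v, (x i v).1) := fun i => by rw [om, om, cc_om hc]
  have homt : ∀ i, omt (thr d) (TY c x i) = omt (thr d) (∏ v, (x i v).1) := fun i => by
    rw [omt, omt, cc_om hc]
  constructor
  · rintro ⟨h1, h2, h3⟩
    obtain ⟨⟨hs, hd, hq⟩, h4⟩ := mem_Fam.1 h1
    rw [cc_sqf_mul, cc_sqf_mul] at hq
    obtain ⟨h5, ⟨h6, h7, h8⟩, h9⟩ := hq
    refine ⟨hs, (cc_cop hc x 1 2).1 h5.of_mul_left_right, fun i => ⟨?_, ?_, ?_, h3 i⟩⟩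
    · rw [← cc_deg hc]
      exact hd i
    · rw [← cc_sqf hc]
      fin_cases i
      · exact h7
      · exact h8
      · exact h9
    · rw [← hom, ← homt]
      exact h2 i
  · rintro ⟨h1, h2, h3⟩
    refine ⟨mem_Fam.2 ⟨⟨h1, fun i => ?_, sqf_TY hc h1 h2 fun i => (h3 i).sqf⟩, fun i => ?_⟩,
      fun i => ?_, fun i => (h3 i).pfl⟩
    · rw [cc_deg hc]
      exact (h3 i).deg
    · obtain ⟨P, hP, hPd⟩ := (h3 i).pfl.lrg
      refine ⟨P, ?_, hPd⟩
      obtain ⟨g1, g2, g3⟩ := mem_pf' hP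
      rw [cc_om hc, mem_pf (ccD_monic (x i)).ne_zero]
      exact ⟨g1, g2, g3.trans (Finset.dvd_prod_of_mem (fun v => (x i v).1) (Finset.mem_univ _))⟩
    · rw [hom, homt]
      exact (h3 i).typ

theorem wgt_eq {c : Fin 3 → F} (hc : ∀ i, c i ≠ 0) (th : ZMod 2) (x : Fin 3 → V k → Mn F d) :
    wgt th c x = w1 th (x 0) * w1 th (x 1) * w1 th (x 2) * sg (ph th c x) := by
  have hom : ∀ i, om (TY c x i) = om (∏ v, (x i v).1) := fun i => by rw [om, om, cc_om hc]
  unfold wgt w1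
  rw [Fin.prod_univ_three, Fin.sum_univ_three, hom, hom, hom]
  push_cast
  rw [mul_add, mul_add, sg_add, sg_add]
  ring

theorem cs_zero {e : ℕ} {c : Fin 3 → F} (hc : ¬ ∀ i, c i ≠ 0) (th : ZMod 2) (d : ℕ)
    (π : Fin 3 → Pfl k) : CS th d e c π = 0 := by
  push Not at hc
  obtain ⟨i, hi⟩ := hc
  unfold CS
  refine Finset.sum_eq_zero fun x _ => if_neg ?_
  rintro ⟨h1, -, -⟩
  have h2 := (mem_Fam.1 h1).1.sqf
  have h3 : TY c x i = 0 := by rw [TY, hi, C_0, zero_mul]
  have h4 : TY c x 0 * TY c x 1 * TY c x 2 = 0 := by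
    fin_cases i
    · rw [show TY c x 0 = 0 from h3, zero_mul, zero_mul]
    · rw [show TY c x 1 = 0 from h3, mul_zero, zero_mul]
    · rw [show TY c x 2 = 0 from h3, mul_zero]
  rw [h4] at h2
  exact not_squarefree_zero h2

theorem lrg_unique {e : ℕ} (he : 2 * e < d) {D : F[X]} (hD : D.Monic) (hd : D.natDegree = d)
    {P P' : F[X]} (hP : P ∈ pf D) (hP' : P' ∈ pf D) (h : d ≤ P.natDegree + e)
    (h' : d ≤ P'.natDegree + e) : P = P' := by
  by_contra hne
  obtain ⟨a1, a2, a3⟩ := mem_pf' hP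
  obtain ⟨b1, b2, b3⟩ := mem_pf' hP'
  have h1 : IsCoprime P P' := isCoprime_irr a1 a2 b1 b2 hne
  have h2 := natDegree_le_of_dvd (h1.mul_dvd a3 b3) hD.ne_zero
  rw [a1.natDegree_mul b1, hd] at h2
  omega

end

end Pool.Agent.H94.PS
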