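import Pool.Agent.H94.PS.Defs

set_option autoImplicit false

/-!
# [H94 PS ROT] Rotation of the three classes

* `rot`: the bijection `x ↦ fun i => x (i + 1)` of the labelled triples (`Equiv.arrowCongr`, `Equiv.addRight`): `TY c' x' i = TY c x (i + 1)`; `Fam` and `Typ` are invariant (`Tr`: the sum and the product in another order, `Fin.sum_univ_three`), `∀ i, IsPfl .. (π' i) (x' i)` likewise, `wgt`: reindex the sums and the products over `i`, `j` by `i ↦ i + 1` (`Equiv.sum_comp`), `i = j ↔ i + 1 = j + 1`.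
-/

namespace Pool.Agent.H94.PS

open Polynomial
open Pool.Agent.H94.PC
open Pool.Agent.H94.PN (dotp)
open Pool.Agent.H74.SL (V q w L NotKilled)

section
variable {F : Type} [Field F] [Finite F] {k d : ℕ}

private theorem rot_TY (c : Fin 3 → F) (x : Fin 3 → V k → Mn F d) (i : Fin 3) :
    TY (fun i => c (i + 1)) (fun i => x (i + 1)) i = TY c x (i + 1) := rfl

private theorem rot_sum {M : Type} [AddCommMonoid M] (f : Fin 3 → M) :
    ∑ i, f (i + 1) = ∑ i, f i :=
  Equiv.sum_comp (Equiv.addRight (1 : Fin 3)) f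

private theorem rot_prod {M : Type} [CommMonoid M] (f : Fin 3 → M) :
    ∏ i, f (i + 1) = ∏ i, f i :=
  Equiv.prod_comp (Equiv.addRight (1 : Fin 3)) f

private theorem rot_forall {P : Fin 3 → Prop} : (∀ i, P (i + 1)) ↔ ∀ i, P i := by
  constructor
  · intro h i
    have h1 := h (i - 1)
    rwa [sub_add_cancel] at h1
  · intro h i
    exact h _

private theorem rot_Tr (Y : Fin 3 → F[X]) : Tr d (fun i => Y (i + 1)) ↔ Tr d Y := by
  have hs : (Y (0 + 1) + Y (1 + 1) + Y (2 + 1) = 0) ↔ (Y 0 + Y 1 + Y 2 = 0) := by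
    have h := rot_sum Y
    rw [Fin.sum_univ_three, Fin.sum_univ_three] at h
    rw [h]
  have hp : (Squarefree (Y (0 + 1) * Y (1 + 1) * Y (2 + 1))) ↔ Squarefree (Y 0 * Y 1 * Y 2) := by
    have h := rot_prod Y
    rw [Fin.prod_univ_three, Fin.prod_univ_three] at h
    rw [h]
  constructor
  · intro h
    exact ⟨hs.1 h.sum, rot_forall.1 h.deg, hp.1 h.sqf⟩
  · intro h
    exact ⟨hs.2 h.sum, fun i => h.deg (i + 1), hp.2 h.sqf⟩

private theorem rot_Fam {e : ℕ} (Y : Fin 3 → F[X]) :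
    (fun i => Y (i + 1)) ∈ Fam F d e ↔ Y ∈ Fam F d e := by
  rw [mem_Fam, mem_Fam]
  unfold Fm
  rw [rot_Tr]
  exact and_congr_right fun _ =>
    rot_forall (P := fun i => ∃ P ∈ pf (Y i), d ≤ P.natDegree + e)

private theorem rot_Typ (Y : Fin 3 → F[X]) : Typ d (fun i => Y (i + 1)) ↔ Typ d Y :=
  rot_forall (P := fun i => |(om (Y i) : ℝ) - Real.log d| ≤ Real.log d ^ (3 / 4 : ℝ) ∧
    (omt (thr d) (Y i) : ℝ) ≤ Real.log d ^ (3 / 4 : ℝ))

private theorem rot_ph (th : ZMod 2) (c : Fin 3 → F) (x : Fin 3 → V k → Mn F d) :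
    ph th (fun i => c (i + 1)) (fun i => x (i + 1)) = ph th c x := by
  unfold ph
  rw [← rot_sum (fun i => ∑ v, (∑ j, ∑ v', (if i = j then 0 else
    (dotp v'.1 v.2 + th) * lam (x j v').1 (x i v).1) +
      (q v + th) * lam (TY c x (i + 1)) (x i v).1))]
  refine Finset.sum_congr rfl fun i _ => Finset.sum_congr rfl fun v _ => ?_
  rw [rot_TY]
  congr 1
  rw [← rot_sum (fun j => ∑ v', (if i + 1 = j then 0 else
    (dotp v'.1 v.2 + th) * lam (x j v').1 (x (i + 1) v).1))]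
  refine Finset.sum_congr rfl fun j _ => Finset.sum_congr rfl fun v' _ => ?_
  by_cases hij : i = j
  · rw [if_pos hij, if_pos (by rw [hij])]
  · rw [if_neg hij, if_neg (fun h => hij (add_right_cancel h))]

private theorem rot_wgt (th : ZMod 2) (c : Fin 3 → F) (x : Fin 3 → V k → Mn F d) :
    wgt th (fun i => c (i + 1)) (fun i => x (i + 1)) = wgt th c x := by
  unfold wgt
  rw [rot_ph]
  have h1 : ∏ i, ((1 / 2 : ℝ) ^ k) ^ om (TY (fun i => c (i + 1)) (fun i => x (i + 1)) i) =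
      ∏ i, ((1 / 2 : ℝ) ^ k) ^ om (TY c x i) :=
    rot_prod (fun i => ((1 / 2 : ℝ) ^ k) ^ om (TY c x i))
  have h2 : ∑ i, om (TY (fun i => c (i + 1)) (fun i => x (i + 1)) i) = ∑ i, om (TY c x i) :=
    rot_sum (fun i => om (TY c x i))
  rw [h1, h2]

theorem rot {k : ℕ} (th : ZMod 2) (d e : ℕ) (c : Fin 3 → F) (π : Fin 3 → Pfl k) :
    CS th d e (fun i => c (i + 1)) (fun i => π (i + 1)) = CS th d e c π := by
  classical
  unfold CS
  let E : (Fin 3 → V k → Mn F d) ≃ (Fin 3 → V k → Mn F d) :=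
    Equiv.arrowCongr (Equiv.addRight (1 : Fin 3)).symm (Equiv.refl _)
  have hE : ∀ x, E x = fun i => x (i + 1) := fun x => rfl
  rw [← Equiv.sum_comp E]
  refine Finset.sum_congr rfl fun x _ => ?_
  rw [hE, rot_wgt]
  have h1 : (TY (fun i => c (i + 1)) (fun i => x (i + 1)) ∈ Fam F d e ∧
      Typ d (TY (fun i => c (i + 1)) (fun i => x (i + 1))) ∧
        ∀ i, IsPfl d e (thr d) (π (i + 1)) fun v => (x (i + 1) v).1) ↔
      (TY c x ∈ Fam F d e ∧ Typ d (TY c x) ∧
        ∀ i, IsPfl d e (thr d) (π i) fun v => (x i v).1) := by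
    have h2 : TY (fun i => c (i + 1)) (fun i => x (i + 1)) = fun i => TY c x (i + 1) := rfl
    rw [h2, rot_Fam, rot_Typ]
    exact and_congr_right fun _ => and_congr_right fun _ =>
      rot_forall (P := fun i => IsPfl d e (thr d) (π i) fun v => (x i v).1)
  by_cases h : TY c x ∈ Fam F d e ∧ Typ d (TY c x) ∧
      ∀ i, IsPfl d e (thr d) (π i) fun v => (x i v).1
  · rw [if_pos h, if_pos (h1.2 h)]
  · rw [if_neg h, if_neg (fun h3 => h (h1.1 h3))]

end

end Pool.Agent.H94.PS
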