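import Pool.Agent.H94.PS.BdT
import Pool.Agent.H94.PS.BdT2
import Pool.Agent.H94.PS.Rot
import Pool.Agent.H94.PS.Cc

set_option autoImplicit false

/-!
# [H94 PS KIL] The killed classes

* `killed`: if some `c i = 0`: `cs_zero`.  `Lkd`: one of the six conditions of `NotKilled` fails; `L ≠ 0` means `L = 1`.  (a): `bd_T`.  (b): `v ∈ (π 1).U`, `L i0 v k0 = 1`: `bd_T` for the rotated classes `π' i = π (i + 1)`: `u = v ∈ (π' 0).U`, `L v k0 i0 = L i0 v k0` (`L` is symmetric: `unfold L`, commutativity of the addition).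
  (c): rotate twice.  (ab): `u ∈ (π 0).U`, `v ∈ (π 1).U`, `L u v k0 = 1`: if `L u j0 k0 = 1` use `bd_T`, else `bd_T2` with `v1 = v`.  (bc): `v ∈ (π 1).U`, `t ∈ (π 2).U`, `L i0 v t = 1`: the rotated classes with `u = v`, `v1 = t`, `(π' 2).v = i0`.  (ac): rotate twice: `π' 0 = π 2`, `π' 1 = π 0`, `π' 2 = π 1`: `u = t`, `v1 = u`, `L t u j0 = 1`.
  `K` = the sum of the constants.
-/

namespace Pool.Agent.H94.PS

open Polynomial
open Pool.Agent.H94.PC
open Pool.Agent.H94.PN (dotp)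
open Pool.Agent.H74.SL (V q w L NotKilled)

section
variable {F : Type} [Field F] [Finite F] {k d : ℕ}

private theorem kil_cy (th : ZMod 2) (a b c : V k) : L th a b c = L th b c a := by
  unfold L
  rw [show a + b + c = b + c + a by abel]

private theorem kil_two : ∀ a : ZMod 2, a ≠ 0 → a = 1 := by decide

theorem killed (h2 : (2 : F) ≠ 0) (k : ℕ) (th : ZMod 2) : ∃ K : ℕ,
    ∀ (c : Fin 3 → F) (π : Fin 3 → Pfl k), Lkd th π → ∀ d e : ℕ, 10 * e ≤ d → 2 ≤ d →
      |CS th d e c π| ≤ K * ((d : ℝ) + 1) ^ K * (Nat.card F : ℝ) ^ (2 * d) *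
        (Nat.card F : ℝ) ^ (-(thr d : ℝ) / 16) := by
  obtain ⟨K1, hK1⟩ := bd_T h2 k th
  obtain ⟨K2, hK2⟩ := bd_T2 h2 k th
  refine ⟨K1 + K2, ?_⟩
  intro c π hL d e he hd
  have hQ1 : 0 ≤ (Nat.card F : ℝ) ^ (2 * d) := by positivity
  have hQ2 : 0 ≤ (Nat.card F : ℝ) ^ (-(thr d : ℝ) / 16) := by positivity
  have hm : ∀ K : ℕ, K ≤ K1 + K2 → (K : ℝ) * ((d : ℝ) + 1) ^ K * (Nat.card F : ℝ) ^ (2 * d) *
        (Nat.card F : ℝ) ^ (-(thr d : ℝ) / 16) ≤
      ((K1 + K2 : ℕ) : ℝ) * ((d : ℝ) + 1) ^ (K1 + K2) * (Nat.card F : ℝ) ^ (2 * d) *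
        (Nat.card F : ℝ) ^ (-(thr d : ℝ) / 16) := by
    intro K hK
    apply mul_le_mul_of_nonneg_right _ hQ2
    apply mul_le_mul_of_nonneg_right _ hQ1
    apply mul_le_mul (by exact_mod_cast hK) _ (by positivity) (by positivity)
    apply pow_le_pow_right₀ _ hK
    have : (0 : ℝ) ≤ d := Nat.cast_nonneg d
    linarith
  by_cases hc : ∀ i, c i ≠ 0
  swap
  · rw [cs_zero hc th d π, abs_zero]
    positivity
  have r1 : CS th d e (fun i => c (i + 1)) (fun i => π (i + 1)) = CS th d e c π := rot th d e c π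
  have r2 : CS th d e (fun i => c (i + 1 + 1)) (fun i => π (i + 1 + 1)) = CS th d e c π :=
    (rot th d e (fun i => c (i + 1)) (fun i => π (i + 1))).trans r1
  by_contra hcon
  have hcon1 : ¬ |CS th d e c π| ≤ (K1 : ℝ) * ((d : ℝ) + 1) ^ K1 * (Nat.card F : ℝ) ^ (2 * d) *
        (Nat.card F : ℝ) ^ (-(thr d : ℝ) / 16) := fun h => hcon (h.trans (hm K1 (by omega)))
  have hcon2 : ¬ |CS th d e c π| ≤ (K2 : ℝ) * ((d : ℝ) + 1) ^ K2 * (Nat.card F : ℝ) ^ (2 * d) *
        (Nat.card F : ℝ) ^ (-(thr d : ℝ) / 16) := fun h => hcon (h.trans (hm K2 (by omega)))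
  have hA : ∀ u ∈ (π 0).U, L th u (π 1).v (π 2).v = 0 := by
    intro u hu
    by_contra h
    exact hcon1 (hK1 c hc π u hu (kil_two _ h) d e he hd)
  have hB : ∀ v ∈ (π 1).U, L th (π 0).v v (π 2).v = 0 := by
    intro v hv
    by_contra h
    have h1 := hK1 (fun i => c (i + 1)) (fun i => hc _) (fun i => π (i + 1)) v hv
      (by
        show L th v (π 2).v (π 0).v = 1
        rw [← kil_cy]
        exact kil_two _ h) d e he hd
    rw [r1] at h1
    exact hcon1 h1
  have hC : ∀ t ∈ (π 2).U, L th (π 0).v (π 1).v t = 0 := by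
    intro t ht
    by_contra h
    have h1 := hK1 (fun i => c (i + 1 + 1)) (fun i => hc _) (fun i => π (i + 1 + 1)) t ht
      (by
        show L th t (π 0).v (π 1).v = 1
        rw [kil_cy]
        exact kil_two _ h) d e he hd
    rw [r2] at h1
    exact hcon1 h1
  apply hL
  refine ⟨hA, hB, hC, ?_, ?_, ?_⟩
  · intro u hu v hv
    by_contra h
    exact hcon2 (hK2 c hc π u v hu hv (hA u hu) (kil_two _ h) d e he hd)
  · intro u hu t ht
    by_contra h
    have h1 := hK2 (fun i => c (i + 1 + 1)) (fun i => hc _) (fun i => π (i + 1 + 1)) t u ht hu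
      (by
        show L th t (π 0).v (π 1).v = 0
        rw [kil_cy]
        exact hC t ht)
      (by
        show L th t u (π 1).v = 1
        rw [kil_cy]
        exact kil_two _ h) d e he hd
    rw [r2] at h1
    exact hcon2 h1
  · intro v hv t ht
    by_contra h
    have h1 := hK2 (fun i => c (i + 1)) (fun i => hc _) (fun i => π (i + 1)) v t hv ht
      (by
        show L th v (π 2).v (π 0).v = 0
        rw [← kil_cy]
        exact hB v hv)
      (by
        show L th v t (π 0).v = 1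
        rw [← kil_cy]
        exact kil_two _ h) d e he hd
    rw [r1] at h1
    exact hcon2 h1

end

end Pool.Agent.H94.PS
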