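import Pool.Agent.H94.PC.Tup
import Pool.Agent.H94.PC.JsB
import Pool.Agent.H74.SL.Cls

set_option autoImplicit false

/-!
# [H94 PS] The 2-Selmer groups of `y² = x (x - A) (x - B)` for a positive share of all pairs: definitions

`F` is a finite field of odd characteristic, `Y 0 + Y 1 + Y 2 = 0` (`Y = (A, -B, B - A)`), all of degree
`d` (odd), with squarefree product.  `pf`, `om`, `Mn`, `Mo`, `Sq`, `Pr`, `lam`, `js`, `sg` are those of `H94.PC`,
`V k`, `q`, `w`, `L`, `NotKilled` those of `H74.SL`.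

* `SX Y`: the primes; `mx Y p r = (r / p)` (additive) for `p`, `r` in different classes, `mx Y p p = (Y (i + 1) / p)` for `p ∣ Y i`.
* `WX Y`: vectors whose three degree parities are equal; `RadX Y`: `x ∈ WX Y` with `∑ r, mx Y p r * x r = 0` for all `p`.
  The 2-Selmer group modulo `E[2]` is `RadX Y`.
* `Fam F d e`: all `Y` such that each `Y i` has a prime factor of degree `≥ d - e`.
-/

namespace Pool.Agent.H94.PS

open Polynomial
open Pool.Agent.H94.PC
open Pool.Agent.H94.PN (dotp)
open Pool.Agent.H74.SL (V q w L NotKilled)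

section
variable {F : Type} [Field F] [Finite F]

/-- three polynomials of degree `d` with sum zero and squarefree product -/
structure Tr (d : ℕ) (Y : Fin 3 → F[X]) : Prop where
  sum : Y 0 + Y 1 + Y 2 = 0
  deg : ∀ i, (Y i).natDegree = d
  sqf : Squarefree (Y 0 * Y 1 * Y 2)

/-- the primes dividing one of the three polynomials -/
abbrev SX (Y : Fin 3 → F[X]) : Type := (i : Fin 3) × {P // P ∈ pf (Y i)}

/-- parity of the degree of the divisor of `Y i` selected by `x` -/
noncomputable def dgp (Y : Fin 3 → F[X]) (x : SX Y → ZMod 2) (i : Fin 3) : ZMod 2 :=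
  ∑ P : {P // P ∈ pf (Y i)}, x ⟨i, P⟩ * (P.1.natDegree : ZMod 2)

/-- the vectors with three equal degree parities -/
noncomputable def WX (Y : Fin 3 → F[X]) : Submodule (ZMod 2) (SX Y → ZMod 2) where
  carrier := {x | ∀ i, dgp Y x i = dgp Y x 0}
  zero_mem' := by
    intro i
    simp [dgp]
  add_mem' := by
    intro x y hx hy i
    have h : ∀ i, dgp Y (x + y) i = dgp Y x i + dgp Y y i := by
      intro i
      unfold dgp
      rw [← Finset.sum_add_distrib]
      exact Finset.sum_congr rfl fun P _ => by rw [Pi.add_apply, add_mul]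
    show dgp Y (x + y) i = dgp Y (x + y) 0
    rw [h, h, hx i, hy i]
  smul_mem' := by
    intro c x hx i
    have h : ∀ i, dgp Y (c • x) i = c * dgp Y x i := by
      intro i
      unfold dgp
      rw [Finset.mul_sum]
      exact Finset.sum_congr rfl fun P _ => by rw [Pi.smul_apply, smul_eq_mul, mul_assoc]
    show dgp Y (c • x) i = dgp Y (c • x) 0
    rw [h, h, hx i]

open Classical in
/-- the matrix of the local conditions -/
noncomputable def mx (Y : Fin 3 → F[X]) (p r : SX Y) : ZMod 2 :=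
  if p = r then lam (Y (p.1 + 1)) p.2.1 else if p.1 = r.1 then 0 else lam r.2.1 p.2.1

/-- the form of the matrix -/
noncomputable def bf (Y : Fin 3 → F[X]) (x y : SX Y → ZMod 2) : ZMod 2 :=
  ∑ p, y p * ∑ r, mx Y p r * x r

/-- the Selmer group modulo `E[2]` -/
noncomputable def RadX (Y : Fin 3 → F[X]) : Submodule (ZMod 2) (SX Y → ZMod 2) where
  carrier := {x | x ∈ WX Y ∧ ∀ p, ∑ r, mx Y p r * x r = 0}
  zero_mem' := ⟨Submodule.zero_mem _, fun p => by simp⟩
  add_mem' := by
    rintro x y ⟨h1, h2⟩ ⟨h3, h4⟩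
    refine ⟨Submodule.add_mem _ h1 h3, fun p => ?_⟩
    have e : ∑ r, mx Y p r * (x + y) r = ∑ r, mx Y p r * x r + ∑ r, mx Y p r * y r := by
      rw [← Finset.sum_add_distrib]
      exact Finset.sum_congr rfl fun r _ => by rw [Pi.add_apply, mul_add]
    rw [e, h2 p, h4 p, add_zero]
  smul_mem' := by
    rintro c x ⟨h1, h2⟩
    refine ⟨Submodule.smul_mem _ c h1, fun p => ?_⟩
    have e : ∑ r, mx Y p r * (c • x) r = c * ∑ r, mx Y p r * x r := by
      rw [Finset.mul_sum]
      exact Finset.sum_congr rfl fun r _ => by rw [Pi.smul_apply, smul_eq_mul]; ring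
    rw [e, h2 p, mul_zero]

/-- the dimension of the Selmer group modulo `E[2]` -/
noncomputable def rkY (Y : Fin 3 → F[X]) : ℕ := Module.finrank (ZMod 2) (RadX Y)

/-- each `Y i` has a prime factor of degree at least `d - e` -/
def Fm (d e : ℕ) (Y : Fin 3 → F[X]) : Prop :=
  Tr d Y ∧ ∀ i, ∃ P ∈ pf (Y i), d ≤ P.natDegree + e

theorem finite_Fm (d e : ℕ) : {Y : Fin 3 → F[X] | Fm d e Y}.Finite := by
  have h : (Set.univ.pi fun _ : Fin 3 => {f : F[X] | f.natDegree ≤ d}).Finite :=
    Set.Finite.pi' (fun _ => finite_natDegree_le F d) |>.subset fun Y hY i => hY i (Set.mem_univ i)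
  exact h.subset fun Y hY i _ => (hY.1.deg i).le

variable (F) in
/-- the family -/
noncomputable def Fam (d e : ℕ) : Finset (Fin 3 → F[X]) := (finite_Fm (F := F) d e).toFinset

theorem mem_Fam {d e : ℕ} {Y : Fin 3 → F[X]} : Y ∈ Fam F d e ↔ Fm d e Y := by
  rw [Fam, Set.Finite.mem_toFinset]; rfl

/-- the bound for the degrees of the tiny primes -/
noncomputable def thr (d : ℕ) : ℕ := ⌈Real.log d ^ 2⌉₊

/-- the number of the prime factors of degree less than `y` -/
noncomputable def omt (y : ℕ) (D : F[X]) : ℕ := ((pf D).filter fun P => P.natDegree < y).card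

/-- typical numbers of prime factors -/
def Typ (d : ℕ) (Y : Fin 3 → F[X]) : Prop :=
  ∀ i, |(om (Y i) : ℝ) - Real.log d| ≤ Real.log d ^ (3 / 4 : ℝ) ∧
    (omt (thr d) (Y i) : ℝ) ≤ Real.log d ^ (3 / 4 : ℝ)

/-! ## Labelled polynomials -/

/-- the polynomials with leading coefficients `c` and labelled parts `x` -/
noncomputable def TY {k d : ℕ} (c : Fin 3 → F) (x : Fin 3 → V k → Mn F d) (i : Fin 3) : F[X] :=
  C (c i) * ∏ v, (x i v).1

/-- the exponent of the sign of a labelled triple; `th = 0` for the moments, `th = 1` for the moments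
weighted with the parity -/
noncomputable def ph {k d : ℕ} (th : ZMod 2) (c : Fin 3 → F) (x : Fin 3 → V k → Mn F d) : ZMod 2 :=
  ∑ i, ∑ v, (∑ j, ∑ v', (if i = j then 0 else
    (dotp v'.1 v.2 + th) * lam (x j v').1 (x i v).1) +
      (q v + th) * lam (TY c x (i + 1)) (x i v).1)

/-- profiles: the labels of the medium primes, the label of the large prime, the parities of the
degrees of the parts -/
structure Pfl (k : ℕ) where
  /-- the labels of the medium primes -/
  U : Finset (V k)
  /-- the label of the large prime -/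
  v : V k
  /-- the parities of the degrees -/
  dl : V k → ZMod 2

/-- `x` has the profile `π` -/
structure IsPfl {k : ℕ} (d e y : ℕ) (π : Pfl k) (x : V k → F[X]) : Prop where
  med : ∀ v, v ∈ π.U ↔ ∃ P ∈ pf (x v), y ≤ P.natDegree ∧ P.natDegree + e < d
  lrg : ∃ P ∈ pf (x π.v), d ≤ P.natDegree + e
  dl : ∀ v, ((x v).natDegree : ZMod 2) = π.dl v

/-- the summand of the class sum -/
noncomputable def wgt {k d : ℕ} (th : ZMod 2) (c : Fin 3 → F) (x : Fin 3 → V k → Mn F d) : ℝ :=
  (∏ i, ((1 / 2 : ℝ) ^ k) ^ om (TY c x i)) * sg (th * ((∑ i, om (TY c x i) : ℕ) : ZMod 2)) *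
    sg (ph th c x)

open Classical in
/-- the class sum -/
noncomputable def CS {k : ℕ} (th : ZMod 2) (d e : ℕ) (c : Fin 3 → F) (π : Fin 3 → Pfl k) : ℝ :=
  ∑ x : Fin 3 → V k → Mn F d,
    if TY c x ∈ Fam F d e ∧ Typ d (TY c x) ∧ ∀ i, IsPfl d e (thr d) (π i) fun v => (x i v).1 then
      wgt th c x else 0

/-- the classes which are killed by the lemmas T and T2 -/
def Lkd {k : ℕ} (th : ZMod 2) (π : Fin 3 → Pfl k) : Prop :=
  ¬ NotKilled th (π 0).v (π 1).v (π 2).v (π 0).U (π 1).U (π 2).U

end

end Pool.Agent.H94.PS
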