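import Pool.Agent.H94.PS.LawG
import Pool.Agent.H94.PS.Defs
import Pool.Agent.H94.PN.ALL2

set_option autoImplicit false

/-!
# [H94 PS ASM] The law of `rkY` on the family, from the moments, the typical set and the density
-/

namespace Pool.Agent.H94.PS

open Polynomial
open Pool.Agent.H94.PC
open Pool.Agent.H94.PN (Lk wt Sm wt2_eul sm_pos wt_pos)

section
variable {F : Type} [Field F] [Finite F]

open Classical in
/-- the moments of the rank (`th = 0`) and the moments with signs (`th = 1`) -/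
noncomputable def Emo (F : Type) [Field F] [Finite F] (th : ZMod 2) (k d e : ℕ) : ℝ :=
  ∑ Y ∈ (Fam F d e).filter fun Y => Typ d Y,
    ((2 : ℝ) ^ k) ^ rkY Y * sg (th * (rkY Y : ZMod 2))

theorem card_lt (n : ℕ) : (Lt F n).card = Nat.card F ^ n := card_Lt n

/-- the number of elements of the family -/
theorem card_Fam_le (d e : ℕ) : ((Fam F d e).card : ℝ) ≤ (Nat.card F : ℝ) ^ (2 * (d + 1)) := by
  classical
  have h : (Fam F d e).card ≤ (Lt F (d + 1) ×ˢ Lt F (d + 1)).card := by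
    refine Finset.card_le_card_of_injOn (fun Y => (Y 0, Y 1)) ?_ ?_
    · intro Y hY
      have h1 := (mem_Fam.1 (Finset.mem_coe.1 hY)).1.deg
      rw [Finset.mem_coe, Finset.mem_product]
      constructor
      · rw [mem_Lt]
        refine lt_of_le_of_lt degree_le_natDegree ?_
        rw [h1 0]
        exact_mod_cast Nat.lt_succ_self d
      · rw [mem_Lt]
        refine lt_of_le_of_lt degree_le_natDegree ?_
        rw [h1 1]
        exact_mod_cast Nat.lt_succ_self d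
    · intro Y hY Y' hY' hYY
      have h1 := (mem_Fam.1 (Finset.mem_coe.1 hY)).1.sum
      have h2 := (mem_Fam.1 (Finset.mem_coe.1 hY')).1.sum
      simp only [Prod.mk.injEq] at hYY
      funext i
      fin_cases i
      · exact hYY.1
      · exact hYY.2
      · show Y 2 = Y' 2
        rw [← hYY.1, ← hYY.2] at h2
        exact add_left_cancel (h1.trans h2.symm)
  rw [Finset.card_product, card_lt] at h
  calc ((Fam F d e).card : ℝ) ≤ ((Nat.card F ^ (d + 1) * Nat.card F ^ (d + 1) : ℕ) : ℝ) := by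
        exact_mod_cast h
    _ = (Nat.card F : ℝ) ^ (2 * (d + 1)) := by
        push_cast
        rw [← pow_add]
        congr 1
        ring

open Classical in
/-- the law of the rank on the family, from the moments (`hm0`, `hm1`), the typical set (`ht`) and the
density (`hd`) -/
theorem asm (ε : ℝ) (h1 : ε ≤ 1 / 10)
    (hm0 : ∀ (k : ℕ) (δ : ℝ), 0 < δ → ∃ D : ℕ, ∀ d : ℕ, D ≤ d → Odd d → ∀ e : ℕ, 10 * e ≤ d →
      |Emo F 0 k d e - (Lk 2 k : ℝ) * (((Fam F d e).filter fun Y => Typ d Y).card : ℝ)| ≤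
        δ * (Nat.card F : ℝ) ^ (2 * d))
    (hm1 : ∀ (k : ℕ) (δ : ℝ), 0 < δ → ∃ D : ℕ, ∀ d : ℕ, D ≤ d → Odd d → ∀ e : ℕ, 10 * e ≤ d →
      |Emo F 1 k d e| ≤ δ * (Nat.card F : ℝ) ^ (2 * d))
    (ht : ∀ δ : ℝ, 0 < δ → ∃ D : ℕ, ∀ d : ℕ, D ≤ d → ∀ e : ℕ, 10 * e ≤ d →
      (((Fam F d e).filter fun Y => ¬ Typ d Y).card : ℝ) ≤ δ * (Nat.card F : ℝ) ^ (2 * d))
    (hd : ∃ c₀ : ℝ, 0 < c₀ ∧ ∃ D : ℕ, ∀ d : ℕ, D ≤ d →
      c₀ * (Nat.card F : ℝ) ^ (2 * d) ≤ ((Fam F d ⌊ε * d⌋₊).card : ℝ))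
    (r : ℕ) (δ : ℝ) (hδ : 0 < δ) : ∃ N : ℕ, ∀ n : ℕ, N ≤ n →
      |(((Fam F (2 * n + 1) ⌊ε * ((2 * n + 1 : ℕ) : ℝ)⌋₊).filter fun Y => rkY Y = r).card : ℝ) -
        (∏' i : ℕ, (1 + 1 / (2 : ℝ) ^ i))⁻¹ *
          (∏ i ∈ Finset.range r, (2 / ((2 : ℝ) ^ (i + 1) - 1))) *
          ((Fam F (2 * n + 1) ⌊ε * ((2 * n + 1 : ℕ) : ℝ)⌋₊).card : ℝ)| ≤
        δ * ((Fam F (2 * n + 1) ⌊ε * ((2 * n + 1 : ℕ) : ℝ)⌋₊).card : ℝ) := by
  have hq0 : (0 : ℝ) < Nat.card F := by exact_mod_cast (Nat.card_pos : 0 < Nat.card F)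
  obtain ⟨c₀, hc₀, D₀, hD₀⟩ := hd
  have he10 : ∀ d : ℕ, 10 * ⌊ε * (d : ℝ)⌋₊ ≤ d := by
    intro d
    have h2 : ⌊ε * (d : ℝ)⌋₊ ≤ d / 10 := by
      rw [Nat.le_div_iff_mul_le (by norm_num)]
      have h3 : (⌊ε * (d : ℝ)⌋₊ : ℝ) ≤ d / 10 := by
        by_cases h0 : 0 ≤ ε
        · refine (Nat.floor_le (by positivity)).trans ?_
          have : ε * (d : ℝ) ≤ 1 / 10 * d :=
            mul_le_mul_of_nonneg_right h1 (Nat.cast_nonneg d)
          linarith
        · have h4 : ε * (d : ℝ) ≤ 0 :=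
            mul_nonpos_of_nonpos_of_nonneg (not_le.1 h0).le (Nat.cast_nonneg d)
          rw [Nat.floor_of_nonpos h4, Nat.cast_zero]
          positivity
      have h5 : ((⌊ε * (d : ℝ)⌋₊ * 10 : ℕ) : ℝ) ≤ (d : ℝ) := by
        push_cast
        linarith
      exact_mod_cast h5
    omega
  set a : ℝ := wt 2 2 r / Sm 2 2 0 with ha
  have hS : 0 < Sm 2 2 0 := sm_pos (by norm_num) (by norm_num) 0
  have hwr : 0 < wt 2 2 r := wt_pos (by norm_num) (by norm_num) r
  have ha0 : 0 < a := div_pos hwr hS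
  rw [← wt2_eul r]
  -- the sequences
  set dd : ℕ → ℕ := fun n => 2 * n + 1 with hdd
  set ee : ℕ → ℕ := fun n => ⌊ε * ((2 * n + 1 : ℕ) : ℝ)⌋₊ with hee
  set Z : ℕ → Finset (Fin 3 → F[X]) := fun n => (Fam F (dd n) (ee n)).filter fun Y =>
    Typ (dd n) Y with hZ
  set E : ℕ → ℝ := fun n => (Nat.card F : ℝ) ^ (2 * (dd n + 1)) with hE
  have hEd : ∀ n, (Nat.card F : ℝ) ^ (2 * dd n) ≤ E n := fun n => by
    have h2 : (1 : ℝ) ≤ Nat.card F := by
      exact_mod_cast (Nat.card_pos : 0 < Nat.card F)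
    exact pow_le_pow_right₀ h2 (by omega)
  have hE2 : ∀ n, E n = (Nat.card F : ℝ) ^ (2 * dd n) * (Nat.card F : ℝ) ^ 2 := fun n => by
    simp only [hE]
    rw [← pow_add]
    congr 1
  have hEb : ∀ n, ((Z n).card : ℝ) ≤ E n := fun n => by
    refine le_trans ?_ (card_Fam_le (F := F) (dd n) (ee n))
    exact_mod_cast Finset.card_le_card (Finset.filter_subset _ _)
  have h10 : ∀ n, 10 * ee n ≤ dd n := fun n => he10 (2 * n + 1)
  have hodd : ∀ n, Odd (dd n) := fun n => ⟨n, rfl⟩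
  have hle : ∀ n, n ≤ dd n := fun n => by simp only [hdd]; omega
  have hE0 : ∀ n, 0 ≤ E n := fun n => (Nat.cast_nonneg _).trans (hEb n)
  obtain ⟨n₁, hn₁⟩ := law_gen Z rkY E hEb
    (by
      intro k η hη
      obtain ⟨D, hD⟩ := hm0 k η hη
      refine ⟨D, fun n hn => ?_⟩
      have h2 := hD (dd n) (hn.trans (hle n)) (hodd n) (ee n) (h10 n)
      have h3 : Emo F 0 k (dd n) (ee n) = ∑ z ∈ Z n, ((2 : ℝ) ^ rkY z) ^ k := by
        unfold Emo
        refine Finset.sum_congr rfl fun z _ => ?_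
        rw [zero_mul, sg_zero, mul_one, ← pow_mul, ← pow_mul, mul_comm]
      rw [h3] at h2
      exact h2.trans (mul_le_mul_of_nonneg_left (hEd n) hη.le))
    (by
      intro k η hη
      obtain ⟨D, hD⟩ := hm1 k η hη
      refine ⟨D, fun n hn => ?_⟩
      have h2 := hD (dd n) (hn.trans (hle n)) (hodd n) (ee n) (h10 n)
      have h3 : Emo F 1 k (dd n) (ee n) = ∑ z ∈ Z n, ((2 : ℝ) ^ rkY z) ^ k * (-1) ^ rkY z := by
        unfold Emo
        refine Finset.sum_congr rfl fun z _ => ?_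
        rw [sg_mul_natCast, sg_one, ← pow_mul, ← pow_mul, mul_comm k]
      rw [h3] at h2
      exact h2.trans (mul_le_mul_of_nonneg_left (hEd n) hη.le))
    r (δ * c₀ / (2 * (Nat.card F : ℝ) ^ 2)) (by positivity)
  obtain ⟨D₁, hD₁⟩ := ht (δ * c₀ / (2 * (1 + a))) (by positivity)
  refine ⟨max n₁ (max D₀ D₁), fun n hn => ?_⟩
  have h2 := hn₁ n ((le_max_left _ _).trans hn)
  have h3 := hD₀ (dd n) ((((le_max_left _ _).trans (le_max_right _ _)).trans hn).trans (hle n))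
  have h4 := hD₁ (dd n) ((((le_max_right _ _).trans (le_max_right _ _)).trans hn).trans (hle n))
    (ee n) (h10 n)
  have h3' : c₀ * (Nat.card F : ℝ) ^ (2 * dd n) ≤ ((Fam F (dd n) (ee n)).card : ℝ) := h3
  -- the atypical part
  set G : Finset (Fin 3 → F[X]) := Fam F (dd n) (ee n) with hG
  have h5 : ((G.card : ℕ) : ℝ) = ((Z n).card : ℝ) +
      ((G.filter fun Y => ¬ Typ (dd n) Y).card : ℝ) := by
    rw [← Nat.cast_add, Finset.card_filter_add_card_filter_not]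
  have h6 : (((G.filter fun Y => rkY Y = r).card : ℕ) : ℝ) =
      (((Z n).filter fun z => rkY z = r).card : ℝ) +
        (((G.filter fun Y => ¬ Typ (dd n) Y).filter fun z => rkY z = r).card : ℝ) := by
    rw [← Nat.cast_add, ← Finset.card_filter_add_card_filter_not (s := G.filter fun Y => rkY Y = r)
      (fun Y => Typ (dd n) Y)]
    congr 3
    · ext Y
      simp only [hZ, ← hG, Finset.mem_filter]
      tauto
    · ext Y
      simp only [Finset.mem_filter]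
      tauto
  have h7 : (((G.filter fun Y => ¬ Typ (dd n) Y).filter fun z => rkY z = r).card : ℝ) ≤
      ((G.filter fun Y => ¬ Typ (dd n) Y).card : ℝ) := by
    exact_mod_cast Finset.card_le_card (Finset.filter_subset _ _)
  have h8 : (0 : ℝ) ≤ (((G.filter fun Y => ¬ Typ (dd n) Y).filter fun z => rkY z = r).card : ℝ) :=
    Nat.cast_nonneg _
  change |(((G.filter fun Y => rkY Y = r).card : ℕ) : ℝ) - a * ((G.card : ℕ) : ℝ)| ≤
    δ * ((G.card : ℕ) : ℝ)
  set B : ℝ := ((G.filter fun Y => ¬ Typ (dd n) Y).card : ℝ) with hB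
  have hB0 : 0 ≤ B := Nat.cast_nonneg _
  set X : ℝ := (((Z n).filter fun z => rkY z = r).card : ℝ) with hX
  set X' : ℝ := (((G.filter fun Y => ¬ Typ (dd n) Y).filter fun z => rkY z = r).card : ℝ)
    with hX'
  have h9 : δ * c₀ / (2 * (Nat.card F : ℝ) ^ 2) * E n = δ / 2 * (c₀ *
      (Nat.card F : ℝ) ^ (2 * dd n)) := by
    rw [hE2 n]
    field_simp
  rw [h9] at h2
  have h10' : (1 + a) * B ≤ δ / 2 * (c₀ * (Nat.card F : ℝ) ^ (2 * dd n)) := by
    have h11 := mul_le_mul_of_nonneg_left h4 (by positivity : 0 ≤ 1 + a)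
    refine h11.trans (le_of_eq ?_)
    field_simp
  rw [h6]
  have h12 : X + X' - a * ((G.card : ℕ) : ℝ) = (X - a * ((Z n).card : ℝ)) + (X' - a * B) := by
    rw [h5]; ring
  rw [h12]
  have h13 : |X' - a * B| ≤ (1 + a) * B := by
    rw [abs_le]
    constructor
    · nlinarith
    · nlinarith
  have h14 : δ * (c₀ * (Nat.card F : ℝ) ^ (2 * dd n)) ≤ δ * ((G.card : ℕ) : ℝ) :=
    mul_le_mul_of_nonneg_left h3' hδ.le
  refine (abs_add_le _ _).trans ?_
  linarith

end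

end Pool.Agent.H94.PS
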