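import Pool.Agent.H94.PS.Tcs

/-!
# [H94 PS BDT] The classes killed by lemma T

`Q = Nat.card F ≥ 2`.
* `bd_T`: `K` of `tl` for `r = 4 ^ k`, w.l.o.g. `K ≥ 1` (replace by `K + 1`; the right side of `tl` is monotone in `K`).  `cs_T`; for `μ ∈ Icc (thr d) e`, `y ∈ YY F k d μ` apply `tl` with `n = C (c 0) * ∏ y` (`≠ 0`, degree `(∏ y).natDegree`, `om n = om (∏ y)`), `smL`, `abs_fT_le`, `abs_gT_le`, `abs_hT_le`, `kap_spec`; `1 ≤ thr d ≤ μ` since `d ≥ 2`.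
  `X = K (d + 1) ^ K K ^ om n ≥ 1`: `TS ^ 4 ≤ X Q ^ (4 (d + μ)) / Q ^ μ` gives `|TS| ≤ X Q ^ (d + μ) Q ^ (- μ / 4) ≤ X Q ^ (d + μ) Q ^ (- thr d / 16)` (fourth roots: `X ^ (1/4) ≤ X`; compare the fourth powers).  Sum over `y`: `sumY` with `C = K`: `≤ K (d + 1) ^ K K' (d + 1) ^ K' Q ^ (d - μ) Q ^ (d + μ) Q ^ (- thr d / 16)`, and `Q ^ (d - μ) Q ^ (d + μ) = Q ^ (2 d)`;
  at most `d + 1` values of `μ`.  `2 e < d` from `10 e ≤ d`, `d ≥ 2`.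
-/

set_option autoImplicit false

namespace Pool.Agent.H94.PS

open Polynomial
open Pool.Agent.H94.PC
open Pool.Agent.H94.PN (dotp)
open Pool.Agent.H74.SL (V q w L NotKilled)

section
variable {F : Type} [Field F] [Finite F] {k d : ℕ}

/-- the fourth root -/
private theorem bdT_root (T X Q ρ : ℝ) (μ n : ℕ) (hX : 1 ≤ X) (hQ : 0 < Q) (hρ : 0 < ρ)
    (h1 : 1 ≤ ρ ^ 4 * Q ^ μ) (h : T ^ 4 * Q ^ μ ≤ X * Q ^ (4 * n)) : |T| ≤ X * Q ^ n * ρ := by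
  have hR : 0 ≤ X * Q ^ n * ρ := by positivity
  have hX4 : X ≤ X ^ 4 := by
    calc X = X ^ 1 := (pow_one X).symm
      _ ≤ X ^ 4 := pow_le_pow_right₀ hX (by norm_num)
  have h2 : |T| ^ 4 * Q ^ μ ≤ (X * Q ^ n * ρ) ^ 4 * Q ^ μ := by
    have e1 : |T| ^ 4 = T ^ 4 := by
      have : Even 4 := by decide
      exact this.pow_abs T
    have e2 : (X * Q ^ n * ρ) ^ 4 * Q ^ μ = X ^ 4 * Q ^ (4 * n) * (ρ ^ 4 * Q ^ μ) := by
      rw [mul_comm 4 n, pow_mul]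
      ring
    rw [e1, e2]
    calc T ^ 4 * Q ^ μ ≤ X * Q ^ (4 * n) := h
      _ ≤ X ^ 4 * Q ^ (4 * n) := mul_le_mul_of_nonneg_right hX4 (by positivity)
      _ = X ^ 4 * Q ^ (4 * n) * 1 := (mul_one _).symm
      _ ≤ X ^ 4 * Q ^ (4 * n) * (ρ ^ 4 * Q ^ μ) := mul_le_mul_of_nonneg_left h1 (by positivity)
  have h3 : |T| ^ 4 ≤ (X * Q ^ n * ρ) ^ 4 := le_of_mul_le_mul_right h2 (by positivity)
  exact (pow_le_pow_iff_left₀ (abs_nonneg T) hR (by norm_num)).mp h3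

/-- the constant does not change the number of the prime factors -/
private theorem bdT_om {c : F} (hc : c ≠ 0) (D : F[X]) : om (C c * D) = om D := by
  by_cases hD : D = 0
  · rw [hD, mul_zero]
  · have h1 : pf (C c * D) = pf D := by
      ext P
      rw [mem_pf (mul_ne_zero (C_ne_zero.mpr hc) hD), mem_pf hD]
      have h2 : P ∣ C c * D ↔ P ∣ D :=
        (isUnit_C.mpr (isUnit_iff_ne_zero.mpr hc)).dvd_mul_left
      rw [h2]
    rw [om, om, h1]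

theorem bd_T (h2 : (2 : F) ≠ 0) (k : ℕ) (th : ZMod 2) : ∃ K : ℕ,
    ∀ (c : Fin 3 → F), (∀ i, c i ≠ 0) → ∀ (π : Fin 3 → Pfl k) (u : V k), u ∈ (π 0).U →
      L th u (π 1).v (π 2).v = 1 → ∀ d e : ℕ, 10 * e ≤ d → 2 ≤ d →
      |CS th d e c π| ≤ K * ((d : ℝ) + 1) ^ K * (Nat.card F : ℝ) ^ (2 * d) *
        (Nat.card F : ℝ) ^ (-(thr d : ℝ) / 16) := by
  obtain ⟨K1, hK1⟩ := tl h2 (4 ^ k)
  obtain ⟨K2, hK2⟩ := sumY F k (K1 + 1)
  refine ⟨(K1 + 1) * K2 + (K1 + 1) + K2 + 1, fun c hc π u hu hL d e he hd => ?_⟩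
  obtain ⟨s, hs, hcs⟩ := cs_T h2 th c hc π hu hL
  rw [hcs d e (by omega), abs_mul]
  have hs1 : |s| = 1 := by
    rcases hs with h | h
    · rw [h, abs_one]
    · rw [h, abs_neg, abs_one]
  rw [hs1, one_mul]
  obtain ⟨Q, hQ⟩ : ∃ Q : ℝ, Q = (Nat.card F : ℝ) := ⟨_, rfl⟩
  have hQ1 : 1 ≤ Q := by
    rw [hQ]
    exact_mod_cast Finite.one_lt_card.le
  have hQ0 : 0 < Q := by linarith
  obtain ⟨ρ, hρ⟩ : ∃ ρ : ℝ, ρ = Q ^ (-(thr d : ℝ) / 16) := ⟨_, rfl⟩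
  have hρ0 : 0 < ρ := by
    rw [hρ]
    exact Real.rpow_pos_of_pos hQ0 _
  have hthr : 1 ≤ thr d := by
    unfold thr
    rw [Nat.one_le_iff_ne_zero, ← Nat.pos_iff_ne_zero, Nat.ceil_pos]
    have h3 : 0 < Real.log d := Real.log_pos (by exact_mod_cast hd)
    positivity
  have hρμ : ∀ μ : ℕ, thr d ≤ μ → 1 ≤ ρ ^ 4 * Q ^ μ := by
    intro μ hμ
    have h3 : ρ ^ 4 * Q ^ μ = Q ^ (-(thr d : ℝ) / 16 * 4 + μ) := by
      rw [hρ, Real.rpow_add hQ0, Real.rpow_natCast, Real.rpow_mul hQ0.le]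
      norm_num
    rw [h3]
    apply Real.one_le_rpow hQ1
    have h4 : (thr d : ℝ) ≤ μ := by exact_mod_cast hμ
    have h5 : (0 : ℝ) ≤ thr d := Nat.cast_nonneg _
    linarith
  have hd0 : (0 : ℝ) ≤ d := Nat.cast_nonneg _
  have hd1 : (1 : ℝ) ≤ (d : ℝ) + 1 := by linarith
  -- one `y`
  have hone : ∀ μ ∈ Finset.Icc (thr d) e, ∀ y ∈ YY F k d μ,
      |TS d μ (C (c 0) * ∏ v, (y v).1) (c 1) (c 2) (smb (F := F) (k := k) (d := d) (e := e))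
          (smb (F := F) (k := k) (d := d) (e := e))
          (fun s Q => fT th e π (C (c 0) * ∏ v, (y v).1) y s.1 Q)
          (fun t R => gT th e π t.1 R) (fun m s t => hT th e π u y m s.1 t.1)
          (fun t => kap (π 2).v (π 1).v t.1)| ≤
        ((K1 + 1 : ℕ) : ℝ) * ((d : ℝ) + 1) ^ (K1 + 1) * ((K1 + 1 : ℕ) : ℝ) ^ om (∏ v, (y v).1) *
          Q ^ (d + μ) * ρ := by
    intro μ hμ y hy
    rw [Finset.mem_Icc] at hμ
    simp only [YY, Finset.mem_filter] at hy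
    obtain ⟨_, hsq, hdeg⟩ := hy
    have hn0 : (∏ v, (y v).1) ≠ 0 := hsq.ne_zero
    have hnn : C (c 0) * ∏ v, (y v).1 ≠ 0 := mul_ne_zero (C_ne_zero.mpr (hc 0)) hn0
    have hnd : (C (c 0) * ∏ v, (y v).1).natDegree + μ = d := by
      rw [natDegree_C_mul (hc 0)]
      exact hdeg
    have h3 := hK1 d e μ he (hthr.trans hμ.1) hμ.2 (C (c 0) * ∏ v, (y v).1) (c 1) (c 2) (hc 1)
      (hc 2) hnn hnd (SmT F k d e) (SmT F k d e) smb smb (smL e) (smL e)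
      (fun s Q => fT th e π (C (c 0) * ∏ v, (y v).1) y s.1 Q)
      (fun t R => gT th e π t.1 R) (fun m s t => hT th e π u y m s.1 t.1)
      (fun t => kap (π 2).v (π 1).v t.1) (fun s Q => abs_fT_le th e π _ y s.1 Q)
      (fun t R => abs_gT_le th e π t.1 R) (fun m s t => abs_hT_le th e π u y m s.1 t.1)
      (fun t => kap_spec (π 2).v (π 1).v t.1)
    rw [bdT_om (hc 0), ← hQ] at h3
    have hA : (1 : ℝ) ≤ ((K1 + 1 : ℕ) : ℝ) := by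
      push_cast
      have : (0 : ℝ) ≤ K1 := Nat.cast_nonneg _
      linarith
    have hA2 : (K1 : ℝ) ≤ ((K1 + 1 : ℕ) : ℝ) := by
      push_cast
      linarith
    have hX : 1 ≤ ((K1 + 1 : ℕ) : ℝ) * ((d : ℝ) + 1) ^ (K1 + 1) *
        ((K1 + 1 : ℕ) : ℝ) ^ om (∏ v, (y v).1) :=
      one_le_mul_of_one_le_of_one_le
        (one_le_mul_of_one_le_of_one_le hA (one_le_pow₀ hd1)) (one_le_pow₀ hA)
    refine bdT_root _ _ Q ρ μ (d + μ) hX hQ0 hρ0 (hρμ μ hμ.1) (h3.trans ?_)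
    apply mul_le_mul_of_nonneg_right _ (by positivity)
    apply mul_le_mul _ _ (by positivity) (by positivity)
    · exact mul_le_mul hA2 (pow_le_pow_right₀ hd1 (Nat.le_succ K1)) (by positivity) (by positivity)
    · exact pow_le_pow_left₀ (Nat.cast_nonneg _) hA2 _
  -- one `μ`
  have hμs : ∀ μ ∈ Finset.Icc (thr d) e, |∑ y ∈ YY F k d μ,
        TS d μ (C (c 0) * ∏ v, (y v).1) (c 1) (c 2) (smb (F := F) (k := k) (d := d) (e := e))
          (smb (F := F) (k := k) (d := d) (e := e))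
          (fun s Q => fT th e π (C (c 0) * ∏ v, (y v).1) y s.1 Q)
          (fun t R => gT th e π t.1 R) (fun m s t => hT th e π u y m s.1 t.1)
          (fun t => kap (π 2).v (π 1).v t.1)| ≤
      ((K1 + 1 : ℕ) : ℝ) * K2 * ((d : ℝ) + 1) ^ (K1 + 1 + K2) * Q ^ (2 * d) * ρ := by
    intro μ hμ
    refine (Finset.abs_sum_le_sum_abs _ _).trans ((Finset.sum_le_sum (hone μ hμ)).trans ?_)
    have hμd : μ ≤ d := by
      rw [Finset.mem_Icc] at hμ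
      omega
    have h3 := hK2 d μ hμd
    rw [← hQ] at h3
    have e1 : ∑ y ∈ YY F k d μ, ((K1 + 1 : ℕ) : ℝ) * ((d : ℝ) + 1) ^ (K1 + 1) *
        ((K1 + 1 : ℕ) : ℝ) ^ om (∏ v, (y v).1) * Q ^ (d + μ) * ρ =
        ((K1 + 1 : ℕ) : ℝ) * ((d : ℝ) + 1) ^ (K1 + 1) * Q ^ (d + μ) * ρ *
          ∑ y ∈ YY F k d μ, ((K1 + 1 : ℕ) : ℝ) ^ om (∏ v, (y v).1) := by
      rw [Finset.mul_sum]
      apply Finset.sum_congr rfl
      intro y _
      ring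
    rw [e1]
    have e2 : ((K1 + 1 : ℕ) : ℝ) * K2 * ((d : ℝ) + 1) ^ (K1 + 1 + K2) * Q ^ (2 * d) * ρ =
        ((K1 + 1 : ℕ) : ℝ) * ((d : ℝ) + 1) ^ (K1 + 1) * Q ^ (d + μ) * ρ *
          (K2 * ((d : ℝ) + 1) ^ K2 * Q ^ (d - μ)) := by
      have e3 : 2 * d = (d + μ) + (d - μ) := by omega
      rw [e3, pow_add, pow_add ((d : ℝ) + 1)]
      ring
    rw [e2]
    exact mul_le_mul_of_nonneg_left h3 (by positivity)
  refine (Finset.abs_sum_le_sum_abs _ _).trans ((Finset.sum_le_sum hμs).trans ?_)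
  rw [Finset.sum_const, nsmul_eq_mul, ← hQ, ← hρ]
  have hcard : ((Finset.Icc (thr d) e).card : ℝ) ≤ (d : ℝ) + 1 := by
    rw [Nat.card_Icc]
    have h3 : e + 1 - thr d ≤ d + 1 := by omega
    exact_mod_cast h3
  have hd1p : (0 : ℝ) < (d : ℝ) + 1 := by linarith
  calc ((Finset.Icc (thr d) e).card : ℝ) *
        (((K1 + 1 : ℕ) : ℝ) * K2 * ((d : ℝ) + 1) ^ (K1 + 1 + K2) * Q ^ (2 * d) * ρ)
      ≤ ((d : ℝ) + 1) *
        (((K1 + 1 : ℕ) : ℝ) * K2 * ((d : ℝ) + 1) ^ (K1 + 1 + K2) * Q ^ (2 * d) * ρ) :=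
        mul_le_mul_of_nonneg_right hcard (by positivity)
    _ = (((K1 + 1 : ℕ) : ℝ) * K2) * ((d : ℝ) + 1) ^ (K1 + 1 + K2 + 1) * Q ^ (2 * d) * ρ := by
        ring
    _ ≤ (((K1 + 1) * K2 + (K1 + 1) + K2 + 1 : ℕ) : ℝ) *
        ((d : ℝ) + 1) ^ ((K1 + 1) * K2 + (K1 + 1) + K2 + 1) * Q ^ (2 * d) * ρ := by
        apply mul_le_mul_of_nonneg_right _ hρ0.le
        apply mul_le_mul_of_nonneg_right _ (by positivity)
        apply mul_le_mul _ _ (by positivity) (by positivity)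
        · have h3 : (K1 + 1) * K2 ≤ (K1 + 1) * K2 + (K1 + 1) + K2 + 1 := by omega
          exact_mod_cast h3
        · exact pow_le_pow_right₀ hd1 (by omega)

end

end Pool.Agent.H94.PS
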