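import Pool.Agent.H94.PS.Cc

set_option autoImplicit false

/-!
# [H94 PS CE] The class sum in the gauge without the large prime of the third class

* `cs_eq`: insert `cc_iff`, `wgt_eq`, `sum3`, and `gauge` with `δ i v = (π i).dl v` (`IsPfl.dl`).
  The sign `s = sg (G δ)`, `G` from `gauge` for `th`, `k0`, `c` (it does not depend on `d`, `e`); `π` is fixed.  `ph th c x = ph' th k0 x + G δ` needs `TY c x 0 + TY c x 1 + TY c x 2 = 0` and the squarefree product (`sqf_TY`).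
-/

namespace Pool.Agent.H94.PS

open Polynomial
open Pool.Agent.H94.PC
open Pool.Agent.H94.PN (dotp)
open Pool.Agent.H74.SL (V q w L NotKilled)

section
variable {F : Type} [Field F] [Finite F] {k d : ℕ}

open Classical in
/-- the class sum in the gauge without the large prime of the third class, up to the sign -/
theorem cs_eq (h2 : (2 : F) ≠ 0) (th : ZMod 2) (c : Fin 3 → F) (hc : ∀ i, c i ≠ 0)
    (π : Fin 3 → Pfl k) (k0 : V k) : ∃ s : ℝ, (s = 1 ∨ s = -1) ∧ ∀ d e : ℕ,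
      CS th d e c π = s * ∑ x0 : V k → Mn F d, ∑ x1 : V k → Mn F d, ∑ x2 : V k → Mn F d,
        if C (c 0) * (∏ v, (x0 v).1) + C (c 1) * (∏ v, (x1 v).1) + C (c 2) * (∏ v, (x2 v).1) = 0 ∧
          IsCoprime (∏ v, (x1 v).1) (∏ v, (x2 v).1) ∧
          CC e (π 0) x0 ∧ CC e (π 1) x1 ∧ CC e (π 2) x2 then
          w1 th x0 * w1 th x1 * w1 th x2 * sg (ph' th k0 ![x0, x1, x2]) else 0 := by
  obtain ⟨G, hG⟩ := gauge (k := k) h2 th k0 c
  refine ⟨sg (G fun i v => (π i).dl v), sg_cases _, fun d e => ?_⟩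
  unfold CS
  rw [sum3]
  simp only [Finset.mul_sum]
  refine Finset.sum_congr rfl fun x0 _ => Finset.sum_congr rfl fun x1 _ =>
    Finset.sum_congr rfl fun x2 _ => ?_
  have hiff := cc_iff (e := e) hc (π := π) (x := ![x0, x1, x2])
  have hall : (∀ i, CC e (π i) ((![x0, x1, x2] : Fin 3 → V k → Mn F d) i)) ↔
      CC e (π 0) x0 ∧ CC e (π 1) x1 ∧ CC e (π 2) x2 := by
    constructor
    · intro h
      exact ⟨h 0, h 1, h 2⟩
    · rintro ⟨a, b, c⟩ i
      fin_cases i
      · exact a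
      · exact b
      · exact c
  rw [hall] at hiff
  by_cases h : C (c 0) * (∏ v, (x0 v).1) + C (c 1) * (∏ v, (x1 v).1) +
      C (c 2) * (∏ v, (x2 v).1) = 0 ∧ IsCoprime (∏ v, (x1 v).1) (∏ v, (x2 v).1) ∧
      CC e (π 0) x0 ∧ CC e (π 1) x1 ∧ CC e (π 2) x2
  · rw [if_pos h, if_pos (hiff.mpr h), wgt_eq hc]
    have h0 : TY c ![x0, x1, x2] 0 + TY c ![x0, x1, x2] 1 + TY c ![x0, x1, x2] 2 = 0 := h.1
    have h1 : ∀ i, Squarefree (∏ v, ((![x0, x1, x2] : Fin 3 → V k → Mn F d) i v).1) :=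
      fun i => (hall.mpr h.2.2 i).sqf
    have h3 : (fun i v => (((![x0, x1, x2] : Fin 3 → V k → Mn F d) i v).1.natDegree : ZMod 2)) =
        fun i v => (π i).dl v := by
      funext i v
      exact (hall.mpr h.2.2 i).pfl.dl v
    rw [hG d _ h0 (sqf_TY hc h0 h.2.1 h1), h3, sg_add]
    show w1 th x0 * w1 th x1 * w1 th x2 * _ = _
    ring
  · rw [if_neg h, if_neg (fun hh => h (hiff.mp hh)), mul_zero]

end

end Pool.Agent.H94.PS
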