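import Pool.Agent.H94.PS.Asm

set_option autoImplicit false

/-!
# [H94 PS FIN] Pairs of polynomials and the family
-/

namespace Pool.Agent.H94.PS

open Polynomial
open Pool.Agent.H94.PC

section
variable {F : Type} [Field F] [Finite F]

/-- the conditions for the pairs `A`, `B` -/
structure Adm (ε : ℝ) (d : ℕ) (A B : F[X]) : Prop where
  degA : A.natDegree = d
  degB : B.natDegree = d
  degAB : (A - B).natDegree = d
  sqf : Squarefree (A * B * (A - B))
  prA : ∃ P, Irreducible P ∧ P ∣ A ∧ (1 - ε) * d ≤ P.natDegree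
  prB : ∃ P, Irreducible P ∧ P ∣ B ∧ (1 - ε) * d ≤ P.natDegree
  prAB : ∃ P, Irreducible P ∧ P ∣ A - B ∧ (1 - ε) * d ≤ P.natDegree

theorem floor_iff {ε : ℝ} (h0 : 0 ≤ ε) (d n : ℕ) : (1 - ε) * d ≤ n ↔ d ≤ n + ⌊ε * (d : ℝ)⌋₊ := by
  have h : 0 ≤ ε * (d : ℝ) := by positivity
  rcases le_total d n with h1 | h1
  · constructor
    · intro _; omega
    · intro _
      have h2 : (d : ℝ) ≤ n := by exact_mod_cast h1
      nlinarith
  · obtain ⟨m, rfl⟩ := Nat.exists_eq_add_of_le h1
    rw [Nat.add_le_add_iff_left, Nat.le_floor_iff h]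
    push_cast
    constructor
    · intro h2; linarith
    · intro h2; linarith

theorem exP_iff {ε : ℝ} (h0 : 0 ≤ ε) (d : ℕ) {A : F[X]} (hA : A ≠ 0) :
    (∃ P, Irreducible P ∧ P ∣ A ∧ (1 - ε) * d ≤ P.natDegree) ↔
      ∃ P ∈ pf A, d ≤ P.natDegree + ⌊ε * (d : ℝ)⌋₊ := by
  classical
  constructor
  · rintro ⟨P, h1, h2, h3⟩
    refine ⟨normalize P, (mem_pf hA).2 ⟨monic_normalize h1.ne_zero, ?_, ?_⟩, ?_⟩
    · exact ((normalize_associated P).irreducible_iff).2 h1
    · exact normalize_dvd_iff.2 h2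
    · rw [(natDegree_eq_of_degree_eq (degree_normalize (p := P)))]
      exact (floor_iff h0 d _).1 h3
  · rintro ⟨P, h1, h2⟩
    have h3 := mem_pf' h1
    exact ⟨P, h3.2.1, h3.2.2, (floor_iff h0 d _).2 h2⟩

/-- the triple of a pair -/
noncomputable def mkY (A B : F[X]) : Fin 3 → F[X] := ![A, -B, B - A]

theorem pf_neg (A : F[X]) : pf (-A) = pf A := by
  by_cases hA : A = 0
  · rw [hA, neg_zero]
  · ext P
    rw [mem_pf hA, mem_pf (neg_ne_zero.2 hA), dvd_neg]

theorem adm_iff {ε : ℝ} (h0 : 0 ≤ ε) {d : ℕ} {A B : F[X]} :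
    Adm ε d A B ↔ mkY A B ∈ Fam F d ⌊ε * (d : ℝ)⌋₊ := by
  rw [mem_Fam]
  have hprod : mkY A B 0 * mkY A B 1 * mkY A B 2 = A * B * (A - B) := by
    show A * -B * (B - A) = _
    ring
  have hd2 : (mkY A B 2).natDegree = (A - B).natDegree := by
    show (B - A).natDegree = _
    rw [← natDegree_neg, neg_sub]
  have hd1 : (mkY A B 1).natDegree = B.natDegree := natDegree_neg B
  have hp2 : pf (mkY A B 2) = pf (A - B) := by
    show pf (B - A) = _
    rw [← pf_neg, neg_sub]
  have hp1 : pf (mkY A B 1) = pf B := pf_neg B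
  constructor
  · intro h
    have hne : A * B * (A - B) ≠ 0 := h.sqf.ne_zero
    have hA : A ≠ 0 := fun h1 => hne (by rw [h1, zero_mul, zero_mul])
    have hB : B ≠ 0 := fun h1 => hne (by rw [h1, mul_zero, zero_mul])
    have hAB : A - B ≠ 0 := fun h1 => hne (by rw [h1, mul_zero])
    refine ⟨⟨?_, ?_, ?_⟩, ?_⟩
    · show A + -B + (B - A) = 0
      ring
    · intro i
      fin_cases i
      · exact h.degA
      · exact hd1.trans h.degB
      · exact hd2.trans h.degAB
    · rw [hprod]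
      exact h.sqf
    · intro i
      fin_cases i
      · exact (exP_iff h0 d hA).1 h.prA
      · have := (exP_iff h0 d hB).1 h.prB
        rw [← hp1] at this
        exact this
      · have := (exP_iff h0 d hAB).1 h.prAB
        rw [← hp2] at this
        exact this
  · intro h
    have h1 := h.1.sqf
    rw [hprod] at h1
    have hne : A * B * (A - B) ≠ 0 := h1.ne_zero
    have hA : A ≠ 0 := fun h1 => hne (by rw [h1, zero_mul, zero_mul])
    have hB : B ≠ 0 := fun h1 => hne (by rw [h1, mul_zero, zero_mul])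
    have hAB : A - B ≠ 0 := fun h1 => hne (by rw [h1, mul_zero])
    refine ⟨h.1.deg 0, hd1.symm.trans (h.1.deg 1), hd2.symm.trans (h.1.deg 2), h1,
      (exP_iff h0 d hA).2 (h.2 0), (exP_iff h0 d hB).2 ?_, (exP_iff h0 d hAB).2 ?_⟩
    · have := h.2 1
      rw [hp1] at this
      exact this
    · have := h.2 2
      rw [hp2] at this
      exact this

/-- the number of the pairs with a property of the triple -/
theorem card_adm {ε : ℝ} (h0 : 0 ≤ ε) (d : ℕ) (P : (Fin 3 → F[X]) → Prop) [DecidablePred P] :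
    Nat.card {p : F[X] × F[X] // Adm ε d p.1 p.2 ∧ P (mkY p.1 p.2)} =
      ((Fam F d ⌊ε * (d : ℝ)⌋₊).filter P).card := by
  have h : Nat.card {p : F[X] × F[X] // Adm ε d p.1 p.2 ∧ P (mkY p.1 p.2)} =
      Nat.card {Y : Fin 3 → F[X] // Y ∈ (Fam F d ⌊ε * (d : ℝ)⌋₊).filter P} := by
    refine Nat.card_congr ⟨fun p => ⟨mkY p.1.1 p.1.2, Finset.mem_filter.2
        ⟨(adm_iff h0).1 p.2.1, p.2.2⟩⟩,
      fun Y => ⟨(Y.1 0, -Y.1 1), ?_⟩, ?_, ?_⟩
    · have h1 := Finset.mem_filter.1 Y.2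
      have h2 : mkY (Y.1 0) (-Y.1 1) = Y.1 := by
        have h3 := (mem_Fam.1 h1.1).1.sum
        funext i
        fin_cases i
        · rfl
        · show - -Y.1 1 = Y.1 1
          rw [neg_neg]
        · show -Y.1 1 - Y.1 0 = Y.1 2
          linear_combination -h3
      refine ⟨(adm_iff h0).2 ?_, ?_⟩
      · show mkY (Y.1 0) (-Y.1 1) ∈ _
        rw [h2]
        exact h1.1
      · show P (mkY (Y.1 0) (-Y.1 1))
        rw [h2]
        exact h1.2
    · rintro ⟨⟨A, B⟩, hp⟩
      apply Subtype.ext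
      show (mkY A B 0, -mkY A B 1) = (A, B)
      show (A, - -B) = (A, B)
      rw [neg_neg]
    · rintro ⟨Y, hY⟩
      apply Subtype.ext
      have h3 := (mem_Fam.1 (Finset.mem_filter.1 hY).1).1.sum
      show mkY (Y 0) (-Y 1) = Y
      funext i
      fin_cases i
      · rfl
      · show - -Y 1 = Y 1
        rw [neg_neg]
      · show -Y 1 - Y 0 = Y 2
        linear_combination -h3
  rw [h, Nat.card_eq_fintype_card, Fintype.card_coe]

end

end Pool.Agent.H94.PS
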