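import Pool.Agent.H94.PS.Defs

set_option autoImplicit false

/-!
# [H94 PS INS] Insertion of a prime into a labelled polynomial

`ins P u y`: the labelled polynomial `y` with the part `y u` replaced by `P * y u` (if this is again monic, squarefree of degree at most `d`, `OkI P u y`).

* `ins_same`, `ins_ne`, `prod_ins`: unfold, `Function.update`, `Finset.prod_update_of_mem` or `Finset.mul_prod_erase`.
* `mark`: both sides are sums over pairs.  Left: pairs `(x, P)`, `P ∈ pf (x u).1`; right: triples `(μ, P, y)` with `P ∈ Pr F μ`, `μ ≤ d`, `OkI P u y`.  The map `(P, y) ↦ (ins P u y, P)` is a bijection from the right to the left: (`P ∣ (ins P u y) u`); the inverse is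
  `(x, P) ↦ (P, update x u (x u / P))`: `x u = P * b`, `b` monic, squarefree, of degree at most `d` (a divisor of `x u`), `μ = P.natDegree ≤ (x u).natDegree ≤ d`.  (`Finset.sum_sigma'`, `Finset.sum_bij'`, or: injectivity on the pairs with `OkI` since `P * a = P * b → a = b`, and surjectivity.)
* `sum3`: `Fin 3 → α` is `α × α × α` (`Fintype.sum_equiv`, `Fin.consEquiv` / by hand; `![x 0, x 1, x 2] = x` by `funext`, `Fin.forall_fin_succ`/`fin_cases`).
-/

namespace Pool.Agent.H94.PS

open Polynomial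
open Pool.Agent.H94.PC
open Pool.Agent.H74.SL (V)

section
variable {F : Type} [Field F] [Finite F] {k d : ℕ}

/-- the condition for the insertion of `P` at the label `u` -/
def OkI (P : F[X]) (u : V k) (y : V k → Mn F d) : Prop :=
  P.Monic ∧ Squarefree (P * (y u).1) ∧ (P * (y u).1).natDegree ≤ d

open Classical in
/-- the insertion of `P` at the label `u` -/
noncomputable def ins (P : F[X]) (u : V k) (y : V k → Mn F d) : V k → Mn F d :=
  Function.update y u (if h : OkI P u y then ⟨P * (y u).1, h.1.mul (y u).2.1, h.2.1, h.2.2⟩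
    else Mn.one d)

theorem ins_same {P : F[X]} {u : V k} {y : V k → Mn F d} (h : OkI P u y) :
    (ins P u y u).1 = P * (y u).1 := by
  have h1 : ins P u y u =
      (⟨P * (y u).1, h.1.mul (y u).2.1, h.2.1, h.2.2⟩ : {f : F[X] // f.Monic ∧ Squarefree f ∧
        f.natDegree ≤ d}) := by
    unfold ins
    rw [Function.update_self]
    exact dif_pos h
  rw [h1]

theorem ins_ne {P : F[X]} {u v : V k} {y : V k → Mn F d} (h : v ≠ u) : ins P u y v = y v := by
  unfold ins
  rw [Function.update_of_ne h]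

theorem prod_ins {P : F[X]} {u : V k} {y : V k → Mn F d} (h : OkI P u y) :
    ∏ v, (ins P u y v).1 = P * ∏ v, (y v).1 := by
  classical
  rw [← Finset.mul_prod_erase Finset.univ (fun v => (ins P u y v).1) (Finset.mem_univ u),
    ← Finset.mul_prod_erase Finset.univ (fun v => (y v).1) (Finset.mem_univ u), ins_same h,
    mul_assoc]
  congr 2
  refine Finset.prod_congr rfl fun v hv => ?_
  rw [ins_ne (Finset.ne_of_mem_erase hv)]

open Classical in
theorem mark (u : V k) (g : (V k → Mn F d) → F[X] → ℝ) :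
    ∑ x : V k → Mn F d, ∑ P ∈ pf (x u).1, g x P =
      ∑ μ ∈ Finset.range (d + 1), ∑ P ∈ Pr F μ, ∑ y : V k → Mn F d,
        if OkI P u y then g (ins P u y) P else 0 := by
  obtain ⟨A, hA⟩ : ∃ A : Finset F[X], A = (Finset.range (d + 1)).biUnion (Pr F) := ⟨_, rfl⟩
  have hmA : ∀ P, P ∈ A ↔ P.Monic ∧ Irreducible P ∧ P.natDegree ≤ d := by
    intro P
    rw [hA, Finset.mem_biUnion]
    constructor
    · rintro ⟨μ, hμ, hP⟩
      rw [mem_Pr] at hP
      rw [Finset.mem_range] at hμ
      exact ⟨hP.1, hP.2.2, by omega⟩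
    · rintro ⟨h1, h2, h3⟩
      exact ⟨P.natDegree, Finset.mem_range.2 (by omega), mem_Pr.2 ⟨h1, rfl, h2⟩⟩
  have hR : ∑ μ ∈ Finset.range (d + 1), ∑ P ∈ Pr F μ, ∑ y : V k → Mn F d,
      (if OkI P u y then g (ins P u y) P else 0) =
      ∑ P ∈ A, ∑ y : V k → Mn F d, if OkI P u y then g (ins P u y) P else 0 := by
    rw [hA, Finset.sum_biUnion]
    intro μ _ ν _ hne
    rw [Function.onFun, Finset.disjoint_left]
    intro P h1 h2
    rw [mem_Pr] at h1 h2
    exact hne (h1.2.1.symm.trans h2.2.1)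
  have hL : ∑ x : V k → Mn F d, ∑ P ∈ pf (x u).1, g x P =
      ∑ P ∈ A, ∑ x : V k → Mn F d, if P ∈ pf (x u).1 then g x P else 0 := by
    rw [Finset.sum_comm (s := A)]
    refine Finset.sum_congr rfl fun x _ => ?_
    rw [← Finset.sum_filter]
    refine Finset.sum_congr ?_ fun _ _ => rfl
    ext P
    rw [Finset.mem_filter, hmA]
    constructor
    · intro hP
      have h1 := mem_pf' hP
      exact ⟨⟨h1.1, h1.2.1, (natDegree_le_of_dvd h1.2.2 (x u).2.1.ne_zero).trans (x u).2.2.2⟩, hP⟩
    · exact fun h => h.2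
  rw [hL, hR]
  refine Finset.sum_congr rfl fun P hP => ?_
  obtain ⟨hPm, hPi, hPd⟩ := (hmA P).1 hP
  rw [← Finset.sum_filter, ← Finset.sum_filter]
  symm
  refine Finset.sum_bij (fun y _ => ins P u y) ?_ ?_ ?_ ?_
  · intro y hy
    rw [Finset.mem_filter] at hy ⊢
    refine ⟨Finset.mem_univ _, ?_⟩
    rw [ins_same hy.2, mem_pf (hPm.mul (y u).2.1).ne_zero]
    exact ⟨hPm, hPi, Dvd.intro _ rfl⟩
  · intro y hy y' hy' h
    rw [Finset.mem_filter] at hy hy'
    funext v
    by_cases hv : v = u
    · rw [hv]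
      apply Subtype.ext
      have h1 := congrArg (fun z : V k → Mn F d => (z u).1) h
      simp only [ins_same hy.2, ins_same hy'.2] at h1
      exact mul_left_cancel₀ hPm.ne_zero h1
    · have h1 := congrFun h v
      rwa [ins_ne hv, ins_ne hv] at h1
  · intro x hx
    rw [Finset.mem_filter] at hx
    obtain ⟨b, hb⟩ := (mem_pf' hx.2).2.2
    have hbm : b.Monic := hPm.of_mul_monic_left (by rw [← hb]; exact (x u).2.1)
    have hbs : Squarefree b := (x u).2.2.1.squarefree_of_dvd (by rw [hb]; exact Dvd.intro_left _ rfl)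
    have hbd : b.natDegree ≤ d :=
      (natDegree_le_of_dvd (by rw [hb]; exact Dvd.intro_left _ rfl) (x u).2.1.ne_zero).trans
        (x u).2.2.2
    obtain ⟨b', hb'⟩ : ∃ b' : Mn F d, b'.1 = b := ⟨⟨b, hbm, hbs, hbd⟩, rfl⟩
    have hok : OkI P u (Function.update x u b') := by
      unfold OkI
      rw [Function.update_self, hb', ← hb]
      exact ⟨hPm, (x u).2.2.1, (x u).2.2.2⟩
    refine ⟨_, Finset.mem_filter.2 ⟨Finset.mem_univ _, hok⟩, ?_⟩
    funext v
    by_cases hv : v = u
    · rw [hv]
      apply Subtype.ext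
      rw [ins_same hok, Function.update_self, hb']
      exact hb.symm
    · rw [ins_ne hv, Function.update_of_ne hv]
  · intro y _
    rfl

theorem sum3 {α : Type} [Fintype α] (G : (Fin 3 → α) → ℝ) :
    ∑ x : Fin 3 → α, G x = ∑ a, ∑ b, ∑ c, G ![a, b, c] := by
  obtain ⟨e, he⟩ : ∃ e : α × α × α ≃ (Fin 3 → α), ∀ p, e p = ![p.1, p.2.1, p.2.2] :=
    ⟨{ toFun := fun p => ![p.1, p.2.1, p.2.2]
       invFun := fun x => (x 0, x 1, x 2)
       left_inv := fun p => rfl
       right_inv := fun x => by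
        funext i
        fin_cases i <;> rfl }, fun p => rfl⟩
  rw [← Equiv.sum_comp e, Fintype.sum_prod_type]
  refine Finset.sum_congr rfl fun a _ => ?_
  rw [Fintype.sum_prod_type]
  refine Finset.sum_congr rfl fun b _ => Finset.sum_congr rfl fun c _ => ?_
  rw [he]

end

end Pool.Agent.H94.PS
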