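import Pool.Agent.H94.PN.LAW2

set_option autoImplicit false

/-!
# [H94 PS LAWG] The law from the moments and the moments with signs

`law_gen`: for `p = r % 2` let `Z_p n = {z ∈ Z n | rk z % 2 = p}`.  `2 ∑_{Z_p n} (2 ^ rk) ^ k = ∑ (2 ^ rk) ^ k + (-1) ^ p ∑ (-1) ^ rk (2 ^ rk) ^ k`, so the moments on `Z_p n` are `Lk 2 k * card (Z n) / 2 + o (E n)`.
`lawg` with `Q = 4`, `s z = rk z / 2`, `w t = 2 * wt 2 2 (2 * t + p) / Sm 2 2 0`, `T n = card (Z n) / 2`.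
-/

namespace Pool.Agent.H94.PS

open Pool.Agent.H94.PN

open Classical in
theorem law_gen {α : Type} (Z : ℕ → Finset α) (rk : α → ℕ) (E : ℕ → ℝ)
    (hE : ∀ n, ((Z n).card : ℝ) ≤ E n)
    (h0 : ∀ (k : ℕ) (ε : ℝ), 0 < ε → ∃ n₀ : ℕ, ∀ n : ℕ, n₀ ≤ n →
      |∑ z ∈ Z n, ((2 : ℝ) ^ rk z) ^ k - (Lk 2 k : ℝ) * ((Z n).card : ℝ)| ≤ ε * E n)
    (h1 : ∀ (k : ℕ) (ε : ℝ), 0 < ε → ∃ n₀ : ℕ, ∀ n : ℕ, n₀ ≤ n →
      |∑ z ∈ Z n, ((2 : ℝ) ^ rk z) ^ k * (-1) ^ rk z| ≤ ε * E n)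
    (r : ℕ) (ε : ℝ) (hε : 0 < ε) : ∃ n₀ : ℕ, ∀ n : ℕ, n₀ ≤ n →
      |(((Z n).filter fun z => rk z = r).card : ℝ) -
        wt 2 2 r / Sm 2 2 0 * ((Z n).card : ℝ)| ≤ ε * E n := by
  have hS : 0 < Sm 2 2 0 := sm_pos (by norm_num) (by norm_num) 0
  have hp : r % 2 < 2 := Nat.mod_lt _ (by norm_num)
  set p : ℕ := r % 2 with hpdef
  set w : ℕ → ℝ := fun t => 2 * wt 2 2 (2 * t + p) / Sm 2 2 0 with hw
  set W : ℕ → Finset α := fun n => (Z n).filter fun z => rk z % 2 = p with hW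
  have hwpos : ∀ t, 0 ≤ w t := fun t => by
    have := wt_pos (b := 2) (q := 2) (by norm_num) (by norm_num) (2 * t + p)
    simp only [hw]
    positivity
  have hwb : ∀ t, w t * (4 : ℝ) ^ (t * (t + 1) / 2) ≤ 16 / Sm 2 2 0 := fun t => by
    have h1 := w2_bound hp t
    have h2 : w t * (4 : ℝ) ^ (t * (t + 1) / 2) =
        2 * (wt 2 2 (2 * t + p) * (4 : ℝ) ^ (t * (t + 1) / 2)) / Sm 2 2 0 := by
      simp only [hw]; ring
    rw [h2]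
    apply div_le_div_of_nonneg_right _ hS.le
    linarith
  have hT : ∀ n, 0 ≤ ((Z n).card : ℝ) / 2 := fun n => by positivity
  have hE' : ∀ n, ((Z n).card : ℝ) / 2 ≤ E n := fun n => by
    have := hE n
    have h2 : (0 : ℝ) ≤ ((Z n).card : ℝ) := Nat.cast_nonneg _
    linarith
  have hmw : ∀ k : ℕ, ∑' t, w t * ((4 : ℝ) ^ t) ^ k = (Lk 2 k : ℝ) / (2 ^ p) ^ k := by
    intro k
    have h1 := (sm_parity (q := 2) (by norm_num) k hp).tsum_eq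
    have h2 : ∀ t : ℕ, w t * ((4 : ℝ) ^ t) ^ k =
        2 / Sm 2 2 0 / (2 ^ p) ^ k * (wt 2 2 (2 * t + p) * (2 ^ (2 * t + p)) ^ k) := by
      intro t
      have h3 : ((2 : ℝ) ^ (2 * t + p)) ^ k = ((4 : ℝ) ^ t) ^ k * (2 ^ p) ^ k := by
        rw [pow_add, mul_pow, pow_mul 2 2 t]
        norm_num
      have h4 : ((2 : ℝ) ^ p) ^ k ≠ 0 := by positivity
      rw [h3]
      simp only [hw]
      field_simp
    simp_rw [h2]
    rw [tsum_mul_left, h1, lk_sm2 k]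
    have h4 : ((2 : ℝ) ^ p) ^ k ≠ 0 := by positivity
    field_simp
  have hM : ∀ (k : ℕ) (ε : ℝ), 0 < ε → ∃ n₀ : ℕ, ∀ n : ℕ, n₀ ≤ n →
      |∑ z ∈ W n, ((4 : ℝ) ^ (rk z / 2)) ^ k -
        (∑' t, w t * ((4 : ℝ) ^ t) ^ k) * (((Z n).card : ℝ) / 2)| ≤ ε * E n := by
    intro k ε hε
    obtain ⟨n₀, hn₀⟩ := h0 k ε hε
    obtain ⟨n₁, hn₁⟩ := h1 k ε hε
    refine ⟨max n₀ n₁, fun n hn => ?_⟩
    have h1 := hn₀ n ((le_max_left _ _).trans hn)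
    have h2 := hn₁ n ((le_max_right _ _).trans hn)
    have hP : (1 : ℝ) ≤ (2 ^ p) ^ k := one_le_pow₀ (one_le_pow₀ (by norm_num))
    have hP0 : (0 : ℝ) < (2 ^ p) ^ k := by positivity
    have h3 : ∑ z ∈ W n, ((2 : ℝ) ^ rk z) ^ k =
        (2 ^ p) ^ k * ∑ z ∈ W n, ((4 : ℝ) ^ (rk z / 2)) ^ k := by
      rw [Finset.mul_sum]
      refine Finset.sum_congr rfl fun z hz => ?_
      have h3 : rk z % 2 = p := (Finset.mem_filter.1 hz).2
      have h4 : rk z = 2 * (rk z / 2) + p := by omega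
      have h5 : (2 : ℝ) ^ rk z = 2 ^ p * 4 ^ (rk z / 2) := by
        conv_lhs => rw [h4]
        rw [pow_add, pow_mul]
        norm_num [mul_comm]
      rw [h5, mul_pow]
    have h4 : 2 * ∑ z ∈ W n, ((2 : ℝ) ^ rk z) ^ k =
        ∑ z ∈ Z n, ((2 : ℝ) ^ rk z) ^ k +
          (-1) ^ p * ∑ z ∈ Z n, ((2 : ℝ) ^ rk z) ^ k * (-1) ^ rk z := by
      rw [Finset.mul_sum, Finset.mul_sum, ← Finset.sum_add_distrib, Finset.sum_filter]
      refine Finset.sum_congr rfl fun z _ => ?_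
      have h5 : ((-1 : ℝ)) ^ rk z = (-1) ^ (rk z % 2) := by
        conv_lhs => rw [← Nat.div_add_mod (rk z) 2]
        rw [pow_add, pow_mul]
        norm_num
      rw [h5]
      have h6 : rk z % 2 < 2 := Nat.mod_lt _ (by norm_num)
      generalize rk z % 2 = a at h6
      interval_cases a <;> interval_cases p <;> norm_num <;> ring
    rw [hmw k]
    have h6 : ∑ z ∈ W n, ((4 : ℝ) ^ (rk z / 2)) ^ k -
        (Lk 2 k : ℝ) / (2 ^ p) ^ k * (((Z n).card : ℝ) / 2) =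
        ((∑ z ∈ Z n, ((2 : ℝ) ^ rk z) ^ k - (Lk 2 k : ℝ) * ((Z n).card : ℝ)) +
          (-1) ^ p * ∑ z ∈ Z n, ((2 : ℝ) ^ rk z) ^ k * (-1) ^ rk z) / (2 * (2 ^ p) ^ k) := by
      have h7 : ∑ z ∈ Z n, ((2 : ℝ) ^ rk z) ^ k = 2 * ((2 ^ p) ^ k *
          ∑ z ∈ W n, ((4 : ℝ) ^ (rk z / 2)) ^ k) -
          (-1) ^ p * ∑ z ∈ Z n, ((2 : ℝ) ^ rk z) ^ k * (-1) ^ rk z := by
        rw [← h3]; linarith
      rw [h7]
      field_simp
      ring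
    rw [h6, abs_div, abs_of_pos (by positivity : (0 : ℝ) < 2 * (2 ^ p) ^ k),
      div_le_iff₀ (by positivity)]
    have hE0 : 0 ≤ E n := (Nat.cast_nonneg _).trans (hE n)
    have h8 : |(-1 : ℝ) ^ p * ∑ z ∈ Z n, ((2 : ℝ) ^ rk z) ^ k * (-1) ^ rk z| ≤ ε * E n := by
      rw [abs_mul, abs_pow, abs_neg, abs_one, one_pow, one_mul]
      exact h2
    refine (abs_add_le _ _).trans ?_
    have h9 : ε * E n * 2 ≤ ε * E n * (2 * (2 ^ p) ^ k) := by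
      apply mul_le_mul_of_nonneg_left _ (by positivity)
      linarith
    linarith
  obtain ⟨n₂, hn₂⟩ := lawg (Q := 4) (by norm_num) hwpos hwb hT hE' hM (r / 2) ε hε
  refine ⟨n₂, fun n hn => ?_⟩
  have h1 := hn₂ n hn
  have h3 : ((W n).filter fun z => rk z / 2 = r / 2) = (Z n).filter fun z => rk z = r := by
    ext z
    simp only [hW, Finset.mem_filter]
    constructor
    · rintro ⟨⟨ha, hb⟩, hc'⟩
      exact ⟨ha, by omega⟩
    · rintro ⟨ha, hb⟩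
      exact ⟨⟨ha, by rw [hb]⟩, by rw [hb]⟩
  have h4 : w (r / 2) * (((Z n).card : ℝ) / 2) = wt 2 2 r / Sm 2 2 0 * ((Z n).card : ℝ) := by
    have h5 : 2 * (r / 2) + p = r := by omega
    simp only [hw, h5]
    ring
  rw [h3, h4] at h1
  exact h1

end Pool.Agent.H94.PS
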