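import Pool.Agent.H94.PS.Sml

set_option autoImplicit false

/-!
# [H94 PS MK2] Marking of the large prime and of a medium prime of the same class

* `mark_two`: both for the same class: first the large prime at `π.v`, then the medium prime `W` at `v1` in the remaining part: `G x = ∑ Q, ∑ W` with `W ∈ pf (x v1)` medium, `1 / md d e v1 x`; `x = ins Q π.v x'`, and the medium primes of `x v1` are those of `x' v1`
  (`x v1 = x' v1` or `x v1 = Q * x' v1`, `Q` is not medium), `x' = ins W v1 s`.  `CC.deg`: `Q.natDegree + ν + (∏ s).natDegree = d`, so `(∏ s).natDegree ≤ e - ν` (`d ≤ Q.natDegree + e`), `ν ≤ e`.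
-/

namespace Pool.Agent.H94.PS

open Polynomial
open Pool.Agent.H94.PC
open Pool.Agent.H94.PN (dotp)
open Pool.Agent.H74.SL (V q w L NotKilled)

section
variable {F : Type} [Field F] [Finite F] {k d : ℕ}

omit [Finite F] in
theorem monic_lab2 (s : V k → Mn F d) : (∏ v, (s v).1).Monic :=
  monic_prod_of_monic _ _ fun v _ => (s v).2.1

theorem sum_smT2 (e : ℕ) (f : (V k → Mn F d) → ℝ)
    (h : ∀ s : V k → Mn F d, f s ≠ 0 →
      Squarefree (∏ v, (s v).1) ∧ (∏ v, (s v).1).natDegree ≤ e) :
    ∑ s, f s = ∑ s : SmT F k d e, f s.1 := by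
  symm
  refine Finset.sum_of_injOn (fun s : SmT F k d e => s.1) ?_ ?_ ?_ ?_
  · intro a _ b _ hab
    exact Subtype.ext hab
  · intro a _
    exact Finset.mem_coe.2 (Finset.mem_univ _)
  · intro s _ hs
    by_contra h0
    exact hs ⟨⟨s, h s h0⟩, Finset.mem_coe.2 (Finset.mem_univ _), rfl⟩
  · intro a _
    rfl

open Classical in
theorem med_ins2 {e : ℕ} {Q : F[X]} {u v : V k} {y : V k → Mn F d} (h : OkI Q u y)
    (hQ : Irreducible Q) (hd : d ≤ Q.natDegree + e) :
    ((pf (ins Q u y v).1).filter fun W => thr d ≤ W.natDegree ∧ W.natDegree + e < d) =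
      (pf (y v).1).filter fun W => thr d ≤ W.natDegree ∧ W.natDegree + e < d := by
  by_cases hv : v = u
  · subst hv
    rw [ins_same h]
    have h0 : (y v).1 ≠ 0 := (y v).2.1.ne_zero
    have h1 : Q * (y v).1 ≠ 0 := mul_ne_zero hQ.ne_zero h0
    ext W
    rw [Finset.mem_filter, Finset.mem_filter, mem_pf h0, mem_pf h1]
    constructor
    · rintro ⟨⟨hm, hi, hdv⟩, h2, h3⟩
      refine ⟨⟨hm, hi, ?_⟩, h2, h3⟩
      rcases hi.prime.dvd_or_dvd hdv with h4 | h4
      · exfalso
        have h5 : W = Q := eq_of_monic_of_associated hm h.1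
          ((Irreducible.dvd_irreducible_iff_associated hi hQ).1 h4)
        subst h5
        omega
      · exact h4
    · rintro ⟨⟨hm, hi, hdv⟩, h2, h3⟩
      exact ⟨⟨hm, hi, hdv.mul_left _⟩, h2, h3⟩
  · rw [ins_ne hv]

open Classical in
theorem mark_two {e : ℕ} (he : 2 * e < d) (π : Pfl k) {v1 : V k} (hv : v1 ∈ π.U)
    (G : (V k → Mn F d) → ℝ) :
    (∑ x : V k → Mn F d, if CC e π x then G x else 0) =
      ∑ ν ∈ Finset.Icc (thr d) e, ∑ W ∈ Pr F ν, ∑ s : SmT F k d (e - ν),
        ∑ Q ∈ Mo F (d - ν - (smb s).natDegree),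
          if OkI W v1 s.1 ∧ OkI Q π.v (ins W v1 s.1) ∧ CC e π (ins Q π.v (ins W v1 s.1)) ∧
              Irreducible Q ∧ d ≤ Q.natDegree + e ∧ ν + e < d then
            1 / (md d e v1 (ins Q π.v (ins W v1 s.1)) : ℝ) *
              G (ins Q π.v (ins W v1 s.1)) else 0 := by
  -- the large prime
  have s1 : (∑ x : V k → Mn F d, if CC e π x then G x else 0) =
      ∑ x : V k → Mn F d, ∑ P ∈ pf (x π.v).1,
        if CC e π x ∧ d ≤ P.natDegree + e then G x else 0 := by
    refine Finset.sum_congr rfl fun x _ => ?_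
    by_cases hx : CC e π x
    · obtain ⟨P, hP, hPd⟩ := hx.pfl.lrg
      have hup : ∀ R ∈ pf (x π.v).1, R ∈ pf (∏ v, (x v).1) := by
        intro R hR
        obtain ⟨h1, h2, h3⟩ := mem_pf' hR
        exact (mem_pf (monic_lab2 x).ne_zero).2
          ⟨h1, h2, h3.trans (Finset.dvd_prod_of_mem (fun v => (x v).1) (Finset.mem_univ π.v))⟩
      rw [if_pos hx, Finset.sum_eq_single P]
      · rw [if_pos ⟨hx, hPd⟩]
      · intro P' hP' hne
        rw [if_neg]
        rintro ⟨-, h⟩
        exact hne (lrg_unique he (monic_lab2 x) hx.deg (hup P' hP') (hup P hP) h hPd)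
      · intro h
        exact absurd hP h
    · rw [if_neg hx, Finset.sum_eq_zero]
      intro P _
      rw [if_neg]
      rintro ⟨h, -⟩
      exact hx h
  rw [s1, mark π.v (fun x P => if CC e π x ∧ d ≤ P.natDegree + e then G x else 0)]
  -- the summand
  set T : F[X] → F[X] → (V k → Mn F d) → ℝ := fun Q W s =>
    if OkI W v1 s ∧ OkI Q π.v (ins W v1 s) ∧ CC e π (ins Q π.v (ins W v1 s)) ∧
      d ≤ Q.natDegree + e ∧ thr d ≤ W.natDegree ∧ W.natDegree + e < d then
      1 / (md d e v1 (ins Q π.v (ins W v1 s)) : ℝ) * G (ins Q π.v (ins W v1 s)) else 0 with hT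
  -- the medium prime
  have s2 : ∀ Q : F[X], Irreducible Q →
      (∑ y : V k → Mn F d, if OkI Q π.v y then
        (if CC e π (ins Q π.v y) ∧ d ≤ Q.natDegree + e then G (ins Q π.v y) else 0) else 0) =
      ∑ ν ∈ Finset.range (d + 1), ∑ W ∈ Pr F ν, ∑ s : V k → Mn F d, T Q W s := by
    intro Q hQ
    obtain ⟨g, hg⟩ : ∃ g : (V k → Mn F d) → F[X] → ℝ, g = fun y W =>
        if OkI Q π.v y ∧ CC e π (ins Q π.v y) ∧
            d ≤ Q.natDegree + e ∧ thr d ≤ W.natDegree ∧ W.natDegree + e < d then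
            1 / (md d e v1 (ins Q π.v y) : ℝ) * G (ins Q π.v y) else 0 := ⟨_, rfl⟩
    have e1 : ∀ ν ∈ Finset.range (d + 1), (∑ W ∈ Pr F ν, ∑ s : V k → Mn F d, T Q W s) =
        ∑ W ∈ Pr F ν, ∑ s : V k → Mn F d, if OkI W v1 s then g (ins W v1 s) W else 0 := by
      intro ν _
      refine Finset.sum_congr rfl fun W _ => Finset.sum_congr rfl fun s _ => ?_
      rw [hT, hg]
      by_cases h : OkI W v1 s
      · rw [if_pos h]
        simp only [h, true_and]
      · rw [if_neg h]
        simp only [h, false_and, if_false]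
    refine Eq.trans ?_ ((mark v1 g).trans (Finset.sum_congr rfl e1).symm)
    rw [hg]
    refine Finset.sum_congr rfl fun y _ => ?_
    by_cases h : OkI Q π.v y ∧ CC e π (ins Q π.v y) ∧ d ≤ Q.natDegree + e
    · obtain ⟨h1, h2, h3⟩ := h
      rw [if_pos h1, if_pos ⟨h2, h3⟩]
      simp only [h1, h2, h3, true_and]
      rw [← Finset.sum_filter, Finset.sum_const, nsmul_eq_mul, ← med_ins2 h1 hQ h3]
      change _ = (md d e v1 (ins Q π.v y) : ℝ) * _
      have h4 : (md d e v1 (ins Q π.v y) : ℝ) ≠ 0 := by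
        have h5 : 0 < md d e v1 (ins Q π.v y) := by
          obtain ⟨P, hP, hP1, hP2⟩ := (h2.pfl.med v1).1 hv
          exact Finset.card_pos.2 ⟨P, Finset.mem_filter.2 ⟨hP, hP1, hP2⟩⟩
        exact_mod_cast h5.ne'
      field_simp
    · rw [Finset.sum_eq_zero]
      · by_cases h1 : OkI Q π.v y
        · rw [if_pos h1, if_neg]
          rintro ⟨h2, h3⟩
          exact h ⟨h1, h2, h3⟩
        · rw [if_neg h1]
      · intro W _
        refine if_neg ?_
        rintro ⟨h1, h2, h3, -⟩
        exact h ⟨h1, h2, h3⟩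
  -- the facts about a nonzero summand
  have key : ∀ Q W s, T Q W s ≠ 0 → OkI W v1 s ∧ OkI Q π.v (ins W v1 s) ∧
      CC e π (ins Q π.v (ins W v1 s)) ∧ d ≤ Q.natDegree + e ∧ thr d ≤ W.natDegree ∧
      W.natDegree + e < d ∧ Q.natDegree + W.natDegree + (∏ v, (s v).1).natDegree = d ∧
      Squarefree (∏ v, (s v).1) := by
    intro Q W s h
    rw [hT] at h
    obtain ⟨h1, h2, h3, h4, h5, h6⟩ := ite_ne_right_iff.1 h |>.1
    have h7 := prod_ins h2
    rw [prod_ins h1] at h7
    have h8 := h3.deg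
    have h9 := h3.sqf
    rw [h7] at h8 h9
    rw [h2.1.natDegree_mul (h1.1.mul (monic_lab2 s)), h1.1.natDegree_mul (monic_lab2 s)] at h8
    exact ⟨h1, h2, h3, h4, h5, h6, by omega, h9.of_mul_right.of_mul_right⟩
  calc (∑ μ ∈ Finset.range (d + 1), ∑ P ∈ Pr F μ, ∑ y : V k → Mn F d, if OkI P π.v y then
        (fun (x : V k → Mn F d) (P : F[X]) =>
          if CC e π x ∧ d ≤ P.natDegree + e then G x else 0) (ins P π.v y) P else 0)
      = ∑ μ ∈ Finset.range (d + 1), ∑ Q ∈ Pr F μ, ∑ ν ∈ Finset.range (d + 1),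
          ∑ W ∈ Pr F ν, ∑ s : V k → Mn F d, T Q W s :=
        Finset.sum_congr rfl fun μ _ => Finset.sum_congr rfl fun Q hQ => s2 Q (mem_Pr.1 hQ).2.2
    _ = ∑ p ∈ (Finset.range (d + 1)).sigma (fun μ => Pr F μ),
          ∑ r ∈ (Finset.range (d + 1)).sigma (fun μ => Pr F μ), ∑ s : V k → Mn F d,
            T p.2 r.2 s := by
        simp only [Finset.sum_sigma]
    _ = ∑ r ∈ (Finset.range (d + 1)).sigma (fun μ => Pr F μ), ∑ s : V k → Mn F d,
          ∑ p ∈ (Finset.range (d + 1)).sigma (fun μ => Pr F μ), T p.2 r.2 s := by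
        rw [Finset.sum_comm]
        exact Finset.sum_congr rfl fun r _ => Finset.sum_comm
    _ = ∑ ν ∈ Finset.range (d + 1), ∑ W ∈ Pr F ν, ∑ s : V k → Mn F d,
          ∑ μ ∈ Finset.range (d + 1), ∑ Q ∈ Pr F μ, T Q W s := by
        simp only [Finset.sum_sigma]
    _ = ∑ ν ∈ Finset.Icc (thr d) e, ∑ W ∈ Pr F ν, ∑ s : V k → Mn F d,
          ∑ μ ∈ Finset.range (d + 1), ∑ Q ∈ Pr F μ, T Q W s := by
        symm
        refine Finset.sum_subset ?_ ?_
        · intro ν h
          rw [Finset.mem_Icc] at h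
          rw [Finset.mem_range]
          omega
        · intro ν _ h
          refine Finset.sum_eq_zero fun W hW => Finset.sum_eq_zero fun s _ =>
            Finset.sum_eq_zero fun μ _ => Finset.sum_eq_zero fun Q _ => ?_
          by_contra h0
          obtain ⟨-, -, -, h4, h5, -, h7, -⟩ := key Q W s h0
          have hν := (mem_Pr.1 hW).2.1
          refine h (Finset.mem_Icc.2 ⟨?_, ?_⟩) <;> omega
    _ = _ := by
        refine Finset.sum_congr rfl fun ν hν => Finset.sum_congr rfl fun W hW => ?_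
        have hWν := (mem_Pr.1 hW).2.1
        rw [Finset.mem_Icc] at hν
        rw [sum_smT2 (e - ν)]
        · refine Finset.sum_congr rfl fun s _ => ?_
          rw [Finset.sum_eq_single (d - ν - (smb s).natDegree)]
          · have hsub : Pr F (d - ν - (smb s).natDegree) ⊆ Mo F (d - ν - (smb s).natDegree) :=
              fun Q hQ => mem_Mo.2 ⟨(mem_Pr.1 hQ).1, (mem_Pr.1 hQ).2.1⟩
            rw [← Finset.sum_subset hsub]
            · refine Finset.sum_congr rfl fun Q hQ => ?_
              have hQi := (mem_Pr.1 hQ).2.2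
              rw [hT]
              refine if_congr ?_ rfl rfl
              constructor
              · rintro ⟨h1, h2, h3, h4, h5, h6⟩
                exact ⟨h1, h2, h3, hQi, h4, by omega⟩
              · rintro ⟨h1, h2, h3, -, h4, h6⟩
                exact ⟨h1, h2, h3, h4, by omega, by omega⟩
            · intro Q hQ hQ'
              rw [if_neg]
              rintro ⟨-, -, -, h4, -⟩
              exact hQ' (mem_Pr.2 ⟨(mem_Mo.1 hQ).1, (mem_Mo.1 hQ).2, h4⟩)
          · intro μ _ hμ
            refine Finset.sum_eq_zero fun Q hQ => ?_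
            by_contra h0
            obtain ⟨-, -, -, -, -, -, h7, -⟩ := key Q W s.1 h0
            have h8 := (mem_Pr.1 hQ).2.1
            apply hμ
            change μ = d - ν - (∏ v, (s.1 v).1).natDegree
            omega
          · intro h
            exfalso
            apply h
            rw [Finset.mem_range]
            omega
        · intro s h
          obtain ⟨μ, -, h1⟩ := Finset.exists_ne_zero_of_sum_ne_zero h
          obtain ⟨Q, -, h2⟩ := Finset.exists_ne_zero_of_sum_ne_zero h1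
          obtain ⟨-, -, -, h4, -, -, h7, h8⟩ := key Q W s h2
          exact ⟨h8, by omega⟩

end

end Pool.Agent.H94.PS
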