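import Pool.Agent.H94.PS.Sml

set_option autoImplicit false

/-!
# [H94 PS MKL] Marking of the large prime

* `mark_large`: for a labelled `x` with `CC e π x` there is exactly one `Q ∈ pf (x π.v).1` with `d ≤ Q.natDegree + e` (`IsPfl.lrg`, `lrg_unique`), so `G x = ∑ Q ∈ pf (x π.v).1, if d ≤ Q.natDegree + e then G x else 0`.  `mark` with `u = π.v`.  In the terms with `CC e π (ins Q π.v s)`:
  `prod_ins`, `CC.deg`: `Q.natDegree + (∏ s).natDegree = d`, so `(∏ s).natDegree ≤ e`, `∏ s` is squarefree (a divisor), so `s` is an element of `SmT` and `Q ∈ Mo F (d - (∏ s).natDegree)`; conversely an irreducible `Q ∈ Mo F (d - _)` is in `Pr F (d - _)`.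
-/

namespace Pool.Agent.H94.PS

open Polynomial
open Pool.Agent.H94.PC
open Pool.Agent.H94.PN (dotp)
open Pool.Agent.H74.SL (V q w L NotKilled)

section
variable {F : Type} [Field F] [Finite F] {k d : ℕ}

private theorem mkl_mon (x : V k → Mn F d) : (∏ v, (x v).1).Monic :=
  monic_prod_of_monic _ _ fun v _ => (x v).2.1

private theorem mkl_mem {x : V k → Mn F d} {v : V k} {P : F[X]} (hP : P ∈ pf (x v).1) :
    P ∈ pf (∏ v, (x v).1) := by
  obtain ⟨h1, h2, h3⟩ := mem_pf' hP
  exact (mem_pf (mkl_mon x).ne_zero).2 ⟨h1, h2, h3.trans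
    (Finset.dvd_prod_of_mem (fun v => (x v).1) (Finset.mem_univ v))⟩

open Classical in
private theorem mkl_point {e : ℕ} (he : 2 * e < d) (π : Pfl k) (G : (V k → Mn F d) → ℝ)
    (x : V k → Mn F d) : (if CC e π x then G x else 0) =
      ∑ P ∈ pf (x π.v).1, if CC e π x ∧ d ≤ P.natDegree + e then G x else 0 := by
  by_cases h : CC e π x
  · obtain ⟨P0, hP0, hd0⟩ := h.pfl.lrg
    rw [if_pos h, Finset.sum_eq_single P0]
    · rw [if_pos ⟨h, hd0⟩]
    · intro P hP hne
      rw [if_neg]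
      rintro ⟨_, hd⟩
      exact hne (lrg_unique he (mkl_mon x) h.deg (mkl_mem hP) (mkl_mem hP0) hd hd0)
    · intro hn
      exact absurd hP0 hn
  · rw [if_neg h, Finset.sum_eq_zero]
    intro P _
    rw [if_neg fun hh => h hh.1]

private theorem mkl_fact {e : ℕ} {π : Pfl k} {u : V k} {P : F[X]} {y : V k → Mn F d}
    (h : OkI P u y) (h2 : CC e π (ins P u y)) :
    Squarefree (∏ v, (y v).1) ∧ P.natDegree + (∏ v, (y v).1).natDegree = d := by
  have h3 := prod_ins h
  have h4 := h2.deg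
  have h5 := h2.sqf
  rw [h3] at h4 h5
  refine ⟨h5.of_mul_right, ?_⟩
  rw [← h.1.natDegree_mul (mkl_mon y)]
  exact h4

open Classical in
private theorem mkl_term {e : ℕ} (π : Pfl k) (G : (V k → Mn F d) → ℝ) (y : V k → Mn F d) :
    (∑ μ ∈ Finset.range (d + 1), ∑ P ∈ Pr F μ, if OkI P π.v y then
      (if CC e π (ins P π.v y) ∧ d ≤ P.natDegree + e then G (ins P π.v y) else 0) else 0) =
    if Squarefree (∏ v, (y v).1) ∧ (∏ v, (y v).1).natDegree ≤ e then
      ∑ Q ∈ Mo F (d - (∏ v, (y v).1).natDegree),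
        (if OkI Q π.v y ∧ CC e π (ins Q π.v y) ∧ Irreducible Q ∧ d ≤ Q.natDegree + e then
          G (ins Q π.v y) else 0) else 0 := by
  by_cases hs : Squarefree (∏ v, (y v).1) ∧ (∏ v, (y v).1).natDegree ≤ e
  · rw [if_pos hs, Finset.sum_eq_single (d - (∏ v, (y v).1).natDegree)]
    · apply Finset.sum_subset_zero_on_sdiff
      · intro P hP
        obtain ⟨h1, h2, h3⟩ := mem_Pr.1 hP
        exact mem_Mo.2 ⟨h1, h2⟩
      · intro P hP
        obtain ⟨h1, h2⟩ := Finset.mem_sdiff.1 hP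
        rw [if_neg]
        rintro ⟨_, _, h3, _⟩
        exact h2 (mem_Pr.2 ⟨(mem_Mo.1 h1).1, (mem_Mo.1 h1).2, h3⟩)
      · intro P hP
        obtain ⟨h1, h2, h3⟩ := mem_Pr.1 hP
        by_cases c1 : OkI P π.v y
        · rw [if_pos c1]
          by_cases c2 : CC e π (ins P π.v y) ∧ d ≤ P.natDegree + e
          · rw [if_pos c2, if_pos ⟨c1, c2.1, h3, c2.2⟩]
          · rw [if_neg c2, if_neg fun hh => c2 ⟨hh.2.1, hh.2.2.2⟩]
        · rw [if_neg c1, if_neg fun hh => c1 hh.1]
    · intro μ _ hμ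
      apply Finset.sum_eq_zero
      intro P hP
      obtain ⟨h1, h2, h3⟩ := mem_Pr.1 hP
      by_cases c1 : OkI P π.v y
      · rw [if_pos c1, if_neg]
        rintro ⟨c2, c3⟩
        have := (mkl_fact c1 c2).2
        apply hμ
        omega
      · rw [if_neg c1]
    · intro hn
      exfalso
      apply hn
      rw [Finset.mem_range]
      omega
  · rw [if_neg hs]
    apply Finset.sum_eq_zero
    intro μ _
    apply Finset.sum_eq_zero
    intro P hP
    by_cases c1 : OkI P π.v y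
    · rw [if_pos c1, if_neg]
      rintro ⟨c2, c3⟩
      have h := mkl_fact c1 c2
      apply hs
      refine ⟨h.1, ?_⟩
      have := h.2
      omega
    · rw [if_neg c1]

open Classical in
theorem mark_large {e : ℕ} (he : 2 * e < d) (π : Pfl k) (G : (V k → Mn F d) → ℝ) :
    (∑ x : V k → Mn F d, if CC e π x then G x else 0) =
      ∑ s : SmT F k d e, ∑ Q ∈ Mo F (d - (smb s).natDegree),
        if OkI Q π.v s.1 ∧ CC e π (ins Q π.v s.1) ∧ Irreducible Q ∧ d ≤ Q.natDegree + e then
          G (ins Q π.v s.1) else 0 := by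
  rw [Finset.sum_congr rfl fun x _ => mkl_point he π G x,
    mark π.v (fun x P => if CC e π x ∧ d ≤ P.natDegree + e then G x else 0)]
  rw [Finset.sum_congr rfl fun μ _ => Finset.sum_comm, Finset.sum_comm]
  rw [Finset.sum_congr rfl fun y _ => mkl_term π G y]
  rw [← Finset.sum_filter]
  unfold SmT
  exact Finset.sum_subtype (p := fun s : V k → Mn F d =>
    Squarefree (∏ v, (s v).1) ∧ (∏ v, (s v).1).natDegree ≤ e)
    (Finset.univ.filter fun y : V k → Mn F d =>
      Squarefree (∏ v, (y v).1) ∧ (∏ v, (y v).1).natDegree ≤ e)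
    (fun y => by rw [Finset.mem_filter]; simp)
    (fun y => ∑ Q ∈ Mo F (d - (∏ v, (y v).1).natDegree),
        if OkI Q π.v y ∧ CC e π (ins Q π.v y) ∧ Irreducible Q ∧ d ≤ Q.natDegree + e then
          G (ins Q π.v y) else 0)

end

end Pool.Agent.H94.PS
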