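import Pool.Agent.H94.PS.Sml

set_option autoImplicit false

/-!
# [H94 PS MKM] Marking of a medium prime

* `mark_med`: `u ∈ π.U`: `md d e u x ≥ 1` for `CC e π x` (`IsPfl.med`), so `G x = ∑ m ∈ pf (x u).1, if m is medium then 1 / md * G x else 0`; `mark`.  `CC.deg`: `(∏ y).natDegree + μ = d`; `μ ≤ e`: the large prime `P` of `x` (`IsPfl.lrg`) is different from `m` (degrees), so `m * P` divides the product, `μ + (d - e) ≤ d`.
-/

namespace Pool.Agent.H94.PS

open Polynomial
open Pool.Agent.H94.PC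
open Pool.Agent.H94.PN (dotp)
open Pool.Agent.H74.SL (V q w L NotKilled)

section
variable {F : Type} [Field F] [Finite F] {k d : ℕ}

private theorem mkm_mon (x : V k → Mn F d) : (∏ v, (x v).1).Monic :=
  monic_prod_of_monic _ _ fun v _ => (x v).2.1

open Classical in
private theorem mkm_point {e : ℕ} (π : Pfl k) {u : V k} (hu : u ∈ π.U)
    (G : (V k → Mn F d) → ℝ) (x : V k → Mn F d) : (if CC e π x then G x else 0) =
      ∑ P ∈ pf (x u).1, if CC e π x ∧ thr d ≤ P.natDegree ∧ P.natDegree + e < d then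
        1 / (md d e u x : ℝ) * G x else 0 := by
  by_cases h : CC e π x
  · obtain ⟨P0, hP0, hd0⟩ := (h.pfl.med u).1 hu
    have h0 : (md d e u x : ℝ) ≠ 0 := by
      have : 0 < md d e u x := by
        unfold md
        exact Finset.card_pos.2 ⟨P0, Finset.mem_filter.2 ⟨hP0, hd0⟩⟩
      exact_mod_cast this.ne'
    have e1 : ∑ P ∈ pf (x u).1, (if CC e π x ∧ thr d ≤ P.natDegree ∧ P.natDegree + e < d then
        1 / (md d e u x : ℝ) * G x else 0) =
        ∑ P ∈ (pf (x u).1).filter (fun P => thr d ≤ P.natDegree ∧ P.natDegree + e < d),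
          1 / (md d e u x : ℝ) * G x := by
      rw [Finset.sum_filter]
      refine Finset.sum_congr rfl fun P _ => ?_
      by_cases c : thr d ≤ P.natDegree ∧ P.natDegree + e < d
      · rw [if_pos c, if_pos ⟨h, c⟩]
      · rw [if_neg c, if_neg fun hh => c hh.2]
    rw [if_pos h, e1, Finset.sum_const, nsmul_eq_mul]
    have e2 : (((pf (x u).1).filter
        (fun P => thr d ≤ P.natDegree ∧ P.natDegree + e < d)).card : ℝ) = md d e u x := rfl
    rw [e2]
    field_simp
  · rw [if_neg h, Finset.sum_eq_zero]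
    intro P _
    rw [if_neg fun hh => h hh.1]

private theorem mkm_fact {e : ℕ} {π : Pfl k} {u : V k} {P : F[X]} {y : V k → Mn F d}
    (h : OkI P u y) (h2 : CC e π (ins P u y)) (hd : P.natDegree + e < d) :
    Squarefree (∏ v, (y v).1) ∧ (∏ v, (y v).1).natDegree + P.natDegree = d ∧
      P.natDegree ≤ e := by
  have h3 := prod_ins h
  have h4 := h2.deg
  have h5 := h2.sqf
  rw [h3] at h4 h5
  rw [h.1.natDegree_mul (mkm_mon y)] at h4
  refine ⟨h5.of_mul_right, by omega, ?_⟩
  obtain ⟨P', hP', hd'⟩ := h2.pfl.lrg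
  obtain ⟨g1, g2, g3⟩ := mem_pf' hP'
  have g4 : P' ∣ P * ∏ v, (y v).1 := by
    rw [← h3]
    exact g3.trans (Finset.dvd_prod_of_mem (fun v => (ins P u y v).1) (Finset.mem_univ π.v))
  rcases g2.prime.dvd_or_dvd g4 with g5 | g5
  · have := natDegree_le_of_dvd g5 h.1.ne_zero
    omega
  · have := natDegree_le_of_dvd g5 (mkm_mon y).ne_zero
    omega

open Classical in
theorem mark_med {e : ℕ} (he : 2 * e < d) (π : Pfl k) {u : V k} (hu : u ∈ π.U)
    (G : (V k → Mn F d) → ℝ) :
    (∑ x : V k → Mn F d, if CC e π x then G x else 0) =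
      ∑ μ ∈ Finset.Icc (thr d) e, ∑ m ∈ Pr F μ, ∑ y ∈ YY F k d μ,
        if OkI m u y ∧ CC e π (ins m u y) ∧ μ + e < d then
          1 / (md d e u (ins m u y) : ℝ) * G (ins m u y) else 0 := by
  rw [Finset.sum_congr rfl fun x _ => mkm_point π hu G x,
    mark u (fun x P => if CC e π x ∧ thr d ≤ P.natDegree ∧ P.natDegree + e < d then
        1 / (md d e u x : ℝ) * G x else 0)]
  symm
  apply Finset.sum_subset_zero_on_sdiff
  · intro μ hμ
    rw [Finset.mem_Icc] at hμ
    rw [Finset.mem_range]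
    omega
  · intro μ hμ
    obtain ⟨_, h2⟩ := Finset.mem_sdiff.1 hμ
    apply Finset.sum_eq_zero
    intro P hP
    obtain ⟨p1, p2, p3⟩ := mem_Pr.1 hP
    apply Finset.sum_eq_zero
    intro y _
    by_cases c1 : OkI P u y
    · rw [if_pos c1, if_neg]
      rintro ⟨c2, c3, c4⟩
      have := (mkm_fact c1 c2 c4).2.2
      apply h2
      rw [Finset.mem_Icc]
      omega
    · rw [if_neg c1]
  · intro μ hμ
    refine Finset.sum_congr rfl fun P hP => ?_
    obtain ⟨p1, p2, p3⟩ := mem_Pr.1 hP
    apply Finset.sum_subset_zero_on_sdiff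
    · exact Finset.subset_univ _
    · intro y hy
      obtain ⟨_, h2⟩ := Finset.mem_sdiff.1 hy
      by_cases c1 : OkI P u y
      · rw [if_pos c1, if_neg]
        rintro ⟨c2, c3, c4⟩
        have := mkm_fact c1 c2 c4
        apply h2
        unfold YY
        rw [Finset.mem_filter]
        refine ⟨Finset.mem_univ _, this.1, ?_⟩
        have := this.2.1
        omega
      · rw [if_neg c1]
    · intro y _
      rw [Finset.mem_Icc] at hμ
      by_cases c1 : OkI P u y
      · rw [if_pos c1]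
        by_cases c2 : CC e π (ins P u y) ∧ μ + e < d
        · rw [if_pos ⟨c1, c2.1, c2.2⟩, if_pos ⟨c2.1, by omega, by omega⟩]
        · rw [if_neg fun hh => c2 hh.2, if_neg fun hh => c2 ⟨hh.1, by omega⟩]
      · rw [if_neg c1, if_neg fun hh => c1 hh.1]

end

end Pool.Agent.H94.PS
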