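import Pool.Agent.H94.PS.Ins
import Pool.Agent.H94.PS.Pha

set_option autoImplicit false

/-!
# [H94 PS PHB] The exponent after the insertion of the primes

`phb`: `a(1, v') = (ins Q j0 s v').1` is `Q * s j0` for `v' = j0` and `s v'` else, so `lam a(1, v') B = [v' = j0] lam Q B + lam (s v') B` for `B` monic and coprime to `a(1, v')` (`lam_mul_left`); the same in the second argument
(`lam A (m * B) = lam A m + lam A B`: from `js_mul_right`, `js_eq_sg`, `sg_inj`, for coprime arguments) for `a(0, v) = [v = u] m, y v`.  In the second and the third sum of `ph'` the coefficient for `v' = k0` is zero (`w 0 v = 0`, `q k0 + q k0 = 0`, `w v 0 = 0` with `v_two`), so there `a(2, v')` can be replaced by `t v'`.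
First sum: `∑ v, ∑ v', L v v' k0 * lam a(1, v') a(0, v) = ∑ v, L v j0 k0 * lam Q a(0, v) + ∑ v, ∑ v', L v v' k0 * lam (s v') a(0, v)`, and the part `m` of `a(0, u)` gives `L u j0 k0 * lam Q m + ∑ v', L u v' k0 * lam (s v') m`.
Second sum: `∑ v, ∑ v', γ v v' * lam (t v') (y v) + ∑ v', γ u v' * lam (t v') m`, `γ v v' = w (v' + k0) v + q v' + q k0`.
Third sum: `∑ v, ∑ v', w v (v' + k0) * lam (t v') (s v) + ∑ v', w j0 (v' + k0) * lam (t v') Q`, and the last sum is `lam (kap k0 j0 t) Q`.
All coprimalities follow from `Cop3` and the divisibilities (`IsCoprime.of_isCoprime_of_dvd_left`, `Dvd.intro`).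

`phb2`: the same computation for the dependence of `phB` on the part `W` in `ins W v1 s`.
-/

namespace Pool.Agent.H94.PS

open Polynomial
open Pool.Agent.H94.PC
open Pool.Agent.H94.PN (dotp)
open Pool.Agent.H74.SL (V q w L NotKilled)

section
variable {F : Type} [Field F] [Finite F] {k d : ℕ}

/-- the part of the exponent with the large prime `Q` -/
noncomputable def phA (th : ZMod 2) (k0 j0 : V k) (y s : V k → Mn F d) (Q : F[X]) : ZMod 2 :=
  (∑ v, L th v j0 k0 * lam Q (y v).1) + ∑ v, ∑ v', L th v v' k0 * lam (s v').1 (y v).1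

/-- the part of the exponent without large primes -/
noncomputable def phB (th : ZMod 2) (k0 u : V k) (y : V k → Mn F d) (m : F[X])
    (s t : V k → Mn F d) : ZMod 2 :=
  (∑ v', L th u v' k0 * lam (s v').1 m) +
    (∑ v, ∑ v', (w (v' + k0) v + q v' + q k0) * lam (t v').1 (y v).1) +
    (∑ v', (w (v' + k0) u + q v' + q k0) * lam (t v').1 m) +
    ∑ v, ∑ v', w v (v' + k0) * lam (t v').1 (s v).1

/-- the part of `t` which is linked with the large prime `Q` at the label `j0` -/
noncomputable def kap (k0 j0 : V k) (t : V k → Mn F d) : F[X] :=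
  ∏ v', if w j0 (v' + k0) = 1 then (t v').1 else 1

private theorem phb_mulR {A B B' : F[X]} (hB : B.Monic) (hB' : B'.Monic) (h : IsCoprime A B)
    (h' : IsCoprime A B') : lam A (B * B') = lam A B + lam A B' := by
  apply sg_inj
  rw [sg_add, ← js_eq_sg hB h, ← js_eq_sg hB' h', ← js_eq_sg (hB.mul hB') (h.mul_right h'),
    js_mul_right A hB hB']

open Classical in
private theorem phb_insL {P B : F[X]} {u v : V k} {y : V k → Mn F d} (h : OkI P u y)
    (hB : B.Monic) (hc : IsCoprime (ins P u y v).1 B) :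
    lam (ins P u y v).1 B = (if v = u then lam P B else 0) + lam (y v).1 B := by
  by_cases hv : v = u
  · subst hv
    rw [ins_same h] at hc ⊢
    rw [if_pos rfl]
    exact lam_mul_left hB hc.of_mul_left_left hc.of_mul_left_right
  · rw [ins_ne hv, if_neg hv, zero_add]

open Classical in
private theorem phb_insR {P A : F[X]} {u v : V k} {y : V k → Mn F d} (h : OkI P u y)
    (hc : IsCoprime A (ins P u y v).1) :
    lam A (ins P u y v).1 = (if v = u then lam A P else 0) + lam A (y v).1 := by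
  by_cases hv : v = u
  · subst hv
    rw [ins_same h] at hc ⊢
    rw [if_pos rfl]
    exact phb_mulR h.1 (y v).2.1 hc.of_mul_right_left hc.of_mul_right_right
  · rw [ins_ne hv, if_neg hv, zero_add]

private theorem phb_dvd {P : F[X]} {u : V k} {y : V k → Mn F d} (h : OkI P u y) (v : V k) :
    (y v).1 ∣ (ins P u y v).1 := by
  by_cases hv : v = u
  · subst hv
    rw [ins_same h]
    exact Dvd.intro_left _ rfl
  · rw [ins_ne hv]

private theorem phb_dvd' {P : F[X]} {u : V k} {y : V k → Mn F d} (h : OkI P u y) :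
    P ∣ (ins P u y u).1 := by
  rw [ins_same h]
  exact Dvd.intro _ rfl

private theorem phb_one {B : F[X]} (hB : B.Monic) : lam (1 : F[X]) B = 0 := by
  have h := lam_C hB (one_ne_zero (α := F))
  have h1 : bt (1 : F) = 0 := by
    unfold bt
    exact if_pos ⟨1, by rw [one_mul]⟩
  rw [C_1, h1, zero_mul] at h
  exact h

private theorem phb_prod {ι : Type*} (s : Finset ι) (f : ι → F[X])
    {B : F[X]} (hB : B.Monic) (hc : ∀ i ∈ s, IsCoprime (f i) B) :
    lam (∏ i ∈ s, f i) B = ∑ i ∈ s, lam (f i) B := by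
  classical
  induction s using Finset.induction_on with
  | empty =>
    rw [Finset.prod_empty, Finset.sum_empty]
    exact phb_one hB
  | insert a s ha ih =>
    rw [Finset.prod_insert ha, Finset.sum_insert ha,
      lam_mul_left hB (hc a (Finset.mem_insert_self a s))
        (IsCoprime.prod_left fun i hi => hc i (Finset.mem_insert_of_mem hi)),
      ih fun i hi => hc i (Finset.mem_insert_of_mem hi)]

private theorem phb_kap {k0 j0 : V k} {t : V k → Mn F d} {Q : F[X]} (hQ : Q.Monic)
    (hc : ∀ v', IsCoprime (t v').1 Q) :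
    lam (kap k0 j0 t) Q = ∑ v', w j0 (v' + k0) * lam (t v').1 Q := by
  have h01 : ∀ a : ZMod 2, a ≠ 1 → a = 0 := by decide
  unfold kap
  rw [phb_prod Finset.univ _ hQ ?_]
  · refine Finset.sum_congr rfl fun v' _ => ?_
    by_cases h : w j0 (v' + k0) = 1
    · rw [if_pos h, h, one_mul]
    · rw [if_neg h, phb_one hQ, h01 _ h, zero_mul]
  · intro v' _
    split_ifs
    · exact hc v'
    · exact isCoprime_one_left

open Classical in
private theorem phb_ssum (G : V k → V k → ZMod 2) (u : V k) (c : V k → ZMod 2)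
    (e : V k → V k → ZMod 2) :
    ∑ v, ∑ v', G v v' * ((if v = u then c v' else 0) + e v v') =
      (∑ v', G u v' * c v') + ∑ v, ∑ v', G v v' * e v v' := by
  have h1 : ∀ v, ∑ v', G v v' * ((if v = u then c v' else 0) + e v v') =
      (if v = u then ∑ v', G v v' * c v' else 0) + ∑ v', G v v' * e v v' := by
    intro v
    by_cases h : v = u
    · simp only [if_pos h, mul_add, Finset.sum_add_distrib]
    · simp only [if_neg h, zero_add]
  rw [Finset.sum_congr rfl fun v _ => h1 v, Finset.sum_add_distrib, Finset.sum_ite_eq',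
    if_pos (Finset.mem_univ u)]

open Classical in
private theorem phb_jsum (G : V k → ZMod 2) (j : V k) (a : ZMod 2) (e : V k → ZMod 2) :
    ∑ v', G v' * ((if v' = j then a else 0) + e v') = G j * a + ∑ v', G v' * e v' := by
  have h1 : ∀ v', G v' * ((if v' = j then a else 0) + e v') =
      (if v' = j then G v' * a else 0) + G v' * e v' := by
    intro v'
    by_cases h : v' = j
    · simp only [if_pos h, mul_add]
    · simp only [if_neg h, zero_add]
  rw [Finset.sum_congr rfl fun v' _ => h1 v', Finset.sum_add_distrib, Finset.sum_ite_eq',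
    if_pos (Finset.mem_univ j)]

theorem phb (th : ZMod 2) {u j0 k0 : V k} {m Q R : F[X]} {y s t : V k → Mn F d}
    (hm : OkI m u y) (hQ : OkI Q j0 s) (hR : OkI R k0 t)
    (hc : Cop3 ![ins m u y, ins Q j0 s, ins R k0 t]) :
    ph' th k0 ![ins m u y, ins Q j0 s, ins R k0 t] =
      phA th k0 j0 y s Q + L th u j0 k0 * lam Q m + phB th k0 u y m s t +
        lam (kap k0 j0 t) Q := by
  classical
  have n10 : (1 : Fin 3) ≠ 0 := by decide
  have n20 : (2 : Fin 3) ≠ 0 := by decide
  have n21 : (2 : Fin 3) ≠ 1 := by decide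
  have c10 : ∀ v v', IsCoprime (ins Q j0 s v').1 (ins m u y v).1 := fun v v' =>
    hc 1 v' 0 v fun h => n10 (congrArg Prod.fst h)
  have c20' : ∀ v v', IsCoprime (ins R k0 t v').1 (ins m u y v).1 := fun v v' =>
    hc 2 v' 0 v fun h => n20 (congrArg Prod.fst h)
  have c21' : ∀ v v', IsCoprime (ins R k0 t v').1 (ins Q j0 s v).1 := fun v v' =>
    hc 2 v' 1 v fun h => n21 (congrArg Prod.fst h)
  have c20 : ∀ v v', IsCoprime (t v').1 (ins m u y v).1 := fun v v' =>
    (c20' v v').of_isCoprime_of_dvd_left (phb_dvd hR v')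
  have c21 : ∀ v v', IsCoprime (t v').1 (ins Q j0 s v).1 := fun v v' =>
    (c21' v v').of_isCoprime_of_dvd_left (phb_dvd hR v')
  have cQ0 : ∀ v, IsCoprime Q (ins m u y v).1 := fun v =>
    (c10 v j0).of_isCoprime_of_dvd_left (phb_dvd' hQ)
  have cs0 : ∀ v v', IsCoprime (s v').1 (ins m u y v).1 := fun v v' =>
    (c10 v v').of_isCoprime_of_dvd_left (phb_dvd hQ v')
  have ctQ : ∀ v', IsCoprime (t v').1 Q := fun v' =>
    (c21 j0 v').of_isCoprime_of_dvd_right (phb_dvd' hQ)
  have s1 : ∑ v, ∑ v', L th v v' k0 * lam (ins Q j0 s v').1 (ins m u y v).1 =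
      (L th u j0 k0 * lam Q m + ∑ v, L th v j0 k0 * lam Q (y v).1) +
        ((∑ v', L th u v' k0 * lam (s v').1 m) +
          ∑ v, ∑ v', L th v v' k0 * lam (s v').1 (y v).1) := by
    have h1 : ∀ v, ∑ v', L th v v' k0 * lam (ins Q j0 s v').1 (ins m u y v).1 =
        L th v j0 k0 * ((if v = u then lam Q m else 0) + lam Q (y v).1) +
          ∑ v', L th v v' k0 * ((if v = u then lam (s v').1 m else 0) + lam (s v').1 (y v).1) := by
      intro v
      rw [← phb_jsum (fun v' => L th v v' k0) j0]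
      refine Finset.sum_congr rfl fun v' _ => ?_
      rw [phb_insL hQ (ins m u y v).2.1 (c10 v v'), phb_insR hm (cQ0 v), phb_insR hm (cs0 v v')]
    rw [Finset.sum_congr rfl fun v _ => h1 v, Finset.sum_add_distrib, phb_jsum, phb_ssum]
  have s2 : ∑ v, ∑ v', (w (v' + k0) v + q v' + q k0) * lam (ins R k0 t v').1 (ins m u y v).1 =
      (∑ v', (w (v' + k0) u + q v' + q k0) * lam (t v').1 m) +
        ∑ v, ∑ v', (w (v' + k0) v + q v' + q k0) * lam (t v').1 (y v).1 := by
    rw [← phb_ssum (fun v v' => w (v' + k0) v + q v' + q k0) u]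
    refine Finset.sum_congr rfl fun v _ => Finset.sum_congr rfl fun v' _ => ?_
    rw [← phb_insR hm (c20 v v')]
    by_cases h : v' = k0
    · have h0 : w (v' + k0) v + q v' + q k0 = 0 := by
        rw [h, Pool.Agent.H74.SL.v_two, Pool.Agent.H74.SL.w_zero_left, zero_add,
          Pool.Agent.H74.SL.two_zero]
      rw [h0, zero_mul, zero_mul]
    · rw [ins_ne h]
  have s3 : ∑ v, ∑ v', w v (v' + k0) * lam (ins R k0 t v').1 (ins Q j0 s v).1 =
      (∑ v', w j0 (v' + k0) * lam (t v').1 Q) +
        ∑ v, ∑ v', w v (v' + k0) * lam (t v').1 (s v).1 := by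
    rw [← phb_ssum (fun v v' => w v (v' + k0)) j0]
    refine Finset.sum_congr rfl fun v _ => Finset.sum_congr rfl fun v' _ => ?_
    rw [← phb_insR hQ (c21 v v')]
    by_cases h : v' = k0
    · have h0 : w v (v' + k0) = 0 := by
        rw [h, Pool.Agent.H74.SL.v_two, Pool.Agent.H74.SL.w_zero_right]
      rw [h0, zero_mul, zero_mul]
    · rw [ins_ne h]
  show (∑ v, ∑ v', L th v v' k0 * lam (ins Q j0 s v').1 (ins m u y v).1) +
    (∑ v, ∑ v', (w (v' + k0) v + q v' + q k0) * lam (ins R k0 t v').1 (ins m u y v).1) +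
    (∑ v, ∑ v', w v (v' + k0) * lam (ins R k0 t v').1 (ins Q j0 s v).1) = _
  rw [s1, s2, s3, phb_kap hQ.1 ctQ]
  unfold phA phB
  ring

theorem phb2 (th : ZMod 2) {u j0 k0 v1 : V k} {m Q R W : F[X]} {y s t : V k → Mn F d}
    (hm : OkI m u y) (hW : OkI W v1 s) (hQ : OkI Q j0 (ins W v1 s)) (hR : OkI R k0 t)
    (hc : Cop3 ![ins m u y, ins Q j0 (ins W v1 s), ins R k0 t]) :
    phB th k0 u y m (ins W v1 s) t =
      phB th k0 u y m s t + L th u v1 k0 * lam W m + ∑ v', w v1 (v' + k0) * lam (t v').1 W := by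
  classical
  have n10 : (1 : Fin 3) ≠ 0 := by decide
  have n21 : (2 : Fin 3) ≠ 1 := by decide
  have c10' : ∀ v v', IsCoprime (ins Q j0 (ins W v1 s) v').1 (ins m u y v).1 := fun v v' =>
    hc 1 v' 0 v fun h => n10 (congrArg Prod.fst h)
  have c21' : ∀ v v', IsCoprime (ins R k0 t v').1 (ins Q j0 (ins W v1 s) v).1 := fun v v' =>
    hc 2 v' 1 v fun h => n21 (congrArg Prod.fst h)
  have c1m : ∀ v', IsCoprime (ins W v1 s v').1 m := fun v' =>
    ((c10' u v').of_isCoprime_of_dvd_left (phb_dvd hQ v')).of_isCoprime_of_dvd_right (phb_dvd' hm)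
  have c21 : ∀ v v', IsCoprime (t v').1 (ins W v1 s v).1 := fun v v' =>
    ((c21' v v').of_isCoprime_of_dvd_left (phb_dvd hR v')).of_isCoprime_of_dvd_right (phb_dvd hQ v)
  have s1 : ∑ v', L th u v' k0 * lam (ins W v1 s v').1 m =
      L th u v1 k0 * lam W m + ∑ v', L th u v' k0 * lam (s v').1 m := by
    rw [← phb_jsum (fun v' => L th u v' k0) v1]
    exact Finset.sum_congr rfl fun v' _ => by rw [phb_insL hW hm.1 (c1m v')]
  have s4 : ∑ v, ∑ v', w v (v' + k0) * lam (t v').1 (ins W v1 s v).1 =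
      (∑ v', w v1 (v' + k0) * lam (t v').1 W) +
        ∑ v, ∑ v', w v (v' + k0) * lam (t v').1 (s v).1 := by
    rw [← phb_ssum (fun v v' => w v (v' + k0)) v1]
    exact Finset.sum_congr rfl fun v _ => Finset.sum_congr rfl fun v' _ => by
      rw [phb_insR hW (c21 v v')]
  unfold phB
  rw [s1, s4]
  ring

end

end Pool.Agent.H94.PS
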