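import Pool.Agent.H94.PS.TL
import Pool.Agent.H94.PS.Cc
import Pool.Agent.H94.PC.SSBound

set_option autoImplicit false

/-!
# [H94 PS SML] Small labelled parts

* `fibL`: labelled polynomials with product `N`: if there is one then `N` is monic; `card {y | ∏ y = N} ≤ (4 ^ k) ^ om N`: for squarefree `N` by `tup` with `S = {N}`, `G = 1` (the number of the maps `pf N → V k`, `card (V k) = 4 ^ k`).  For `fibL` it is assumed that `N` is squarefree.
* `smL`: `mo`: a product of monics; `fib`: `SmT` is a subtype of the labelled polynomials: `fibL` if `N` is squarefree, else the set is empty.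
* `sumY`: `∑ y ∈ YY, C ^ om (∏ y) = ∑ N ∈ Sq F (d - μ), #{y | ∏ y = N} C ^ om N ≤ ∑ N ∈ Sq F (d - μ), (4 ^ k C) ^ om N = SS (fun _ => 4 ^ k C) (d - μ)` (`∏ P ∈ pf D, κ = κ ^ om D`), and `SS_le`, `PS_const` for `d - μ ≥ 1`: `SS f m ≤ κ / m q ^ m e ^ κ m ^ κ ≤ K (m + 1) ^ K q ^ m`, `κ = 4 ^ k C`;
  `Sq F 0 = {1}` for `m = 0`.
-/

namespace Pool.Agent.H94.PS

open Polynomial
open Pool.Agent.H94.PC
open Pool.Agent.H94.PN (dotp)
open Pool.Agent.H74.SL (V q w L NotKilled)

section
variable {F : Type} [Field F] [Finite F] {k d : ℕ}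

variable (F) in
/-- the small labelled parts -/
def SmT (k d e : ℕ) : Type :=
  {s : V k → Mn F d // Squarefree (∏ v, (s v).1) ∧ (∏ v, (s v).1).natDegree ≤ e}

instance (e : ℕ) : Finite (SmT F k d e) := by
  unfold SmT
  infer_instance

noncomputable instance (e : ℕ) : Fintype (SmT F k d e) := Fintype.ofFinite _

/-- the product of a small labelled part -/
noncomputable def smb {e : ℕ} (s : SmT F k d e) : F[X] := ∏ v, (s.1 v).1

/-- the inclusion for larger bounds of the degree -/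
private noncomputable def smInc {n : ℕ} (h : d ≤ n) (x : Mn F d) : Mn F n :=
  ⟨x.1, x.2.1, x.2.2.1, x.2.2.2.trans h⟩

open Classical in
private theorem smTup {N : F[X]} (hm : N.Monic) (hN : Squarefree N) {n : ℕ}
    (hn : N.natDegree ≤ n) :
    (Finset.univ.filter fun y : V k → Mn F n => ∏ v, (y v).1 = N).card = (4 ^ k) ^ om N := by
  have h1 := tup (κ := V k) n {N} (fun D hD => by
    rw [Finset.mem_singleton.1 hD]
    exact ⟨hm, hN, hn⟩) (fun _ _ => 1)
  rw [Finset.sum_singleton, Finset.sum_const, nsmul_eq_mul, mul_one, Finset.card_univ,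
    Fintype.card_fun, Fintype.card_coe] at h1
  have h2 : Fintype.card (V k) = 4 ^ k := by
    rw [← Nat.card_eq_fintype_card]
    exact Pool.Agent.H74.SL.card_V
  rw [h2] at h1
  have h3 : (∑ x : V k → Mn F n, if (∏ i, (x i).1) ∈ ({N} : Finset F[X]) then (1 : ℝ) else 0) =
      ((Finset.univ.filter fun y : V k → Mn F n => ∏ v, (y v).1 = N).card : ℝ) := by
    rw [← Finset.sum_filter, Finset.sum_const, nsmul_eq_mul, mul_one]
    congr 2
    ext y
    rw [Finset.mem_filter, Finset.mem_filter, Finset.mem_singleton]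
  rw [h3] at h1
  exact_mod_cast h1.symm

open Classical in
theorem fibL {N : F[X]} (hN : Squarefree N) :
    (Finset.univ.filter fun y : V k → Mn F d => ∏ v, (y v).1 = N).card ≤ (4 ^ k) ^ om N := by
  rcases (Finset.univ.filter fun y : V k → Mn F d => ∏ v, (y v).1 = N).eq_empty_or_nonempty with
    h | ⟨y0, hy0⟩
  · rw [h, Finset.card_empty]
    exact Nat.zero_le _
  · have hm : N.Monic := by
      rw [← (Finset.mem_filter.1 hy0).2]
      exact monic_prod_of_monic _ _ fun v _ => (y0 v).2.1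
    rw [← smTup hm hN (le_max_right d N.natDegree)]
    refine Finset.card_le_card_of_injOn
      (fun y v => smInc (le_max_left d N.natDegree) (y v)) ?_ ?_
    · intro y hy
      exact Finset.mem_filter.2 ⟨Finset.mem_univ _, (Finset.mem_filter.1 hy).2⟩
    · intro y _ y' _ h
      funext v
      have h1 := congrArg (fun x : Mn F (max d N.natDegree) => x.1) (congrFun h v)
      exact Subtype.ext h1

theorem smL (e : ℕ) : SmL e (4 ^ k) (smb : SmT F k d e → F[X]) := by
  classical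
  refine ⟨fun s => monic_prod_of_monic _ _ fun v _ => (s.1 v).2.1, fun s => s.2.1,
    fun s => s.2.2, fun N => ?_⟩
  by_cases hN : Squarefree N
  · refine le_trans (Finset.card_le_card_of_injOn (fun s : SmT F k d e => s.1) ?_ ?_)
      (fibL (k := k) (d := d) hN)
    · intro s hs
      exact Finset.mem_filter.2 ⟨Finset.mem_univ _, (Finset.mem_filter.1 hs).2⟩
    · intro s _ s' _ h
      exact Subtype.ext h
  · rw [Finset.card_eq_zero.2]
    · exact Nat.zero_le _
    · rw [Finset.filter_eq_empty_iff]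
      intro s _ hs
      apply hN
      rw [← hs]
      exact s.2.1

open Classical in
/-- the labelled polynomials of degree `d - μ` with squarefree product -/
noncomputable def YY (F : Type) [Field F] [Finite F] (k d μ : ℕ) : Finset (V k → Mn F d) :=
  Finset.univ.filter fun y => Squarefree (∏ v, (y v).1) ∧ (∏ v, (y v).1).natDegree + μ = d

/-- the sum of `κ ^ om N` -/
private theorem smSS (F : Type) [Field F] [Finite F] (κ : ℕ) : ∃ K : ℕ, ∀ m : ℕ,
    SS (fun _ : F[X] => (κ : ℝ)) m ≤ K * ((m : ℝ) + 1) ^ K * (Nat.card F : ℝ) ^ m := by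
  have hq : (0 : ℝ) < (Nat.card F : ℝ) := by
    exact_mod_cast Nat.card_pos
  obtain ⟨A, hA⟩ := exists_nat_ge ((κ : ℝ) * Real.exp κ)
  refine ⟨A + κ + 1, fun m => ?_⟩
  rcases Nat.eq_zero_or_pos m with rfl | hm
  · have h1 : Sq F 0 ⊆ {1} := by
      intro D hD
      rw [mem_Sq] at hD
      rw [Finset.mem_singleton]
      exact hD.1.natDegree_eq_zero.1 hD.2.1
    have h2 : SS (fun _ : F[X] => (κ : ℝ)) 0 ≤
        ∑ D ∈ ({1} : Finset F[X]), ∏ P ∈ pf D, (κ : ℝ) := by
      unfold SS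
      refine Finset.sum_le_sum_of_subset_of_nonneg h1 ?_
      intro D _ _
      exact Finset.prod_nonneg fun _ _ => Nat.cast_nonneg κ
    rw [Finset.sum_singleton, pf_one, Finset.prod_empty] at h2
    refine h2.trans ?_
    push_cast
    rw [zero_add, one_pow, pow_zero, mul_one, mul_one]
    have h3 : (0 : ℝ) ≤ A := Nat.cast_nonneg A
    have h4 : (0 : ℝ) ≤ κ := Nat.cast_nonneg κ
    linarith
  · have hm0 : (0 : ℝ) < m := by exact_mod_cast hm
    have hm1 : (1 : ℝ) ≤ m := by exact_mod_cast hm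
    have hqm : (0 : ℝ) < (Nat.card F : ℝ) ^ m := pow_pos hq _
    have hκ : (0 : ℝ) ≤ κ := Nat.cast_nonneg κ
    have h1 := SS_le (fun _ : F[X] => (κ : ℝ)) (fun _ => hκ) (κ : ℝ) (fun _ => le_refl _) m hm
    have h2 := PS_const (F := F) (κ : ℝ) hκ m hm
    have h3 : Real.exp (PS (fun _ : F[X] => (κ : ℝ)) m) ≤ Real.exp κ * (m : ℝ) ^ κ := by
      refine (Real.exp_le_exp.2 h2).trans (le_of_eq ?_)
      rw [mul_add, mul_one, Real.exp_add, mul_comm (κ : ℝ) (Real.log m), Real.exp_mul,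
        Real.exp_log hm0, Real.rpow_natCast]
    have h4 : (m : ℝ) ^ κ ≤ ((m : ℝ) + 1) ^ (A + κ + 1) :=
      (pow_le_pow_left₀ hm0.le (by linarith) κ).trans
        (pow_le_pow_right₀ (by linarith) (by omega))
    have h5 : (κ : ℝ) / m ≤ κ := div_le_self hκ hm1
    calc SS (fun _ : F[X] => (κ : ℝ)) m
        ≤ κ / m * (Nat.card F : ℝ) ^ m * Real.exp (PS (fun _ : F[X] => (κ : ℝ)) m) := h1
      _ ≤ κ * (Nat.card F : ℝ) ^ m * (Real.exp κ * (m : ℝ) ^ κ) := by
          refine mul_le_mul (mul_le_mul_of_nonneg_right h5 hqm.le) h3 (Real.exp_pos _).le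
            (by positivity)
      _ = (κ * Real.exp κ) * (m : ℝ) ^ κ * (Nat.card F : ℝ) ^ m := by ring
      _ ≤ ((A + κ + 1 : ℕ) : ℝ) * ((m : ℝ) + 1) ^ (A + κ + 1) * (Nat.card F : ℝ) ^ m := by
          refine mul_le_mul_of_nonneg_right (mul_le_mul ?_ h4 (by positivity) (by positivity))
            hqm.le
          push_cast
          linarith

theorem sumY (F : Type) [Field F] [Finite F] (k C : ℕ) : ∃ K : ℕ, ∀ d μ : ℕ, μ ≤ d →
    ∑ y ∈ YY F k d μ, (C : ℝ) ^ om (∏ v, (y v).1) ≤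
      K * ((d : ℝ) + 1) ^ K * (Nat.card F : ℝ) ^ (d - μ) := by
  classical
  obtain ⟨K, hK⟩ := smSS F (4 ^ k * C)
  refine ⟨K, fun d μ hμ => ?_⟩
  have hmap : ∀ y ∈ YY F k d μ, ∏ v, (y v).1 ∈ Sq F (d - μ) := by
    intro y hy
    obtain ⟨h1, h2⟩ := (Finset.mem_filter.1 hy).2
    rw [mem_Sq]
    exact ⟨monic_prod_of_monic _ _ fun v _ => (y v).2.1, by omega, h1⟩
  rw [← Finset.sum_fiberwise_of_maps_to hmap]
  have h1 : ∀ N ∈ Sq F (d - μ), ∑ y ∈ (YY F k d μ).filter (fun y => ∏ v, (y v).1 = N),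
      (C : ℝ) ^ om (∏ v, (y v).1) ≤ ∏ _P ∈ pf N, ((4 ^ k * C : ℕ) : ℝ) := by
    intro N hN
    have h2 : ∀ y ∈ (YY F k d μ).filter (fun y => ∏ v, (y v).1 = N),
        (C : ℝ) ^ om (∏ v, (y v).1) = (C : ℝ) ^ om N := by
      intro y hy
      rw [(Finset.mem_filter.1 hy).2]
    rw [Finset.sum_congr rfl h2, Finset.sum_const, nsmul_eq_mul, Finset.prod_const]
    have h3 : ((YY F k d μ).filter (fun y => ∏ v, (y v).1 = N)).card ≤ (4 ^ k) ^ om N := by
      refine le_trans (Finset.card_le_card ?_) (fibL (k := k) (d := d) (mem_Sq.1 hN).2.2)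
      intro y hy
      exact Finset.mem_filter.2 ⟨Finset.mem_univ _, (Finset.mem_filter.1 hy).2⟩
    have h4 : (((YY F k d μ).filter (fun y => ∏ v, (y v).1 = N)).card : ℝ) ≤
        ((4 : ℝ) ^ k) ^ om N := by
      exact_mod_cast h3
    have h5 : (((4 ^ k * C : ℕ) : ℝ)) ^ (pf N).card = ((4 : ℝ) ^ k) ^ om N * (C : ℝ) ^ om N := by
      rw [← mul_pow]
      push_cast
      rfl
    rw [h5]
    exact mul_le_mul_of_nonneg_right h4 (by positivity)
  refine (Finset.sum_le_sum h1).trans ((hK (d - μ)).trans ?_)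
  have h6 : ((d - μ : ℕ) : ℝ) + 1 ≤ (d : ℝ) + 1 := by
    have : ((d - μ : ℕ) : ℝ) ≤ (d : ℝ) := by exact_mod_cast Nat.sub_le d μ
    linarith
  have h7 : (((d - μ : ℕ) : ℝ) + 1) ^ K ≤ ((d : ℝ) + 1) ^ K :=
    pow_le_pow_left₀ (by positivity) h6 K
  exact mul_le_mul_of_nonneg_right (mul_le_mul_of_nonneg_left h7 (by positivity)) (by positivity)

/-- the number of the medium primes of the part with the label `u` -/
noncomputable def md (d e : ℕ) (u : V k) (x : V k → Mn F d) : ℕ :=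
  ((pf (x u).1).filter fun P => thr d ≤ P.natDegree ∧ P.natDegree + e < d).card

end

end Pool.Agent.H94.PS
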