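import Pool.Agent.H94.PS.Defs
import Pool.Agent.H74.TL.Tfin
import Pool.Agent.H74.TL.Tg

set_option autoImplicit false

/-!
# [H94 PS TL] The lemmas T and T2: statements

`n` (with its labels) is fixed, `Y 0 = m n`, `Y 1 = b s Q`, `Y 2 = c t R`; `s ∈ S`, `t ∈ T` are the small labelled parts,
`Q`, `R` arbitrary monic polynomials (in the application primes, in the weights `f`, `g`), `m` a prime of degree `μ`.
-/

namespace Pool.Agent.H94.PS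

open Polynomial
open Pool.Agent.H94.PC

section
variable {F : Type} [Field F] [Finite F]

/-- lemma T -/
theorem tl (h2 : (2 : F) ≠ 0) (r : ℕ) : ∃ K : ℕ, ∀ d e μ : ℕ, 10 * e ≤ d → 1 ≤ μ → μ ≤ e →
    ∀ (n : F[X]) (b c : F), b ≠ 0 → c ≠ 0 → n ≠ 0 → n.natDegree + μ = d →
    ∀ (S T : Type) [Fintype S] [Fintype T] (sb : S → F[X]) (tb : T → F[X]),
      SmL e r sb → SmL e r tb →
    ∀ (f : S → F[X] → ℝ) (g : T → F[X] → ℝ) (h : F[X] → S → T → ℝ) (κ : T → F[X]),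
      (∀ s Q, |f s Q| ≤ 1) → (∀ t R, |g t R| ≤ 1) → (∀ m s t, |h m s t| ≤ 1) →
      (∀ t, (κ t).Monic ∧ κ t ∣ tb t) →
      TS d μ n b c sb tb f g h κ ^ 4 * (Nat.card F : ℝ) ^ μ ≤
        K * ((d : ℝ) + 1) ^ K * (K : ℝ) ^ om n * (Nat.card F : ℝ) ^ (4 * (d + μ)) := by
  exact Pool.Agent.H74.TL.tl_main h2 r

/-- lemma T2 -/
theorem tl2 (h2 : (2 : F) ≠ 0) (r : ℕ) : ∃ K : ℕ, ∀ d e μ ν : ℕ, 10 * e ≤ d → 1 ≤ μ → μ ≤ e →
    1 ≤ ν → ν ≤ e →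
    ∀ (n : F[X]) (b c : F), b ≠ 0 → c ≠ 0 → n ≠ 0 → n.natDegree + μ = d →
    ∀ (S T : Type) [Fintype S] [Fintype T] (sb : S → F[X]) (tb : T → F[X]),
      SmL (e - ν) r sb → SmL e r tb →
    ∀ (f : F[X] → S → F[X] → ℝ) (g : T → F[X] → ℝ) (h : F[X] → S → T → ℝ)
      (η : F[X] → S → T → ℝ) (κ : T → F[X]),
      (∀ W s Q, |f W s Q| ≤ 1) → (∀ t R, |g t R| ≤ 1) → (∀ m s t, |h m s t| ≤ 1) →
      (∀ W s t, |η W s t| ≤ 1) → (∀ t, (κ t).Monic ∧ κ t ∣ tb t) →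
      TS2 d μ ν n b c sb tb f g h η κ ^ 16 * (Nat.card F : ℝ) ^ (min μ ν) ≤
        K * ((d : ℝ) + 1) ^ K * (K : ℝ) ^ om n * (Nat.card F : ℝ) ^ (16 * (d + μ)) := by
  exact Pool.Agent.H74.TL.tl2_main h2 r

end

end Pool.Agent.H94.PS
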