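import Pool.Agent.H94.PS.Tpt
import Pool.Agent.H94.PS.Ce
import Pool.Agent.H94.PS.Mkl
import Pool.Agent.H94.PS.Mkm

set_option autoImplicit false

/-!
# [H94 PS TCS] The class sum as a sum of the sums of lemma T

`j0 = (π 1).v`, `k0 = (π 2).v`, `n = C (c 0) * ∏ y`, `x0 = ins m u y`, `x1 = ins Q j0 s`, `x2 = ins R k0 t`.

`cs_T`: `cs_eq`; the sum over `x0`, `x1`, `x2` with the conditions `CC`: rewrite as iterated sums of `if CC e (π 0) x0 then (∑ x1, if CC e (π 1) x1 then (∑ x2, if CC e (π 2) x2 then G .. else 0) else 0) else 0`, apply `mark_large` to `x2` and to `x1`, `mark_med` to `x0`, interchange the sums so that for fixed `μ`, `y`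
the sum is over `m`, `s`, `t`, `Q`, `R`, and use `pt_T` (`m ∈ Pr F μ` is monic, irreducible of degree `μ`).
-/

namespace Pool.Agent.H94.PS

open Polynomial
open Pool.Agent.H94.PC
open Pool.Agent.H94.PN (dotp)
open Pool.Agent.H74.SL (V q w L NotKilled)

section
variable {F : Type} [Field F] [Finite F] {k d : ℕ}

private theorem cs_pull {α : Type} (s : Finset α) (p : Prop) [Decidable p] (f : α → ℝ) :
    ∑ a ∈ s, (if p then f a else 0) = if p then ∑ a ∈ s, f a else 0 := by
  split_ifs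
  · rfl
  · exact Finset.sum_const_zero

private theorem cs_pt {A0 A1 A2 B : Prop} [Decidable A0] [Decidable A1] [Decidable A2]
    [Decidable B] [Decidable (A0 ∧ A1 ∧ A2 ∧ B)] (r W : ℝ) :
    (if A0 then r * (if A1 then (if A2 then (if B then W else 0) else 0) else 0) else 0) =
      if A0 ∧ A1 ∧ A2 ∧ B then r * W else 0 := by
  by_cases h0 : A0
  · by_cases h1 : A1
    · by_cases h2 : A2
      · by_cases h3 : B
        · rw [if_pos h0, if_pos h1, if_pos h2, if_pos h3, if_pos ⟨h0, h1, h2, h3⟩]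
        · rw [if_pos h0, if_pos h1, if_pos h2, if_neg h3, if_neg (fun h => h3 h.2.2.2), mul_zero]
      · rw [if_pos h0, if_pos h1, if_neg h2, if_neg (fun h => h2 h.2.2.1), mul_zero]
    · rw [if_pos h0, if_neg h1, if_neg (fun h => h1 h.2.1), mul_zero]
  · rw [if_neg h0, if_neg (fun h => h0 h.1)]

private theorem cs_pt2 {A0 A1 A2 B B' : Prop} [Decidable A0] [Decidable A1] [Decidable A2]
    [Decidable (B ∧ B')] [Decidable (B ∧ B' ∧ A0 ∧ A1 ∧ A2)] (W : ℝ) :
    (if B ∧ B' ∧ A0 ∧ A1 ∧ A2 then W else 0) =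
    (if A0 then (if A1 then (if A2 then (if B ∧ B' then W else 0) else 0) else 0) else 0) := by
  by_cases h0 : A0
  · by_cases h1 : A1
    · by_cases h2 : A2
      · by_cases h3 : B ∧ B'
        · rw [if_pos h0, if_pos h1, if_pos h2, if_pos h3, if_pos ⟨h3.1, h3.2, h0, h1, h2⟩]
        · rw [if_pos h0, if_pos h1, if_pos h2, if_neg h3, if_neg (fun h => h3 ⟨h.1, h.2.1⟩)]
      · rw [if_pos h0, if_pos h1, if_neg h2, if_neg (fun h => h2 h.2.2.2.2)]
    · rw [if_pos h0, if_neg h1, if_neg (fun h => h1 h.2.2.2.1)]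
  · rw [if_neg h0, if_neg (fun h => h0 h.2.2.1)]

open Classical in
private theorem cs_core {e : ℕ} (he : 2 * e < d) (th : ZMod 2) {c : Fin 3 → F}
    (hc : ∀ i, c i ≠ 0) (π : Fin 3 → Pfl k) {u : V k} (hu : u ∈ (π 0).U)
    (hL : L th u (π 1).v (π 2).v = 1) :
    (∑ x0 : V k → Mn F d, ∑ x1 : V k → Mn F d, ∑ x2 : V k → Mn F d,
        if C (c 0) * (∏ v, (x0 v).1) + C (c 1) * (∏ v, (x1 v).1) + C (c 2) * (∏ v, (x2 v).1) = 0 ∧
          IsCoprime (∏ v, (x1 v).1) (∏ v, (x2 v).1) ∧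
          CC e (π 0) x0 ∧ CC e (π 1) x1 ∧ CC e (π 2) x2 then
          w1 th x0 * w1 th x1 * w1 th x2 * sg (ph' th (π 2).v ![x0, x1, x2]) else 0) =
      ∑ μ ∈ Finset.Icc (thr d) e, ∑ y ∈ YY F k d μ,
        TS d μ (C (c 0) * ∏ v, (y v).1) (c 1) (c 2) (smb (F := F) (k := k) (d := d) (e := e))
          (smb (F := F) (k := k) (d := d) (e := e))
          (fun s Q => fT th e π (C (c 0) * ∏ v, (y v).1) y s.1 Q)
          (fun t R => gT th e π t.1 R) (fun m s t => hT th e π u y m s.1 t.1)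
          (fun t => kap (π 2).v (π 1).v t.1) := by
  have h1 : (∑ x0 : V k → Mn F d, ∑ x1 : V k → Mn F d, ∑ x2 : V k → Mn F d,
        if C (c 0) * (∏ v, (x0 v).1) + C (c 1) * (∏ v, (x1 v).1) + C (c 2) * (∏ v, (x2 v).1) = 0 ∧
          IsCoprime (∏ v, (x1 v).1) (∏ v, (x2 v).1) ∧
          CC e (π 0) x0 ∧ CC e (π 1) x1 ∧ CC e (π 2) x2 then
          w1 th x0 * w1 th x1 * w1 th x2 * sg (ph' th (π 2).v ![x0, x1, x2]) else 0) =
      ∑ x0 : V k → Mn F d, if CC e (π 0) x0 then
        (∑ x1 : V k → Mn F d, if CC e (π 1) x1 then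
          (∑ x2 : V k → Mn F d, if CC e (π 2) x2 then
            (if C (c 0) * (∏ v, (x0 v).1) + C (c 1) * (∏ v, (x1 v).1) +
                C (c 2) * (∏ v, (x2 v).1) = 0 ∧
              IsCoprime (∏ v, (x1 v).1) (∏ v, (x2 v).1) then
            w1 th x0 * w1 th x1 * w1 th x2 * sg (ph' th (π 2).v ![x0, x1, x2]) else 0)
            else 0) else 0) else 0 := by
    refine Finset.sum_congr rfl fun x0 _ => ?_
    rw [← cs_pull]
    refine Finset.sum_congr rfl fun x1 _ => ?_
    rw [← cs_pull, ← cs_pull]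
    refine Finset.sum_congr rfl fun x2 _ => ?_
    exact cs_pt2 _
  rw [h1]
  refine (mark_med he (π 0) hu (fun x0 => ∑ x1 : V k → Mn F d, if CC e (π 1) x1 then
          (∑ x2 : V k → Mn F d, if CC e (π 2) x2 then
            (if C (c 0) * (∏ v, (x0 v).1) + C (c 1) * (∏ v, (x1 v).1) +
                C (c 2) * (∏ v, (x2 v).1) = 0 ∧
              IsCoprime (∏ v, (x1 v).1) (∏ v, (x2 v).1) then
            w1 th x0 * w1 th x1 * w1 th x2 * sg (ph' th (π 2).v ![x0, x1, x2]) else 0)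
            else 0) else 0)).trans ?_
  refine Finset.sum_congr rfl fun μ _ => ?_
  rw [Finset.sum_comm]
  refine Finset.sum_congr rfl fun y _ => ?_
  unfold TS
  refine Finset.sum_congr rfl fun m hm => ?_
  obtain ⟨hm1, rfl, hm2⟩ := mem_Pr.1 hm
  have e2 : (∑ x1 : V k → Mn F d, if CC e (π 1) x1 then
          (∑ x2 : V k → Mn F d, if CC e (π 2) x2 then
            (if C (c 0) * (∏ v, (ins m u y v).1) + C (c 1) * (∏ v, (x1 v).1) +
                C (c 2) * (∏ v, (x2 v).1) = 0 ∧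
              IsCoprime (∏ v, (x1 v).1) (∏ v, (x2 v).1) then
            w1 th (ins m u y) * w1 th x1 * w1 th x2 *
              sg (ph' th (π 2).v ![ins m u y, x1, x2]) else 0)
            else 0) else 0) =
      ∑ s : SmT F k d e, ∑ Q ∈ Mo F (d - (smb s).natDegree),
        if OkI Q (π 1).v s.1 ∧ CC e (π 1) (ins Q (π 1).v s.1) ∧ Irreducible Q ∧
            d ≤ Q.natDegree + e then
          (∑ t : SmT F k d e, ∑ R ∈ Mo F (d - (smb t).natDegree),
            if OkI R (π 2).v t.1 ∧ CC e (π 2) (ins R (π 2).v t.1) ∧ Irreducible R ∧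
                d ≤ R.natDegree + e then
              (if C (c 0) * (∏ v, (ins m u y v).1) +
                  C (c 1) * (∏ v, (ins Q (π 1).v s.1 v).1) +
                  C (c 2) * (∏ v, (ins R (π 2).v t.1 v).1) = 0 ∧
                IsCoprime (∏ v, (ins Q (π 1).v s.1 v).1) (∏ v, (ins R (π 2).v t.1 v).1) then
                w1 th (ins m u y) * w1 th (ins Q (π 1).v s.1) * w1 th (ins R (π 2).v t.1) *
                  sg (ph' th (π 2).v ![ins m u y, ins Q (π 1).v s.1, ins R (π 2).v t.1])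
                else 0) else 0) else 0 := by
    refine (mark_large he (π 1) (fun x1 => ∑ x2 : V k → Mn F d, if CC e (π 2) x2 then
            (if C (c 0) * (∏ v, (ins m u y v).1) + C (c 1) * (∏ v, (x1 v).1) +
                C (c 2) * (∏ v, (x2 v).1) = 0 ∧
              IsCoprime (∏ v, (x1 v).1) (∏ v, (x2 v).1) then
            w1 th (ins m u y) * w1 th x1 * w1 th x2 *
              sg (ph' th (π 2).v ![ins m u y, x1, x2]) else 0) else 0)).trans ?_
    refine Finset.sum_congr rfl fun s _ => Finset.sum_congr rfl fun Q _ => ?_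
    refine if_congr Iff.rfl ?_ rfl
    exact mark_large he (π 2) (fun x2 =>
            if C (c 0) * (∏ v, (ins m u y v).1) + C (c 1) * (∏ v, (ins Q (π 1).v s.1 v).1) +
                C (c 2) * (∏ v, (x2 v).1) = 0 ∧
              IsCoprime (∏ v, (ins Q (π 1).v s.1 v).1) (∏ v, (x2 v).1) then
            w1 th (ins m u y) * w1 th (ins Q (π 1).v s.1) * w1 th x2 *
              sg (ph' th (π 2).v ![ins m u y, ins Q (π 1).v s.1, x2]) else 0)
  rw [e2, Finset.mul_sum, ← cs_pull]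
  refine Finset.sum_congr rfl fun s _ => ?_
  rw [Finset.mul_sum, ← cs_pull]
  refine Eq.trans ?_ Finset.sum_comm
  refine Finset.sum_congr rfl fun Q hQ => ?_
  have e3 : ∀ t : SmT F k d e, ∀ R ∈ Mo F (d - (smb t).natDegree), _ = _ := fun t R hR =>
    (pt_T (y := y) (s := s) (t := t) he th hc π hL hm1 hQ hR).symm.trans (cs_pt _ _).symm
  refine Eq.trans ?_ (Finset.sum_congr rfl fun t _ => Finset.sum_congr rfl fun R hR =>
    (e3 t R hR).symm)
  by_cases hA0 : OkI m u y ∧ CC e (π 0) (ins m u y) ∧ m.natDegree + e < d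
  · simp only [if_pos hA0]
    by_cases hA1 : OkI Q (π 1).v s.1 ∧ CC e (π 1) (ins Q (π 1).v s.1) ∧ Irreducible Q ∧
            d ≤ Q.natDegree + e
    · simp only [if_pos hA1, Finset.mul_sum]
    · simp only [if_neg hA1, mul_zero, Finset.sum_const_zero]
  · simp only [if_neg hA0, Finset.sum_const_zero]

theorem cs_T (h2 : (2 : F) ≠ 0) (th : ZMod 2) (c : Fin 3 → F) (hc : ∀ i, c i ≠ 0)
    (π : Fin 3 → Pfl k) {u : V k} (hu : u ∈ (π 0).U) (hL : L th u (π 1).v (π 2).v = 1) :
    ∃ s : ℝ, (s = 1 ∨ s = -1) ∧ ∀ d e : ℕ, 2 * e < d →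
      CS th d e c π = s * ∑ μ ∈ Finset.Icc (thr d) e, ∑ y ∈ YY F k d μ,
        TS d μ (C (c 0) * ∏ v, (y v).1) (c 1) (c 2) (smb (F := F) (k := k) (d := d) (e := e))
          (smb (F := F) (k := k) (d := d) (e := e))
          (fun s Q => fT th e π (C (c 0) * ∏ v, (y v).1) y s.1 Q)
          (fun t R => gT th e π t.1 R) (fun m s t => hT th e π u y m s.1 t.1)
          (fun t => kap (π 2).v (π 1).v t.1) := by
  obtain ⟨s, hs, hcs⟩ := cs_eq h2 th c hc π (π 2).v
  refine ⟨s, hs, fun d e he => ?_⟩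
  rw [hcs d e, cs_core he th hc π hu hL]

end

end Pool.Agent.H94.PS
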