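import Pool.Agent.H94.PS.Tpt2
import Pool.Agent.H94.PS.Ce
import Pool.Agent.H94.PS.Mkl
import Pool.Agent.H94.PS.Mkm
import Pool.Agent.H94.PS.Mk2

set_option autoImplicit false

/-!
# [H94 PS TCS2] The class sum as a sum of the sums of lemma T2

`j0 = (π 1).v`, `k0 = (π 2).v`, `n = C (c 0) * ∏ y`, `x0 = ins m u y`, `x1 = ins Q j0 (ins W v1 s)`, `x2 = ins R k0 t`.  The same as TID (see there), with the marked medium prime `W` (label `v1`) in the second class.

`cs_T2`: `cs_eq`, `mark_med` for `x0`, `mark_two` for `x1`, `mark_large` for `x2`, interchange, `pt_T2`.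
-/

namespace Pool.Agent.H94.PS

open Polynomial
open Pool.Agent.H94.PC
open Pool.Agent.H94.PN (dotp)
open Pool.Agent.H74.SL (V q w L NotKilled)

section
variable {F : Type} [Field F] [Finite F] {k d : ℕ}

private theorem ite_mul_sum {ι : Type*} (s : Finset ι) (f : ι → ℝ) (p : Prop) [Decidable p] (a : ℝ) :
    (if p then a * ∑ i ∈ s, f i else 0) = ∑ i ∈ s, if p then a * f i else 0 := by
  split_ifs
  · rw [Finset.mul_sum]
  · rw [Finset.sum_const_zero]

private theorem ite_ite_mul (p q : Prop) [Decidable p] [Decidable q] (a b x : ℝ) :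
    (if p then a * (if q then b * x else 0) else 0) = if p ∧ q then a * b * x else 0 := by
  by_cases hp : p
  · by_cases hq : q
    · rw [if_pos hp, if_pos hq, if_pos ⟨hp, hq⟩, mul_assoc]
    · rw [if_pos hp, if_neg hq, if_neg (fun h => hq h.2), mul_zero]
  · rw [if_neg hp, if_neg (fun h => hp h.1)]

theorem cs_T2 (h2 : (2 : F) ≠ 0) (th : ZMod 2) (c : Fin 3 → F) (hc : ∀ i, c i ≠ 0)
    (π : Fin 3 → Pfl k) {u v1 : V k} (hu : u ∈ (π 0).U) (hv : v1 ∈ (π 1).U)
    (hL0 : L th u (π 1).v (π 2).v = 0) (hL : L th u v1 (π 2).v = 1) :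
    ∃ s : ℝ, (s = 1 ∨ s = -1) ∧ ∀ d e : ℕ, 2 * e < d →
      CS th d e c π = s * ∑ μ ∈ Finset.Icc (thr d) e, ∑ ν ∈ Finset.Icc (thr d) e,
        ∑ y ∈ YY F k d μ,
        TS2 d μ ν (C (c 0) * ∏ v, (y v).1) (c 1) (c 2)
          (smb (F := F) (k := k) (d := d) (e := e - ν))
          (smb (F := F) (k := k) (d := d) (e := e))
          (fun W s Q => fT2 th e π v1 (C (c 0) * ∏ v, (y v).1) y W s.1 Q)
          (fun t R => gT th e π t.1 R) (fun m s t => hT2 th e ν π u y m s.1 t.1)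
          (fun W _ t => eT2 (π 2).v v1 W t.1)
          (fun t => kap (π 2).v (π 1).v t.1) := by
  classical
  obtain ⟨s0, hs0, H⟩ := cs_eq (k := k) h2 th c hc π (π 2).v
  refine ⟨s0, hs0, fun d e he => ?_⟩
  rw [H d e]
  congr 1
  set G : (V k → Mn F d) → (V k → Mn F d) → (V k → Mn F d) → ℝ := fun x0 x1 x2 =>
    if C (c 0) * (∏ v, (x0 v).1) + C (c 1) * (∏ v, (x1 v).1) + C (c 2) * (∏ v, (x2 v).1) = 0 ∧
          IsCoprime (∏ v, (x1 v).1) (∏ v, (x2 v).1) then
      w1 th x0 * w1 th x1 * w1 th x2 * sg (ph' th (π 2).v ![x0, x1, x2]) else 0 with hG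
  have e1 : (∑ x0 : V k → Mn F d, ∑ x1 : V k → Mn F d, ∑ x2 : V k → Mn F d,
        if C (c 0) * (∏ v, (x0 v).1) + C (c 1) * (∏ v, (x1 v).1) + C (c 2) * (∏ v, (x2 v).1) = 0 ∧
          IsCoprime (∏ v, (x1 v).1) (∏ v, (x2 v).1) ∧
          CC e (π 0) x0 ∧ CC e (π 1) x1 ∧ CC e (π 2) x2 then
          w1 th x0 * w1 th x1 * w1 th x2 * sg (ph' th (π 2).v ![x0, x1, x2]) else 0) =
      ∑ x0 : V k → Mn F d, if CC e (π 0) x0 then (∑ x1 : V k → Mn F d, if CC e (π 1) x1 then
        (∑ x2 : V k → Mn F d, if CC e (π 2) x2 then G x0 x1 x2 else 0) else 0) else 0 := by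
    refine Finset.sum_congr rfl fun x0 _ => ?_
    by_cases h0 : CC e (π 0) x0
    · rw [if_pos h0]
      refine Finset.sum_congr rfl fun x1 _ => ?_
      by_cases h1 : CC e (π 1) x1
      · rw [if_pos h1]
        refine Finset.sum_congr rfl fun x2 _ => ?_
        by_cases h3 : CC e (π 2) x2
        · rw [if_pos h3, hG]
          refine if_congr ?_ rfl rfl
          tauto
        · rw [if_neg h3, if_neg]
          tauto
      · rw [if_neg h1]
        refine Finset.sum_eq_zero fun x2 _ => if_neg ?_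
        tauto
    · rw [if_neg h0]
      refine Finset.sum_eq_zero fun x1 _ => Finset.sum_eq_zero fun x2 _ => if_neg ?_
      tauto
  rw [e1]
  have e2 : ∀ x0 x1 : V k → Mn F d,
      (∑ x2 : V k → Mn F d, if CC e (π 2) x2 then G x0 x1 x2 else 0) =
      ∑ t : SmT F k d e, ∑ R ∈ Mo F (d - (smb t).natDegree),
        if OkI R (π 2).v t.1 ∧ CC e (π 2) (ins R (π 2).v t.1) ∧ Irreducible R ∧
            d ≤ R.natDegree + e then
          G x0 x1 (ins R (π 2).v t.1) else 0 := fun x0 x1 => mark_large he (π 2) (G x0 x1)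
  have e3 : ∀ x0 : V k → Mn F d,
      (∑ x1 : V k → Mn F d, if CC e (π 1) x1 then
        (∑ x2 : V k → Mn F d, if CC e (π 2) x2 then G x0 x1 x2 else 0) else 0) = _ := fun x0 =>
    mark_two he (π 1) hv (fun x1 => ∑ x2 : V k → Mn F d, if CC e (π 2) x2 then G x0 x1 x2 else 0)
  rw [mark_med he (π 0) hu (fun x0 => ∑ x1 : V k → Mn F d, if CC e (π 1) x1 then
        (∑ x2 : V k → Mn F d, if CC e (π 2) x2 then G x0 x1 x2 else 0) else 0)]
  refine Finset.sum_congr rfl fun μ hμ => ?_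
  -- interchange
  have e4 : ∀ m ∈ Pr F μ, ∀ y ∈ YY F k d μ,
      (if OkI m u y ∧ CC e (π 0) (ins m u y) ∧ μ + e < d then
          1 / (md d e u (ins m u y) : ℝ) * (∑ x1 : V k → Mn F d, if CC e (π 1) x1 then
        (∑ x2 : V k → Mn F d, if CC e (π 2) x2 then G (ins m u y) x1 x2 else 0) else 0) else 0) =
      ∑ ν ∈ Finset.Icc (thr d) e, ∑ W ∈ Pr F ν, ∑ s : SmT F k d (e - ν),
        ∑ t : SmT F k d e, ∑ Q ∈ Mo F (d - ν - (smb s).natDegree),
          ∑ R ∈ Mo F (d - (smb t).natDegree),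
          if m * (C (c 0) * ∏ v, (y v).1) + C (c 1) * (W * smb s * Q) + C (c 2) * (smb t * R) = 0 ∧
            IsCoprime (W * smb s * Q) (smb t) ∧ IsCoprime W (smb s) then
          fT2 th e π v1 (C (c 0) * ∏ v, (y v).1) y W s.1 Q * gT th e π t.1 R *
            hT2 th e ν π u y m s.1 t.1 * eT2 (π 2).v v1 W t.1 *
            js Q (kap (π 2).v (π 1).v t.1) * js m W else 0 := by
    intro m hm y hy
    rw [e3 (ins m u y), ite_mul_sum]
    refine Finset.sum_congr rfl fun ν hν => ?_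
    rw [ite_mul_sum]
    refine Finset.sum_congr rfl fun W hW => ?_
    rw [ite_mul_sum]
    refine Finset.sum_congr rfl fun s _ => ?_
    rw [ite_mul_sum, Finset.sum_comm]
    refine Finset.sum_congr rfl fun Q hQ => ?_
    rw [e2, ite_ite_mul, ite_mul_sum]
    refine Finset.sum_congr rfl fun t _ => ?_
    rw [ite_mul_sum]
    refine Finset.sum_congr rfl fun R hR => ?_
    have hmd : m.natDegree = μ := (mem_Pr.1 hm).2.1
    rw [← pt_T2 he (Finset.mem_Icc.1 hν).2 th hc π hL0 hL (mem_Pr.1 hm).1 hW hQ hR, hmd, hG]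
    beta_reduce
    by_cases hP : (OkI m u y ∧ CC e (π 0) (ins m u y) ∧ μ + e < d) ∧
        (OkI W v1 s.1 ∧ OkI Q (π 1).v (ins W v1 s.1) ∧
          CC e (π 1) (ins Q (π 1).v (ins W v1 s.1)) ∧ Irreducible Q ∧ d ≤ Q.natDegree + e ∧
          ν + e < d)
    · rw [if_pos hP]
      by_cases hP2 : OkI R (π 2).v t.1 ∧ CC e (π 2) (ins R (π 2).v t.1) ∧ Irreducible R ∧
          d ≤ R.natDegree + e
      · rw [if_pos hP2]
        by_cases hP3 : C (c 0) * (∏ v, (ins m u y v).1) +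
          C (c 1) * (∏ v, (ins Q (π 1).v (ins W v1 s.1) v).1) +
          C (c 2) * (∏ v, (ins R (π 2).v t.1 v).1) = 0 ∧
          IsCoprime (∏ v, (ins Q (π 1).v (ins W v1 s.1) v).1)
            (∏ v, (ins R (π 2).v t.1 v).1)
        · rw [if_pos hP3, if_pos ⟨hP.1, hP.2, hP2, hP3⟩, mul_assoc]
        · rw [if_neg hP3, if_neg (fun h => hP3 h.2.2.2), mul_zero]
      · rw [if_neg hP2, if_neg (fun h => hP2 h.2.2.1), mul_zero]
    · rw [if_neg hP, if_neg (fun h => hP ⟨h.1, h.2.1⟩)]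
  rw [Finset.sum_congr rfl fun m hm => Finset.sum_congr rfl fun y hy => e4 m hm y hy,
    Finset.sum_comm, Finset.sum_congr rfl fun y _ => Finset.sum_comm, Finset.sum_comm]
  rfl

end

end Pool.Agent.H94.PS
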