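import Pool.Agent.H94.PS.Sml
import Pool.Agent.H94.PS.Phb

set_option autoImplicit false

/-!
# [H94 PS TDF] The weights for lemma T: definitions and bounds

`abs_w1_le`, `abs_sg`, `abs_ch_le`, `|ch (-1) ^ n| ≤ 1`, `0 ≤ 1 / (n : ℝ) ≤ 1` for `n : ℕ` (also for `n = 0`).  `kap_spec`: a product of monic polynomials, each factor `1` or `t v'` divides `t v'` (`Finset.prod_dvd_prod_of_dvd`).
-/

namespace Pool.Agent.H94.PS

open Polynomial
open Pool.Agent.H94.PC
open Pool.Agent.H94.PN (dotp)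
open Pool.Agent.H74.SL (V q w L NotKilled)

section
variable {F : Type} [Field F] [Finite F] {k d : ℕ}

open Classical in
/-- the weight of the second class -/
noncomputable def fT (th : ZMod 2) (e : ℕ) (π : Fin 3 → Pfl k) (n : F[X]) (y s : V k → Mn F d)
    (Q : F[X]) : ℝ :=
  if OkI Q (π 1).v s ∧ CC e (π 1) (ins Q (π 1).v s) ∧ Irreducible Q ∧ d ≤ Q.natDegree + e ∧
      IsCoprime Q n then
    w1 th (ins Q (π 1).v s) * sg (phA th (π 2).v (π 1).v y s Q) else 0

open Classical in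
/-- the weight of the third class -/
noncomputable def gT (th : ZMod 2) (e : ℕ) (π : Fin 3 → Pfl k) (t : V k → Mn F d)
    (R : F[X]) : ℝ :=
  if OkI R (π 2).v t ∧ CC e (π 2) (ins R (π 2).v t) ∧ Irreducible R ∧ d ≤ R.natDegree + e then
    w1 th (ins R (π 2).v t) else 0

open Classical in
/-- the weight of the first class -/
noncomputable def hT (th : ZMod 2) (e : ℕ) (π : Fin 3 → Pfl k) (u : V k) (y : V k → Mn F d)
    (m : F[X]) (s t : V k → Mn F d) : ℝ :=
  if OkI m u y ∧ CC e (π 0) (ins m u y) ∧ m.natDegree + e < d then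
    w1 th (ins m u y) * (1 / (md d e u (ins m u y) : ℝ)) * sg (phB th (π 2).v u y m s t) *
      ch (-1 : F) ^ (m.natDegree * (d - (∏ v, (s v).1).natDegree)) *
      ch (-1 : F) ^ ((kap (π 2).v (π 1).v t).natDegree * (d - (∏ v, (s v).1).natDegree)) else 0

theorem abs_fT_le (th : ZMod 2) (e : ℕ) (π : Fin 3 → Pfl k) (n : F[X]) (y s : V k → Mn F d)
    (Q : F[X]) : |fT th e π n y s Q| ≤ 1 := by
  classical
  unfold fT
  split_ifs
  · rw [abs_mul, abs_sg, mul_one]
    exact abs_w1_le th _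
  · rw [abs_zero]
    exact zero_le_one

theorem abs_gT_le (th : ZMod 2) (e : ℕ) (π : Fin 3 → Pfl k) (t : V k → Mn F d)
    (R : F[X]) : |gT th e π t R| ≤ 1 := by
  classical
  unfold gT
  split_ifs
  · exact abs_w1_le th _
  · rw [abs_zero]
    exact zero_le_one

theorem abs_hT_le (th : ZMod 2) (e : ℕ) (π : Fin 3 → Pfl k) (u : V k) (y : V k → Mn F d)
    (m : F[X]) (s t : V k → Mn F d) : |hT th e π u y m s t| ≤ 1 := by
  classical
  have h1 : ∀ n : ℕ, |(1 / (n : ℝ))| ≤ 1 := by
    intro n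
    rw [abs_of_nonneg (by positivity)]
    rcases Nat.eq_zero_or_pos n with h | h
    · rw [h, Nat.cast_zero, div_zero]
      exact zero_le_one
    · rw [div_le_one (by exact_mod_cast h)]
      exact_mod_cast h
  have h2 : ∀ n : ℕ, |ch (-1 : F) ^ n| ≤ 1 := by
    intro n
    rw [abs_pow]
    exact pow_le_one₀ (abs_nonneg _) (abs_ch_le _)
  unfold hT
  split_ifs
  · rw [abs_mul, abs_mul, abs_mul, abs_mul, abs_sg, mul_one]
    exact mul_le_one₀ (mul_le_one₀ (mul_le_one₀ (abs_w1_le th _) (abs_nonneg _) (h1 _))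
      (abs_nonneg _) (h2 _)) (abs_nonneg _) (h2 _)
  · rw [abs_zero]
    exact zero_le_one

theorem kap_spec (k0 j0 : V k) (t : V k → Mn F d) :
    (kap k0 j0 t).Monic ∧ kap k0 j0 t ∣ ∏ v, (t v).1 := by
  unfold kap
  constructor
  · refine monic_prod_of_monic _ _ fun v _ => ?_
    split_ifs
    · exact (t v).2.1
    · exact monic_one
  · refine Finset.prod_dvd_prod_of_dvd _ _ fun v _ => ?_
    split_ifs
    · exact dvd_refl _
    · exact one_dvd _

end

end Pool.Agent.H94.PS
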