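import Pool.Agent.H94.PS.Tdf

set_option autoImplicit false

/-!
# [H94 PS TDF2] The weights for lemma T2: definitions and bounds

As in TDF.
-/

namespace Pool.Agent.H94.PS

open Polynomial
open Pool.Agent.H94.PC
open Pool.Agent.H94.PN (dotp)
open Pool.Agent.H74.SL (V q w L NotKilled)

section
variable {F : Type} [Field F] [Finite F] {k d : ℕ}

open Classical in
/-- the weight of the second class -/
noncomputable def fT2 (th : ZMod 2) (e : ℕ) (π : Fin 3 → Pfl k) (v1 : V k) (n : F[X])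
    (y : V k → Mn F d) (W : F[X]) (s : V k → Mn F d) (Q : F[X]) : ℝ :=
  if OkI W v1 s ∧ OkI Q (π 1).v (ins W v1 s) ∧ CC e (π 1) (ins Q (π 1).v (ins W v1 s)) ∧
      Irreducible Q ∧ d ≤ Q.natDegree + e ∧ W.natDegree + e < d ∧ IsCoprime Q n then
    w1 th (ins Q (π 1).v (ins W v1 s)) *
      (1 / (md d e v1 (ins Q (π 1).v (ins W v1 s)) : ℝ)) *
        sg (phA th (π 2).v (π 1).v y (ins W v1 s) Q) else 0

open Classical in
/-- the weight of the first class -/
noncomputable def hT2 (th : ZMod 2) (e ν : ℕ) (π : Fin 3 → Pfl k) (u : V k)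
    (y : V k → Mn F d) (m : F[X]) (s t : V k → Mn F d) : ℝ :=
  if OkI m u y ∧ CC e (π 0) (ins m u y) ∧ m.natDegree + e < d then
    w1 th (ins m u y) * (1 / (md d e u (ins m u y) : ℝ)) * sg (phB th (π 2).v u y m s t) *
      ch (-1 : F) ^ (ν * m.natDegree) *
      ch (-1 : F) ^ ((kap (π 2).v (π 1).v t).natDegree * (d - ν - (∏ v, (s v).1).natDegree))
  else 0

/-- the weight of the pair `W`, `t` -/
noncomputable def eT2 (k0 v1 : V k) (W : F[X]) (t : V k → Mn F d) : ℝ :=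
  sg (∑ v', w v1 (v' + k0) * lam (t v').1 W)

private theorem inv_nat_bd (n : ℕ) : |1 / (n : ℝ)| ≤ 1 := by
  rcases Nat.eq_zero_or_pos n with h | h
  · rw [h]
    simp
  · have h1 : (1 : ℝ) ≤ n := by exact_mod_cast h
    rw [abs_of_nonneg (by positivity)]
    rw [div_le_one (by linarith)]
    exact h1

private theorem abs_ch_pow_le' (a : F) (n : ℕ) : |ch a ^ n| ≤ 1 := by
  rw [abs_pow]
  exact pow_le_one₀ (abs_nonneg _) (abs_ch_le a)

private theorem abs_mul_le_one' {a b : ℝ} (ha : |a| ≤ 1) (hb : |b| ≤ 1) : |a * b| ≤ 1 := by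
  rw [abs_mul]
  exact mul_le_one₀ ha (abs_nonneg _) hb

theorem abs_fT2_le (th : ZMod 2) (e : ℕ) (π : Fin 3 → Pfl k) (v1 : V k) (n : F[X])
    (y : V k → Mn F d) (W : F[X]) (s : V k → Mn F d) (Q : F[X]) :
    |fT2 th e π v1 n y W s Q| ≤ 1 := by
  unfold fT2
  split_ifs
  · exact abs_mul_le_one' (abs_mul_le_one' (abs_w1_le _ _) (inv_nat_bd _)) (abs_sg _).le
  · rw [abs_zero]; exact zero_le_one

theorem abs_hT2_le (th : ZMod 2) (e ν : ℕ) (π : Fin 3 → Pfl k) (u : V k)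
    (y : V k → Mn F d) (m : F[X]) (s t : V k → Mn F d) : |hT2 th e ν π u y m s t| ≤ 1 := by
  unfold hT2
  split_ifs
  · exact abs_mul_le_one' (abs_mul_le_one' (abs_mul_le_one' (abs_mul_le_one' (abs_w1_le _ _)
      (inv_nat_bd _)) (abs_sg _).le) (abs_ch_pow_le' _ _)) (abs_ch_pow_le' _ _)
  · rw [abs_zero]; exact zero_le_one

end

end Pool.Agent.H94.PS
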