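import Pool.Agent.H94.PS.Tdf

set_option autoImplicit false

/-!
# [H94 PS TPT] The summand of the class sum and the summand of lemma T

`j0 = (π 1).v`, `k0 = (π 2).v`, `n = C (c 0) * ∏ y`, `x0 = ins m u y`, `x1 = ins Q j0 s`, `x2 = ins R k0 t`.

`pt_T` (pointwise): the left side is the summand of the class sum after the marking.
* If the left condition holds: `prod_ins`: `∏ x0 = m * ∏ y` etc., so `m * n + C (c 1) * (∏ s * Q) + C (c 2) * (∏ t * R) = 0`; `IsCoprime (∏ s * Q) (∏ t)` from `IsCoprime (∏ x1) (∏ x2)`; `IsCoprime Q n`: `sqf_TY`, `cop3` (`Q ∣ ∏ x1`, `∏ y ∣ ∏ x0`).  `phb` (with `Cop3` from `cop3`, `sqf_TY`),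
  `L th u j0 k0 = 1`: `sg (ph' ..) = sg (phA ..) * js Q m * sg (phB ..) * js (kap ..) Q` (`sg_add`, `js_eq_sg`), and `js_recip` twice; `m.natDegree = μ`, `Q.natDegree = d - (∏ s).natDegree`.
* Conversely let the right side be nonzero, so the conditions in `fT`, `gT`, `hT` hold.  To prove: `IsCoprime (∏ x1) (∏ x2)`, `∏ x1 = Q * ∏ s`, `∏ x2 = R * ∏ t`.  Known: `IsCoprime (∏ s * Q) (∏ t)`.  `R` is irreducible with `R.natDegree ≥ d - e > e ≥ (∏ s).natDegree`, so `R ∤ ∏ s` (`∏ s ≠ 0`); if `R ∣ Q` then `R = Q` up to a unit,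
  and `Q` divides `C (c 1) * (..) + C (c 2) * (..) = - m * n`, so `Q ∣ m` (impossible: `m.natDegree + e < d ≤ Q.natDegree + e`) or `Q ∣ n` (impossible: `IsCoprime Q n`).  So `R` is coprime to `Q * ∏ s`.
-/

namespace Pool.Agent.H94.PS

open Polynomial
open Pool.Agent.H94.PC
open Pool.Agent.H94.PN (dotp)
open Pool.Agent.H74.SL (V q w L NotKilled)

section
variable {F : Type} [Field F] [Finite F] {k d : ℕ}

private theorem pt_key {e : ℕ} (he : 2 * e < d) {c : Fin 3 → F} (hc : ∀ i, c i ≠ 0)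
    {m N0 S T Q R : F[X]} (hm : m.Monic) (hQi : Irreducible Q) (hRi : Irreducible R)
    (hS0 : S ≠ 0) (hSe : S.natDegree ≤ e) (hdQ : d ≤ Q.natDegree + e)
    (hdR : d ≤ R.natDegree + e) (hdm : m.natDegree + e < d) :
    (C (c 0) * (m * N0) + C (c 1) * (Q * S) + C (c 2) * (R * T) = 0 ∧
      IsCoprime (Q * S) (R * T)) ↔
    (m * (C (c 0) * N0) + C (c 1) * (S * Q) + C (c 2) * (T * R) = 0 ∧ IsCoprime (S * Q) T ∧
      IsCoprime Q (C (c 0) * N0)) := by
  have e1 : C (c 0) * (m * N0) + C (c 1) * (Q * S) + C (c 2) * (R * T) =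
      m * (C (c 0) * N0) + C (c 1) * (S * Q) + C (c 2) * (T * R) := by ring
  have hu : IsUnit (C (c 2)) := isUnit_C.2 (IsUnit.mk0 _ (hc 2))
  constructor
  · rintro ⟨h0, h1⟩
    refine ⟨by rw [← e1]; exact h0, ?_, ?_⟩
    · rw [mul_comm S Q]
      exact h1.of_mul_right_right
    · rw [hQi.coprime_iff_not_dvd]
      intro hd
      have h2 : Q ∣ C (c 2) * (R * T) := by
        have h3 : C (c 2) * (R * T) = -(m * (C (c 0) * N0)) - C (c 1) * (Q * S) := by
          linear_combination h0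
        rw [h3]
        exact dvd_sub ((hd.mul_left m).neg_right) ((dvd_mul_right Q S).mul_left _)
      have h4 : Q ∣ R * T := (hu.dvd_mul_left).1 h2
      exact hQi.not_isUnit (h1.isUnit_of_dvd' (dvd_mul_right Q S) h4)
  · rintro ⟨h0, h1, h2⟩
    refine ⟨by rw [e1]; exact h0, ?_⟩
    have h3 : IsCoprime (Q * S) T := by rw [mul_comm Q S]; exact h1
    refine IsCoprime.mul_right ?_ h3
    refine IsCoprime.symm ?_
    rw [hRi.coprime_iff_not_dvd]
    intro hd
    rcases hRi.prime.dvd_or_dvd hd with hd1 | hd1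
    · have h4 : Q ∣ R := (hRi.associated_of_dvd hQi hd1).symm.dvd
      have h5 : Q ∣ m * (C (c 0) * N0) := by
        have h6 : m * (C (c 0) * N0) = -(C (c 1) * (S * Q)) - C (c 2) * (T * R) := by
          linear_combination h0
        rw [h6]
        exact dvd_sub (((dvd_mul_left Q S).mul_left _).neg_right) ((h4.mul_left T).mul_left _)
      rcases hQi.prime.dvd_or_dvd h5 with h6 | h6
      · have h7 := natDegree_le_of_dvd h6 hm.ne_zero
        omega
      · exact (hQi.coprime_iff_not_dvd.1 h2) h6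
    · have h7 := natDegree_le_of_dvd hd1 hS0
      omega

private theorem pt_ch_sq (n : ℕ) : ch (-1 : F) ^ n * ch (-1 : F) ^ n = 1 := by
  rw [← mul_pow, ← ch_mul]
  have h : (-1 : F) * -1 = 1 := by ring
  rw [h, ch_one, one_pow]

open Classical in
theorem pt_T {e : ℕ} (he : 2 * e < d) (th : ZMod 2) {c : Fin 3 → F} (hc : ∀ i, c i ≠ 0)
    (π : Fin 3 → Pfl k) {u : V k} (hL : L th u (π 1).v (π 2).v = 1) {m : F[X]} (hm : m.Monic)
    {y : V k → Mn F d} {s t : SmT F k d e} {Q R : F[X]}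
    (hQ : Q ∈ Mo F (d - (smb s).natDegree)) (hR : R ∈ Mo F (d - (smb t).natDegree)) :
    (if (OkI m u y ∧ CC e (π 0) (ins m u y) ∧ m.natDegree + e < d) ∧
        (OkI Q (π 1).v s.1 ∧ CC e (π 1) (ins Q (π 1).v s.1) ∧ Irreducible Q ∧
          d ≤ Q.natDegree + e) ∧
        (OkI R (π 2).v t.1 ∧ CC e (π 2) (ins R (π 2).v t.1) ∧ Irreducible R ∧
          d ≤ R.natDegree + e) ∧
        (C (c 0) * (∏ v, (ins m u y v).1) + C (c 1) * (∏ v, (ins Q (π 1).v s.1 v).1) +
          C (c 2) * (∏ v, (ins R (π 2).v t.1 v).1) = 0 ∧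
          IsCoprime (∏ v, (ins Q (π 1).v s.1 v).1) (∏ v, (ins R (π 2).v t.1 v).1)) then
      1 / (md d e u (ins m u y) : ℝ) * (w1 th (ins m u y) * w1 th (ins Q (π 1).v s.1) *
        w1 th (ins R (π 2).v t.1) *
          sg (ph' th (π 2).v ![ins m u y, ins Q (π 1).v s.1, ins R (π 2).v t.1]))
      else 0) =
    if m * (C (c 0) * ∏ v, (y v).1) + C (c 1) * (smb s * Q) + C (c 2) * (smb t * R) = 0 ∧
        IsCoprime (smb s * Q) (smb t) then
      fT th e π (C (c 0) * ∏ v, (y v).1) y s.1 Q * gT th e π t.1 R * hT th e π u y m s.1 t.1 *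
        js Q (kap (π 2).v (π 1).v t.1) * js m Q else 0 := by
  have hQ1 := mem_Mo.1 hQ
  have hdQ : d - (∏ v, (s.1 v).1).natDegree = Q.natDegree := hQ1.2.symm
  have hS0 : smb s ≠ 0 := s.2.1.ne_zero
  have hSe : (smb s).natDegree ≤ e := s.2.2
  by_cases hA0 : OkI m u y ∧ CC e (π 0) (ins m u y) ∧ m.natDegree + e < d
  swap
  · rw [if_neg (fun h => hA0 h.1)]
    have h1 : hT th e π u y m s.1 t.1 = 0 := if_neg hA0
    rw [h1]
    split_ifs
    · ring
    · rfl
  by_cases hA1 : OkI Q (π 1).v s.1 ∧ CC e (π 1) (ins Q (π 1).v s.1) ∧ Irreducible Q ∧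
          d ≤ Q.natDegree + e
  swap
  · rw [if_neg (fun h => hA1 h.2.1)]
    have h1 : fT th e π (C (c 0) * ∏ v, (y v).1) y s.1 Q = 0 :=
      if_neg (fun h => hA1 ⟨h.1, h.2.1, h.2.2.1, h.2.2.2.1⟩)
    rw [h1]
    split_ifs
    · ring
    · rfl
  by_cases hA2 : OkI R (π 2).v t.1 ∧ CC e (π 2) (ins R (π 2).v t.1) ∧ Irreducible R ∧
          d ≤ R.natDegree + e
  swap
  · rw [if_neg (fun h => hA2 h.2.2.1)]
    have h1 : gT th e π t.1 R = 0 := if_neg hA2
    rw [h1]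
    split_ifs
    · ring
    · rfl
  have hkey := pt_key (N0 := ∏ v, (y v).1) (T := smb t) he hc hm hA1.2.2.1 hA2.2.2.1 hS0 hSe
    hA1.2.2.2 hA2.2.2.2 hA0.2.2
  have p0 : ∏ v, (ins m u y v).1 = m * ∏ v, (y v).1 := prod_ins hA0.1
  have p1 : ∏ v, (ins Q (π 1).v s.1 v).1 = Q * smb s := prod_ins hA1.1
  have p2 : ∏ v, (ins R (π 2).v t.1 v).1 = R * smb t := prod_ins hA2.1
  by_cases hB : C (c 0) * (m * ∏ v, (y v).1) + C (c 1) * (Q * smb s) +
      C (c 2) * (R * smb t) = 0 ∧ IsCoprime (Q * smb s) (R * smb t)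
  swap
  · rw [if_neg (fun h => hB (by
      have h2 := h.2.2.2
      rw [p0, p1, p2] at h2
      exact h2))]
    by_cases hr : m * (C (c 0) * ∏ v, (y v).1) + C (c 1) * (smb s * Q) +
        C (c 2) * (smb t * R) = 0 ∧ IsCoprime (smb s * Q) (smb t)
    · rw [if_pos hr]
      have h1 : fT th e π (C (c 0) * ∏ v, (y v).1) y s.1 Q = 0 :=
        if_neg (fun h => hB (hkey.2 ⟨hr.1, hr.2, h.2.2.2.2⟩))
      rw [h1]
      ring
    · rw [if_neg hr]
  obtain ⟨hb1, hb2, hb3⟩ := hkey.1 hB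
  have hsum : TY c ![ins m u y, ins Q (π 1).v s.1, ins R (π 2).v t.1] 0 +
      TY c ![ins m u y, ins Q (π 1).v s.1, ins R (π 2).v t.1] 1 +
      TY c ![ins m u y, ins Q (π 1).v s.1, ins R (π 2).v t.1] 2 = 0 := by
    have h := hB.1
    rw [← p0, ← p1, ← p2] at h
    exact h
  have hcp : IsCoprime (∏ v, ((![ins m u y, ins Q (π 1).v s.1, ins R (π 2).v t.1] :
      Fin 3 → V k → Mn F d) 1 v).1)
      (∏ v, ((![ins m u y, ins Q (π 1).v s.1, ins R (π 2).v t.1] :
      Fin 3 → V k → Mn F d) 2 v).1) := by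
    have h := hB.2
    rw [← p1, ← p2] at h
    exact h
  have hsq : ∀ i, Squarefree (∏ v, ((![ins m u y, ins Q (π 1).v s.1, ins R (π 2).v t.1] :
      Fin 3 → V k → Mn F d) i v).1) := by
    intro i
    match i with
    | 0 => exact hA0.2.1.sqf
    | 1 => exact hA1.2.1.sqf
    | 2 => exact hA2.2.1.sqf
  have hcop := cop3 (sqf_TY hc hsum hcp hsq)
  have hph := phb th hA0.1 hA1.1 hA2.1 hcop
  rw [hL, one_mul] at hph
  have hQm : IsCoprime Q m := by
    have h := hcop 1 (π 1).v 0 u (by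
      intro h
      have h' : (1 : Fin 3) = 0 := congrArg Prod.fst h
      exact absurd h' (by decide))
    have h1 : ((![ins m u y, ins Q (π 1).v s.1, ins R (π 2).v t.1] :
      Fin 3 → V k → Mn F d) 1 (π 1).v).1 = Q * (s.1 (π 1).v).1 := ins_same hA1.1
    have h2 : ((![ins m u y, ins Q (π 1).v s.1, ins R (π 2).v t.1] :
      Fin 3 → V k → Mn F d) 0 u).1 = m * (y u).1 := ins_same hA0.1
    rw [h1, h2] at h
    exact h.of_mul_left_left.of_mul_right_left
  have hks := kap_spec (π 2).v (π 1).v t.1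
  have hkQ : IsCoprime (kap (π 2).v (π 1).v t.1) Q := by
    have h : IsCoprime Q (smb t) := hb2.of_mul_left_right
    exact (h.of_isCoprime_of_dvd_right hks.2).symm
  have hQM : Q.Monic := hQ1.1
  rw [if_pos ⟨hA0, hA1, hA2, by rw [p0, p1, p2]; exact hB⟩, if_pos ⟨hb1, hb2⟩, hph]
  have f1 : fT th e π (C (c 0) * ∏ v, (y v).1) y s.1 Q =
      w1 th (ins Q (π 1).v s.1) * sg (phA th (π 2).v (π 1).v y s.1 Q) :=
    if_pos ⟨hA1.1, hA1.2.1, hA1.2.2.1, hA1.2.2.2, hb3⟩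
  have f2 : gT th e π t.1 R = w1 th (ins R (π 2).v t.1) := if_pos hA2
  have f3 : hT th e π u y m s.1 t.1 =
      w1 th (ins m u y) * (1 / (md d e u (ins m u y) : ℝ)) * sg (phB th (π 2).v u y m s.1 t.1) *
      ch (-1 : F) ^ (m.natDegree * (d - (∏ v, (s.1 v).1).natDegree)) *
      ch (-1 : F) ^ ((kap (π 2).v (π 1).v t.1).natDegree *
        (d - (∏ v, (s.1 v).1).natDegree)) := if_pos hA0
  rw [f1, f2, f3, hdQ, js_recip hm hQM, js_recip hQM hks.1, js_eq_sg hm hQm, js_eq_sg hQM hkQ,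
    sg_add, sg_add, sg_add]
  have g1 := pt_ch_sq (F := F) (m.natDegree * Q.natDegree)
  have g2 := pt_ch_sq (F := F) (Q.natDegree * (kap (π 2).v (π 1).v t.1).natDegree)
  rw [mul_comm (kap (π 2).v (π 1).v t.1).natDegree Q.natDegree]
  generalize ch (-1 : F) ^ (m.natDegree * Q.natDegree) = X1 at g1 ⊢
  generalize ch (-1 : F) ^ (Q.natDegree * (kap (π 2).v (π 1).v t.1).natDegree) = X2 at g2 ⊢
  generalize sg (lam Q m) = a1
  generalize sg (lam (kap (π 2).v (π 1).v t.1) Q) = a2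
  generalize sg (phA th (π 2).v (π 1).v y s.1 Q) = a3
  generalize sg (phB th (π 2).v u y m s.1 t.1) = a4
  generalize w1 th (ins m u y) = b1
  generalize w1 th (ins Q (π 1).v s.1) = b2
  generalize w1 th (ins R (π 2).v t.1) = b3
  generalize 1 / (md d e u (ins m u y) : ℝ) = b4
  linear_combination (-(b4 * b1 * b2 * b3 * a1 * a2 * a3 * a4)) * g1 -
    (b4 * b1 * b2 * b3 * a1 * a2 * a3 * a4 * (X1 * X1)) * g2

end

end Pool.Agent.H94.PS
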