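import Pool.Agent.H94.PS.Tdf2
import Pool.Agent.H94.PS.Tpt

set_option autoImplicit false

/-!
# [H94 PS TPT2] The summand of the class sum and the summand of lemma T2

`j0 = (π 1).v`, `k0 = (π 2).v`, `n = C (c 0) * ∏ y`, `x0 = ins m u y`, `x1 = ins Q j0 (ins W v1 s)`, `x2 = ins R k0 t`.  The same as TID (see there), with the marked medium prime `W` (label `v1`) in the second class.

`pt_T2`: `phb` for `s' = ins W v1 s` and `phb2`, with `L th u j0 k0 = 0`, `L th u v1 k0 = 1`: `sg (ph' ..) = sg (phA .. y s' Q) * sg (phB .. y m s t) * js W m * η * js (kap ..) Q`, `η = sg (∑ v', w v1 (v' + k0) * lam (t v') W)`, `js_recip` for `js W m` (degrees `ν`, `m.natDegree`) and for `js (kap ..) Q`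
(`Q.natDegree = d - ν - (∏ s).natDegree`).  `prod_ins` twice: `∏ x1 = Q * (W * ∏ s)`.  Left to right: `IsCoprime W (∏ s)` from the squarefree product.  Right to left: `IsCoprime (∏ x1) (∏ x2)` as in `pt_T`: `R` does not divide `W` (degree `ν ≤ e < d - e`), `∏ s`, `Q`.
-/

namespace Pool.Agent.H94.PS

open Polynomial
open Pool.Agent.H94.PC
open Pool.Agent.H94.PN (dotp)
open Pool.Agent.H74.SL (V q w L NotKilled)

section
variable {F : Type} [Field F] [Finite F] {k d : ℕ}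

private theorem tpt2_cop {A B D : F[X]} (h : Squarefree D) (h2 : A * B ∣ D) : IsCoprime A B := by
  have h3 : Squarefree (A * B) := h.squarefree_of_dvd h2
  exact (squarefree_mul_iff.1 h3).1.isCoprime

private theorem tpt2_TY (c : Fin 3 → F) (x0 x1 x2 : V k → Mn F d) :
    TY c ![x0, x1, x2] 0 = C (c 0) * ∏ v, (x0 v).1 ∧
      TY c ![x0, x1, x2] 1 = C (c 1) * ∏ v, (x1 v).1 ∧
      TY c ![x0, x1, x2] 2 = C (c 2) * ∏ v, (x2 v).1 := ⟨rfl, rfl, rfl⟩

private theorem tpt2_sqf {e : ℕ} {c : Fin 3 → F} (hc : ∀ i, c i ≠ 0) (π : Fin 3 → Pfl k)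
    {x0 x1 x2 : V k → Mn F d} (h0 : CC e (π 0) x0) (h1 : CC e (π 1) x1) (h2 : CC e (π 2) x2)
    (h3 : C (c 0) * (∏ v, (x0 v).1) + C (c 1) * (∏ v, (x1 v).1) + C (c 2) * (∏ v, (x2 v).1) = 0)
    (h4 : IsCoprime (∏ v, (x1 v).1) (∏ v, (x2 v).1)) :
    Squarefree (TY c ![x0, x1, x2] 0 * TY c ![x0, x1, x2] 1 * TY c ![x0, x1, x2] 2) := by
  apply sqf_TY hc (x := ![x0, x1, x2]) h3 h4
  intro i
  fin_cases i
  · exact h0.sqf
  · exact h1.sqf
  · exact h2.sqf

private theorem tpt2_iff {e ν : ℕ} (he : 2 * e < d) (hν : ν ≤ e) {c : Fin 3 → F}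
    (hc : ∀ i, c i ≠ 0) (π : Fin 3 → Pfl k) {u v1 : V k} {m W : F[X]}
    (hW : W ∈ Pr F ν) {y : V k → Mn F d} {s : SmT F k d (e - ν)} {t : SmT F k d e} {Q R : F[X]}
    (A1 : OkI m u y ∧ CC e (π 0) (ins m u y) ∧ m.natDegree + e < d)
    (A2 : OkI W v1 s.1 ∧ OkI Q (π 1).v (ins W v1 s.1) ∧
          CC e (π 1) (ins Q (π 1).v (ins W v1 s.1)) ∧ Irreducible Q ∧ d ≤ Q.natDegree + e ∧
          ν + e < d)
    (A3 : OkI R (π 2).v t.1 ∧ CC e (π 2) (ins R (π 2).v t.1) ∧ Irreducible R ∧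
          d ≤ R.natDegree + e) :
    (C (c 0) * (∏ v, (ins m u y v).1) + C (c 1) * (∏ v, (ins Q (π 1).v (ins W v1 s.1) v).1) +
          C (c 2) * (∏ v, (ins R (π 2).v t.1 v).1) = 0 ∧
          IsCoprime (∏ v, (ins Q (π 1).v (ins W v1 s.1) v).1)
            (∏ v, (ins R (π 2).v t.1 v).1)) ↔
    ((m * (C (c 0) * ∏ v, (y v).1) + C (c 1) * (W * smb s * Q) + C (c 2) * (smb t * R) = 0 ∧
        IsCoprime (W * smb s * Q) (smb t) ∧ IsCoprime W (smb s)) ∧
      IsCoprime Q (C (c 0) * ∏ v, (y v).1)) := by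
  have p0 := prod_ins A1.1
  have p1 : ∏ v, (ins Q (π 1).v (ins W v1 s.1) v).1 = Q * (W * smb s) := by
    rw [prod_ins A2.2.1, prod_ins A2.1]
    rfl
  have p2 : ∏ v, (ins R (π 2).v t.1 v).1 = R * smb t := prod_ins A3.1
  constructor
  · rintro ⟨h3, h4⟩
    have hs := tpt2_sqf hc π A1.2.1 A2.2.2.1 A3.2.1 h3 h4
    obtain ⟨t0, t1, t2⟩ := tpt2_TY c (ins m u y) (ins Q (π 1).v (ins W v1 s.1))
      (ins R (π 2).v t.1)
    rw [t0, t1, t2] at hs
    rw [p0, p1, p2] at hs h3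
    rw [p1, p2] at h4
    refine ⟨⟨?_, ?_, ?_⟩, ?_⟩
    · rw [← h3]
      ring
    · have : W * smb s * Q = Q * (W * smb s) := by ring
      rw [this]
      exact h4.of_mul_right_right
    · have hs1 := A2.2.2.1.sqf
      rw [p1] at hs1
      exact tpt2_cop hs1 (Dvd.intro_left Q rfl)
    · apply tpt2_cop hs
      exact ⟨m * C (c 1) * W * smb s * (C (c 2) * (R * smb t)), by ring⟩
  · rintro ⟨⟨h3, h4, _⟩, h6⟩
    rw [p0, p1, p2]
    refine ⟨?_, ?_⟩
    · rw [← h3]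
      ring
    · have e1 : Q * (W * smb s) = W * smb s * Q := by ring
      rw [e1]
      refine IsCoprime.mul_right ?_ h4
      rw [isCoprime_comm, A3.2.2.1.coprime_iff_not_dvd]
      intro hd
      have hR0 := A3.2.2.1
      have hRd := A3.2.2.2
      have hWp := mem_Pr.1 hW
      rcases hR0.prime.dvd_or_dvd hd with h7 | h7
      · rcases hR0.prime.dvd_or_dvd h7 with h8 | h8
        · have := natDegree_le_of_dvd h8 hWp.1.ne_zero
          rw [hWp.2.1] at this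
          omega
        · have hs0 : smb s ≠ 0 := s.2.1.ne_zero
          have := natDegree_le_of_dvd h8 hs0
          have hs2 : (smb s).natDegree ≤ e - ν := s.2.2
          omega
      · have h8 : Q ∣ R := (hR0.dvd_symm A2.2.2.2.1) h7
        have h9 : Q ∣ m * (C (c 0) * ∏ v, (y v).1) := by
          have e2 : m * (C (c 0) * ∏ v, (y v).1) =
              -(C (c 1) * (W * smb s * Q) + C (c 2) * (smb t * R)) := by
            linear_combination h3
          rw [e2, dvd_neg]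
          apply dvd_add
          · exact (Dvd.intro_left (W * smb s) rfl).mul_left _
          · exact (h8.mul_left _).mul_left _
        rcases A2.2.2.2.1.prime.dvd_or_dvd h9 with h10 | h10
        · have := natDegree_le_of_dvd h10 A1.1.1.ne_zero
          have := A1.2.2
          have := A2.2.2.2.2.1
          omega
        · exact A2.2.2.2.1.not_isUnit (h6.isUnit_of_dvd' (dvd_refl _) h10)

private theorem tpt2_val {e ν : ℕ} (th : ZMod 2) {c : Fin 3 → F}
    (hc : ∀ i, c i ≠ 0) (π : Fin 3 → Pfl k) {u v1 : V k}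
    (hL0 : L th u (π 1).v (π 2).v = 0) (hL : L th u v1 (π 2).v = 1) {m W : F[X]} (hm : m.Monic)
    (hW : W ∈ Pr F ν) {y : V k → Mn F d} {s : SmT F k d (e - ν)} {t : SmT F k d e} {Q R : F[X]}
    (hQ : Q ∈ Mo F (d - ν - (smb s).natDegree))
    (A1 : OkI m u y ∧ CC e (π 0) (ins m u y) ∧ m.natDegree + e < d)
    (A2 : OkI W v1 s.1 ∧ OkI Q (π 1).v (ins W v1 s.1) ∧
          CC e (π 1) (ins Q (π 1).v (ins W v1 s.1)) ∧ Irreducible Q ∧ d ≤ Q.natDegree + e ∧
          ν + e < d)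
    (A3 : OkI R (π 2).v t.1 ∧ CC e (π 2) (ins R (π 2).v t.1) ∧ Irreducible R ∧
          d ≤ R.natDegree + e)
    (h3 : C (c 0) * (∏ v, (ins m u y v).1) +
          C (c 1) * (∏ v, (ins Q (π 1).v (ins W v1 s.1) v).1) +
          C (c 2) * (∏ v, (ins R (π 2).v t.1 v).1) = 0)
    (h4 : IsCoprime (∏ v, (ins Q (π 1).v (ins W v1 s.1) v).1)
            (∏ v, (ins R (π 2).v t.1 v).1)) :
    sg (ph' th (π 2).v ![ins m u y, ins Q (π 1).v (ins W v1 s.1), ins R (π 2).v t.1]) =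
      sg (phA th (π 2).v (π 1).v y (ins W v1 s.1) Q) * sg (phB th (π 2).v u y m s.1 t.1) *
        (ch (-1 : F) ^ (ν * m.natDegree) * js m W) * eT2 (π 2).v v1 W t.1 *
        (ch (-1 : F) ^ ((kap (π 2).v (π 1).v t.1).natDegree *
          (d - ν - (∏ v, (s.1 v).1).natDegree)) * js Q (kap (π 2).v (π 1).v t.1)) := by
  have hs := tpt2_sqf hc π A1.2.1 A2.2.2.1 A3.2.1 h3 h4
  have hcop := cop3 hs
  have p0 := prod_ins A1.1
  have p1 : ∏ v, (ins Q (π 1).v (ins W v1 s.1) v).1 = Q * (W * smb s) := by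
    rw [prod_ins A2.2.1, prod_ins A2.1]
    rfl
  have p2 : ∏ v, (ins R (π 2).v t.1 v).1 = R * smb t := prod_ins A3.1
  have hWp := mem_Pr.1 hW
  have hQm := mem_Mo.1 hQ
  obtain ⟨k1, k2⟩ := kap_spec (π 2).v (π 1).v t.1
  have c1 : IsCoprime W m := by
    obtain ⟨t0, t1, t2⟩ := tpt2_TY c (ins m u y) (ins Q (π 1).v (ins W v1 s.1))
      (ins R (π 2).v t.1)
    rw [t0, t1, t2, p0, p1, p2] at hs
    apply tpt2_cop hs
    exact ⟨C (c 0) * (∏ v, (y v).1) * C (c 1) * Q * smb s * (C (c 2) * (R * smb t)), by ring⟩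
  have c2 : IsCoprime (kap (π 2).v (π 1).v t.1) Q := by
    rw [p1, p2] at h4
    have h5 : IsCoprime Q (smb t) := h4.of_mul_left_left.of_mul_right_right
    exact (h5.symm).of_isCoprime_of_dvd_left k2
  have e1 := phb th A1.1 A2.2.1 A3.1 hcop
  rw [hL0, zero_mul, add_zero] at e1
  have e2 := phb2 th A1.1 A2.1 A2.2.1 A3.1 hcop
  rw [hL, one_mul] at e2
  rw [e1, e2]
  simp only [sg_add]
  have f1 : ch (-1 : F) ^ (ν * m.natDegree) * js m W = sg (lam W m) := by
    rw [← js_eq_sg hm c1, js_recip hWp.1 hm, hWp.2.1]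
  have f2 : ch (-1 : F) ^ ((kap (π 2).v (π 1).v t.1).natDegree *
          (d - ν - (∏ v, (s.1 v).1).natDegree)) * js Q (kap (π 2).v (π 1).v t.1) =
      sg (lam (kap (π 2).v (π 1).v t.1) Q) := by
    rw [← js_eq_sg hQm.1 c2, js_recip k1 hQm.1, hQm.2]
    rfl
  rw [f1, f2]
  unfold eT2
  ring

open Classical in
theorem pt_T2 {e ν : ℕ} (he : 2 * e < d) (hν : ν ≤ e) (th : ZMod 2) {c : Fin 3 → F}
    (hc : ∀ i, c i ≠ 0) (π : Fin 3 → Pfl k) {u v1 : V k}
    (hL0 : L th u (π 1).v (π 2).v = 0) (hL : L th u v1 (π 2).v = 1)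
    {m W : F[X]} (hm : m.Monic) (hW : W ∈ Pr F ν)
    {y : V k → Mn F d} {s : SmT F k d (e - ν)} {t : SmT F k d e} {Q R : F[X]}
    (hQ : Q ∈ Mo F (d - ν - (smb s).natDegree)) (hR : R ∈ Mo F (d - (smb t).natDegree)) :
    (if (OkI m u y ∧ CC e (π 0) (ins m u y) ∧ m.natDegree + e < d) ∧
        (OkI W v1 s.1 ∧ OkI Q (π 1).v (ins W v1 s.1) ∧
          CC e (π 1) (ins Q (π 1).v (ins W v1 s.1)) ∧ Irreducible Q ∧ d ≤ Q.natDegree + e ∧
          ν + e < d) ∧
        (OkI R (π 2).v t.1 ∧ CC e (π 2) (ins R (π 2).v t.1) ∧ Irreducible R ∧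
          d ≤ R.natDegree + e) ∧
        (C (c 0) * (∏ v, (ins m u y v).1) +
          C (c 1) * (∏ v, (ins Q (π 1).v (ins W v1 s.1) v).1) +
          C (c 2) * (∏ v, (ins R (π 2).v t.1 v).1) = 0 ∧
          IsCoprime (∏ v, (ins Q (π 1).v (ins W v1 s.1) v).1)
            (∏ v, (ins R (π 2).v t.1 v).1)) then
      1 / (md d e u (ins m u y) : ℝ) *
        (1 / (md d e v1 (ins Q (π 1).v (ins W v1 s.1)) : ℝ) *
        (w1 th (ins m u y) * w1 th (ins Q (π 1).v (ins W v1 s.1)) *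
        w1 th (ins R (π 2).v t.1) *
          sg (ph' th (π 2).v
            ![ins m u y, ins Q (π 1).v (ins W v1 s.1), ins R (π 2).v t.1])))
      else 0) =
    if m * (C (c 0) * ∏ v, (y v).1) + C (c 1) * (W * smb s * Q) + C (c 2) * (smb t * R) = 0 ∧
        IsCoprime (W * smb s * Q) (smb t) ∧ IsCoprime W (smb s) then
      fT2 th e π v1 (C (c 0) * ∏ v, (y v).1) y W s.1 Q * gT th e π t.1 R *
        hT2 th e ν π u y m s.1 t.1 * eT2 (π 2).v v1 W t.1 *
        js Q (kap (π 2).v (π 1).v t.1) * js m W else 0 := by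
  have hWd : W.natDegree = ν := (mem_Pr.1 hW).2.1
  by_cases A1 : OkI m u y ∧ CC e (π 0) (ins m u y) ∧ m.natDegree + e < d
  · by_cases A2 : OkI W v1 s.1 ∧ OkI Q (π 1).v (ins W v1 s.1) ∧
          CC e (π 1) (ins Q (π 1).v (ins W v1 s.1)) ∧ Irreducible Q ∧ d ≤ Q.natDegree + e ∧
          ν + e < d
    · by_cases A3 : OkI R (π 2).v t.1 ∧ CC e (π 2) (ins R (π 2).v t.1) ∧ Irreducible R ∧
          d ≤ R.natDegree + e
      · have hiff := tpt2_iff he hν hc π hW A1 A2 A3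
        by_cases A4 : C (c 0) * (∏ v, (ins m u y v).1) +
          C (c 1) * (∏ v, (ins Q (π 1).v (ins W v1 s.1) v).1) +
          C (c 2) * (∏ v, (ins R (π 2).v t.1 v).1) = 0 ∧
          IsCoprime (∏ v, (ins Q (π 1).v (ins W v1 s.1) v).1)
            (∏ v, (ins R (π 2).v t.1 v).1)
        · have hB := hiff.1 A4
          rw [if_pos ⟨A1, A2, A3, A4⟩, if_pos hB.1,
            tpt2_val th hc π hL0 hL hm hW hQ A1 A2 A3 A4.1 A4.2]
          have hA2 : OkI W v1 s.1 ∧ OkI Q (π 1).v (ins W v1 s.1) ∧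
              CC e (π 1) (ins Q (π 1).v (ins W v1 s.1)) ∧ Irreducible Q ∧ d ≤ Q.natDegree + e ∧
              W.natDegree + e < d ∧ IsCoprime Q (C (c 0) * ∏ v, (y v).1) :=
            ⟨A2.1, A2.2.1, A2.2.2.1, A2.2.2.2.1, A2.2.2.2.2.1, by rw [hWd]; exact A2.2.2.2.2.2,
              hB.2⟩
          unfold fT2 gT hT2
          rw [if_pos hA2, if_pos A3, if_pos A1]
          ring
        · rw [if_neg fun hh => A4 hh.2.2.2]
          by_cases hB : m * (C (c 0) * ∏ v, (y v).1) + C (c 1) * (W * smb s * Q) +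
              C (c 2) * (smb t * R) = 0 ∧
              IsCoprime (W * smb s * Q) (smb t) ∧ IsCoprime W (smb s)
          · rw [if_pos hB]
            unfold fT2
            rw [if_neg]
            · ring
            · rintro ⟨_, _, _, _, _, _, h7⟩
              exact A4 (hiff.2 ⟨hB, h7⟩)
          · rw [if_neg hB]
      · rw [if_neg fun hh => A3 hh.2.2.1]
        unfold gT
        rw [if_neg A3]
        simp
    · rw [if_neg fun hh => A2 hh.2.1]
      unfold fT2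
      rw [if_neg (c := OkI W v1 s.1 ∧ _)]
      · simp
      · rintro ⟨h1, h2, h3, h4, h5, h6, _⟩
        rw [hWd] at h6
        exact A2 ⟨h1, h2, h3, h4, h5, h6⟩
  · rw [if_neg fun hh => A1 hh.1]
    unfold hT2
    rw [if_neg A1]
    simp

end

end Pool.Agent.H94.PS
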